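import Mathlib

/-!
# Trisections of triangulated 4-manifolds

The PL form of the definitions in the theory of trisections, for subcomplexes of a triangulated
`4`-manifold.  Everything here is finite combinatorics of simplicial complexes on the vertex set
`Fin n`, together with the geometric realisation of such a complex.

* A complex is given by its set `M` of facets; `faces M` is the set of all its simplices and
  `Body M` its geometric realisation (barycentric coordinates), a topological space.
* `Flip` is the bistellar (Pachner) move, `IsPLSphere` says that a complex can be turned into the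
  boundary of a simplex by bistellar moves.  `IsManifold m M` says that `M` triangulates a PL
  manifold of dimension `m`, possibly with boundary: the link of every vertex is a PL sphere or a PL
  ball, a complex being a PL ball iff it becomes a PL sphere when its boundary is coned off
  (Newman).
* `CollapseStep` is the elementary collapse.  `IsHandlebody m r M` says that `M` is an orientable
  PL `m`-manifold that collapses onto a connected graph of rank `r`; by the regular neighbourhood
  theorem this says that it is a PL handlebody: the boundary connected sum of `r` copies of
  `S¹ × B^(m-1)`.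
* `IsSurface g M`: `M` is a closed connected orientable surface of genus `g`.
* A colouring `c` of the facets of `K` by `0, 1, 2` cuts `K` into three subcomplexes; `sector K c i`
  is the union of the facets of colour `i`, and `core K c` is the intersection of the three sectors.
  `IsTrisection K c g k` says that this is a `(g;k,k,k)`-trisection of the triangulated manifold
  `K`.
-/

open Finset

namespace Pool.Agent.TH640B

/-- A finite family of finite sets of vertices (used for complexes given by their facets, and for
families of simplices). -/
abbrev Fam (n : ℕ) := Finset (Finset (Fin n))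

variable {n : ℕ}

/-- The simplices of the complex with facets `M`: nonempty subsets of facets. -/
def faces (M : Fam n) : Fam n := univ.filter fun s => s.Nonempty ∧ ∃ F ∈ M, s ⊆ F

open Classical in
/-- The support of a point: the set of vertices at which its barycentric coordinate is nonzero. -/
noncomputable def supp (x : Fin n → ℝ) : Finset (Fin n) := univ.filter fun v => x v ≠ 0

/-- The union of the open simplices spanned by the members of `S`, in `Fin n → ℝ`. -/
def realize (S : Fam n) : Set (Fin n → ℝ) :=
  {x | (∀ v, 0 ≤ x v) ∧ ∑ v, x v = 1 ∧ supp x ∈ S}

/-- The geometric realisation of the complex with facets `M`. -/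
abbrev Body (M : Fam n) : Type := realize (faces M)

/-! ### Combinatorial manifolds -/

/-- The link of the vertex `v`, given by its facets. -/
def link (M : Fam n) (v : Fin n) : Fam n := (M.filter fun F => v ∈ F).image fun F => F.erase v

/-- The vertices `v` for which `R ∪ {v}` is a facet. -/
def up (M : Fam n) (R : Finset (Fin n)) : Finset (Fin n) :=
  univ.filter fun v => v ∉ R ∧ insert v R ∈ M

/-- The boundary: the sets `R` that are contained in exactly one facet `R ∪ {v}`. -/
def boundary (M : Fam n) : Fam n := univ.filter fun R => (up M R).card = 1

/-- `M` together with the cone with apex `v` over its boundary. -/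
def coneOff (v : Fin n) (M : Fam n) : Fam n := M ∪ (boundary M).image fun R => insert v R

/-- The boundary of the simplex `D`, given by its facets. -/
def bdry (D : Finset (Fin n)) : Fam n := D.image fun v => D.erase v

/-- A bistellar move (Pachner move) from `K` to `K'`: inside the simplex `A ∪ B` the star
`B * ∂A` of the face `B` is replaced by `A * ∂B`. -/
def Flip (K K' : Fam n) : Prop :=
  ∃ A B : Finset (Fin n), A.Nonempty ∧ B.Nonempty ∧ Disjoint A B ∧
    (K.filter fun F => B ⊆ F) = A.image (fun v => (A ∪ B).erase v) ∧
    (K'.filter fun F => A ⊆ F) = B.image (fun v => (A ∪ B).erase v) ∧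
    (K.filter fun F => ¬ B ⊆ F) = (K'.filter fun F => ¬ A ⊆ F)

/-- `K` is a PL sphere of dimension `d`: it can be turned into the boundary of a
`(d+1)`-dimensional simplex by finitely many bistellar moves. -/
def IsPLSphere (d : ℕ) (K : Fam n) : Prop :=
  ∃ D : Finset (Fin n), D.card = d + 2 ∧ Relation.ReflTransGen Flip K (bdry D)

/-- `M` is (the set of facets of) a triangulated PL manifold of dimension `m`, possibly with
boundary: all facets are `m`-dimensional and the link of every vertex `v` is a PL sphere or a PL
ball, which means that coning off its boundary (if there is any) gives a PL sphere. -/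
def IsManifold (m : ℕ) (M : Fam n) : Prop :=
  (∀ F ∈ M, F.card = m + 1) ∧
    ∀ v, (∃ F ∈ M, v ∈ F) → IsPLSphere (m - 1) (coneOff v (link M v))

/-- A family of cells (simplices ordered by inclusion) is connected. -/
def IsConn (S : Fam n) : Prop :=
  S.Nonempty ∧ ∀ s ∈ S, ∀ t ∈ S,
    Relation.ReflTransGen (fun a b => a ∈ S ∧ b ∈ S ∧ (a ⊆ b ∨ b ⊆ a)) s t

/-- `M` is orientable: there are signs of the facets (each facet being ordered increasingly) for
which the boundary of the sum of the facets is supported on the boundary of `M`. -/
def IsOrientable (M : Fam n) : Prop :=
  ∃ ε : Finset (Fin n) → ℤ, (∀ F ∈ M, ε F = 1 ∨ ε F = -1) ∧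
    ∀ R, R ∉ boundary M →
      ∑ v ∈ up M R, (-1 : ℤ) ^ (R.filter (fun u => u < v)).card * ε (insert v R) = 0

/-! ### Handlebodies and surfaces -/

/-- Elementary collapse: the simplex `t` is contained in exactly one other simplex `insert v t`,
and these two simplices are removed. -/
def CollapseStep (S S' : Fam n) : Prop :=
  ∃ (t : Finset (Fin n)) (v : Fin n), v ∉ t ∧ t ∈ S ∧ insert v t ∈ S ∧
    (∀ r ∈ S, t ⊆ r → r = t ∨ r = insert v t) ∧ S' = (S.erase t).erase (insert v t)

/-- The family `S` consists of vertices and edges and is a connected graph with first Betti
number `r`. -/
def IsGraph (r : ℕ) (S : Fam n) : Prop :=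
  (∀ s ∈ S, s.card = 1 ∨ s.card = 2) ∧ IsConn S ∧
    (S.filter fun s => s.card = 2).card + 1 = (S.filter fun s => s.card = 1).card + r

/-- `M` is an orientable `m`-dimensional PL handlebody of genus `r`: an orientable PL manifold of
dimension `m` that collapses onto a connected graph with first Betti number `r`. -/
def IsHandlebody (m r : ℕ) (M : Fam n) : Prop :=
  IsManifold m M ∧ IsOrientable M ∧
    ∃ G : Fam n, Relation.ReflTransGen CollapseStep (faces M) G ∧ IsGraph r G

/-- `M` is a closed connected orientable surface of genus `g`. -/
def IsSurface (g : ℕ) (M : Fam n) : Prop :=
  IsManifold 2 M ∧ boundary M = ∅ ∧ IsOrientable M ∧ IsConn (faces M) ∧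
    ∑ s ∈ faces M, (-1 : ℤ) ^ (s.card + 1) = 2 - 2 * g

/-! ### Trisections -/

/-- The union of the facets in `M`, as a subset of `Body K`. -/
def carrier (K M : Fam n) : Set (Body K) := {x | x.1 ∈ realize (faces M)}

/-- The facets of colour `i`. -/
def part (K : Fam n) (c : Finset (Fin n) → Fin 3) (i : Fin 3) : Fam n :=
  K.filter fun F => c F = i

/-- The union of the facets of colour `i`. -/
def sector (K : Fam n) (c : Finset (Fin n) → Fin 3) (i : Fin 3) : Set (Body K) :=
  carrier K (part K c i)

/-- The central surface: the intersection of the three sectors. -/
def core (K : Fam n) (c : Finset (Fin n) → Fin 3) : Set (Body K) := ⋂ i, sector K c i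

/-- The colouring `c` defines a `(g;k,k,k)`-trisection of the triangulated manifold `K`: the
sectors are `4`-dimensional handlebodies of genus `k`; any two of them meet in the intersection of
their boundaries, which is a `3`-dimensional handlebody of genus `g`; and all three of them meet in
a closed connected orientable surface of genus `g`. -/
structure IsTrisection (K : Fam n) (c : Finset (Fin n) → Fin 3) (g k : ℕ) : Prop where
  cover : ⋃ i, sector K c i = Set.univ
  sectors : ∀ i, IsHandlebody 4 k (part K c i)
  walls : ∀ i j, i ≠ j → ∃ H : Fam n, IsHandlebody 3 g H ∧
    sector K c i ∩ sector K c j = carrier K H ∧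
    carrier K (boundary (part K c i)) ∩ carrier K (boundary (part K c j)) = carrier K H
  surface : ∃ S : Fam n, IsSurface g S ∧ core K c = carrier K S

end Pool.Agent.TH640B
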