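/-!
# Checkers

The functions that are evaluated by the kernel; this file uses the core library only.
-/

namespace Pool.Agent.TH640B

/-- conjunction -/
noncomputable def andB (a b : Bool) : Bool := Bool.rec false b a

/-- disjunction -/
noncomputable def orB (a b : Bool) : Bool := Bool.rec b true a

/-- negation -/
noncomputable def notB (a : Bool) : Bool := Bool.rec true false a

/-- all elements satisfy `p` -/
noncomputable def allL {α : Type} (p : α → Bool) (l : List α) : Bool :=
  List.rec true (fun y _ ih => Bool.rec false ih (p y)) l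

/-- some element satisfies `p` -/
noncomputable def anyL {α : Type} (p : α → Bool) (l : List α) : Bool :=
  List.rec false (fun y _ ih => Bool.rec ih true (p y)) l

/-- the elements satisfying `p` -/
noncomputable def filL {α : Type} (p : α → Bool) (l : List α) : List α :=
  List.rec [] (fun y _ ih => Bool.rec ih (y :: ih) (p y)) l

/-- image of a list -/
noncomputable def mapL {α β : Type} (f : α → β) (l : List α) : List β :=
  List.rec [] (fun y _ ih => f y :: ih) l

/-- length -/
noncomputable def lenL {α : Type} (l : List α) : Nat := List.rec 0 (fun _ _ ih => Nat.succ ih) l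

/-- bit `k` of `m` -/
noncomputable def tb (m k : Nat) : Bool := notB (Nat.beq (Nat.land m (Nat.pow 2 k)) 0)

/-- number of bits of `m` below `n` -/
noncomputable def pc (n m : Nat) : Nat := Nat.rec 0 (fun k ih => Bool.rec ih (Nat.succ ih) (tb m k)) n

/-- `b ⊆ m` -/
noncomputable def subB (b m : Nat) : Bool := Nat.beq (Nat.land b m) b

/-- mask of a list of vertices -/
noncomputable def msk (l : List Nat) : Nat := List.rec 0 (fun v _ ih => Nat.lor (Nat.pow 2 v) ih) l

/-- search trees with keys in `Nat` -/
inductive BT (α : Type) : Type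
  | lf : BT α
  | nd : BT α → Nat → α → BT α → BT α

/-- value attached to the key `x`, default `d` -/
noncomputable def btGet {α β : Type} (d : β) (f : α → β) (x : Nat) (t : BT α) : β :=
  BT.rec d (fun _ k w _ ihl ihr =>
    Bool.rec (Bool.rec ihr ihl (Nat.blt x k)) (f w) (Nat.beq x k)) t

/-- is the key `x` present? -/
noncomputable def btMem {α : Type} (x : Nat) (t : BT α) : Bool := btGet false (fun _ => true) x t

/-- all entries satisfy `p` -/
noncomputable def btAll {α : Type} (p : Nat → α → Bool) (t : BT α) : Bool :=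
  BT.rec true (fun _ k w _ ihl ihr => Bool.rec false (Bool.rec false ihr ihl) (p k w)) t

/-- the list of keys, with accumulator -/
noncomputable def btAcc {α : Type} (t : BT α) (acc : List Nat) : List Nat :=
  BT.rec (fun acc => acc) (fun _ k _ _ ihl ihr acc => ihl (k :: ihr acc)) t acc

/-- the list of keys -/
noncomputable def btKeys {α : Type} (t : BT α) : List Nat := btAcc t []

/-- the field number `p` of `s` -/
noncomputable def fld (w p s : Nat) : Nat := Nat.mod (Nat.shiftRight s (Nat.mul w p)) (Nat.pow 2 w)

/-- the number with `m` fields equal to `1`, for `w > 0` -/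
noncomputable def ones (w m : Nat) : Nat := Nat.div (Nat.sub (Nat.pow 2 (Nat.mul w m)) 1) (Nat.sub (Nat.pow 2 w) 1)

/-- marks (top bit of the field) of the fields not containing `b` -/
noncomputable def nmark (w R b s : Nat) : Nat :=
  Nat.land (Nat.add (Nat.xor (Nat.land s (Nat.mul R b)) (Nat.mul R b))
    (Nat.mul R (Nat.sub (Nat.pow 2 (Nat.sub w 1)) 1))) (Nat.mul R (Nat.pow 2 (Nat.sub w 1)))

/-- `x` placed in the field `q` -/
noncomputable def put (w q x : Nat) : Nat := Nat.shiftLeft x (Nat.mul w q)

/-- union of `put w p (x v)` over the list of pairs `(v, p)` -/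
noncomputable def puts (w : Nat) (x : Nat → Nat) (A : List (Nat × Nat)) : Nat :=
  List.rec 0 (fun q _ ih => Nat.lor (put w q.2 (x q.1)) ih) A

/-- the state after removing the star: the fields in `A` are cleared -/
noncomputable def clr (w s : Nat) (A : List (Nat × Nat)) : Nat :=
  Nat.xor s (Nat.land s (puts w (fun _ => Nat.sub (Nat.pow 2 w) 1) A))

/-- mask of the vertices in the first components -/
noncomputable def mskA (A : List (Nat × Nat)) : Nat := List.rec 0 (fun q _ ih => Nat.lor (Nat.pow 2 q.1) ih) A

/-- next state -/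
noncomputable def nextS (w : Nat) (A B : List (Nat × Nat)) (s : Nat) : Nat :=
  Nat.lor (clr w s A) (puts w (fun v => Nat.xor (Nat.lor (mskA A) (mskA B)) (Nat.pow 2 v)) B)

/-- validity of the bistellar move -/
noncomputable def okS (n w m R : Nat) (A B : List (Nat × Nat)) (s : Nat) : Bool :=
  andB (allL (fun q => andB (Nat.blt q.1 n) (andB (Nat.blt q.2 m)
    (Nat.beq (fld w q.2 s) (Nat.xor (Nat.lor (mskA A) (mskA B)) (Nat.pow 2 q.1))))) A) <|
  andB (allL (fun q => andB (Nat.blt q.1 n) (andB (Nat.blt q.2 m) (andB
    (Nat.beq (fld w q.2 (clr w s A)) 0)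
    (Nat.beq (fld w q.2 (nextS w A B s))
      (Nat.xor (Nat.lor (mskA A) (mskA B)) (Nat.pow 2 q.1)))))) B) <|
  andB (notB (Nat.beq (mskA A) 0)) <|
  andB (notB (Nat.beq (mskA B) 0)) <|
  andB (Nat.beq (Nat.land (mskA A) (mskA B)) 0) <|
  andB (Nat.beq (Nat.xor (nmark w R (mskA B) s) (Nat.mul R (Nat.pow 2 (Nat.sub w 1))))
    (puts w (fun _ => Nat.pow 2 (Nat.sub w 1)) A)) <|
  Nat.beq (nmark w R (mskA A) (clr w s A)) (Nat.mul R (Nat.pow 2 (Nat.sub w 1)))

/-- the keys are increasing and strictly between `lo` and `hi` -/
noncomputable def bst {α : Type} (t : BT α) : Nat → Nat → Bool :=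
  BT.rec (fun _ _ => true) (fun _ k _ _ ihl ihr lo hi =>
    Bool.rec false (Bool.rec false (Bool.rec false (ihr k hi) (ihl lo k)) (Nat.blt k hi))
      (Nat.blt lo k)) t

/-- the list of the keys of the entries satisfying `p`, with accumulator -/
noncomputable def btFilA {α : Type} (p : Nat → α → Bool) (t : BT α) (acc : List Nat) : List Nat :=
  BT.rec (fun acc => acc) (fun _ k w _ ihl ihr acc =>
    ihl (Bool.rec (ihr acc) (k :: ihr acc) (p k w))) t acc

/-- the list of the keys of the entries satisfying `p` -/
noncomputable def btFil {α : Type} (p : Nat → α → Bool) (t : BT α) : List Nat := btFilA p t []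

/-- all bits of `k` satisfy `p`; `f` is an upper bound for the number of bits -/
noncomputable def bitAll (p : Nat → Bool) (f : Nat) : Nat → Bool :=
  Nat.rec (fun k => Nat.beq k 0) (fun _ ih k => Bool.rec
    (Bool.rec false (ih (Nat.xor k (Nat.pow 2 (Nat.log2 k)))) (p (Nat.log2 k)))
    true (Nat.beq k 0)) f

/-- `k` has exactly `c` bits, and `chk j v` holds for each bit `v`, where `j` is the number of
smaller bits -/
noncomputable def loopB (chk : Nat → Nat → Bool) (c : Nat) : Nat → Bool :=
  Nat.rec (fun k => Nat.beq k 0) (fun j ih k => Bool.rec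
    (Bool.rec false (ih (Nat.xor k (Nat.pow 2 (Nat.log2 k)))) (chk j (Nat.log2 k)))
    false (Nat.beq k 0)) c

/-- data of a ridge: the two vertices `a`, `b` that can be added, a parity, and the entries of the
two facets -/
abbrev RD := Nat × Nat × Nat × Nat × Nat

/-- check of the facet tree `fT` and of the ridge tree `rT`: a ridge with entry
`(a, b, e, wa, wb)` is contained in the facets obtained by adding `a` and `b` only -/
noncomputable def upOK (n c : Nat) (fT : BT Nat) (rT : BT RD) : Bool :=
  andB (bst fT 0 (Nat.pow 2 n)) <| andB (bst rT 0 (Nat.pow 2 n)) <|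
  andB (btAll (fun F w => loopB (fun j v => btGet false (fun p => Bool.rec
    (Bool.rec false (andB (Nat.beq w p.2.2.2.2)
      (Nat.beq (Nat.mod (Nat.add (Nat.add j w) p.2.2.1) 2) 1)) (Nat.beq v p.2.1))
    (andB (Nat.beq w p.2.2.2.1) (Nat.beq (Nat.mod (Nat.add (Nat.add j w) p.2.2.1) 2) 0))
      (Nat.beq v p.1)) (Nat.xor F (Nat.pow 2 v)) rT) c F) fT) <|
  btAll (fun r p => andB (Nat.blt p.1 n) <| andB (Nat.blt p.2.1 n) <| andB (notB (tb r p.1)) <|
    andB (notB (tb r p.2.1)) <| andB (btMem (Nat.lor r (Nat.pow 2 p.1)) fT)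
      (btMem (Nat.lor r (Nat.pow 2 p.2.1)) fT)) rT

/-- no boundary -/
noncomputable def closedOK (rT : BT RD) : Bool :=
  btAll (fun _ p => notB (Nat.beq p.1 p.2.1)) rT

/-- the numbers of the list in fields of `w` bits, followed by the fields of `acc` -/
noncomputable def packA (w acc : Nat) (l : List Nat) : Nat :=
  List.rec acc (fun x _ ih => Nat.add x (Nat.mul ih (Nat.pow 2 w))) l

/-- the final state is the boundary of the simplex with the vertices listed in `D` -/
noncomputable def finS (n w m c : Nat) (D : List (Nat × Nat)) (s : Nat) : Bool :=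
  andB (allL (fun q => andB (Nat.blt q.1 n) (andB (Nat.blt q.2 m)
    (Nat.beq (fld w q.2 s) (Nat.xor (mskA D) (Nat.pow 2 q.1))))) D) <|
  andB (Nat.beq (pc n (mskA D)) c) (Nat.beq (clr w s D) 0)

/-- a sequence of bistellar moves to the boundary of a simplex -/
noncomputable def runS (n w m c R : Nat) (D : List (Nat × Nat)) (mv : List (List (Nat × Nat) × List (Nat × Nat))) :
    Nat → Bool :=
  List.rec (finS n w m c D)
    (fun q _ ih s => Bool.rec false (ih (nextS w q.1 q.2 s)) (okS n w m R q.1 q.2 s)) mv

/-- the number `c` in the fields listed in `P` -/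
noncomputable def putsC (w c : Nat) (P : List Nat) : Nat := List.rec 0 (fun p _ ih => Nat.lor (put w p c) ih) P

/-- the fields of `s` containing `b` are those listed in `P` -/
noncomputable def selOK (w m b s : Nat) (P : List Nat) : Bool :=
  andB (allL (fun p => Nat.blt p m) P) <|
  Nat.beq (Nat.xor (nmark w (ones w m) b s) (Nat.mul (ones w m) (Nat.pow 2 (Nat.sub w 1))))
    (putsC w (Nat.pow 2 (Nat.sub w 1)) P)

/-- the list of boundary ridges -/
noncomputable def bdK (rT : BT RD) : List Nat := btFil (fun _ p => Nat.beq p.1 p.2.1) rT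

/-- certificate for one link: vertex, number of fields, selected facets, selected boundary ridges,
final simplex, moves -/
abbrev LC := Nat × Nat × List Nat × List Nat × List (Nat × Nat) × List (List (Nat × Nat) × List (Nat × Nat))

/-- the packed list of the facets of the link with its boundary coned off -/
noncomputable def lkP (w : Nat) (NF NB : Nat) (q : LC) : Nat :=
  packA w (packA w 0 (mapL (fun p => fld w p NB) q.2.2.2.1))
    (mapL (fun p => Nat.xor (fld w p NF) (Nat.pow 2 q.1)) q.2.2.1)

/-- check of the link of a vertex; `NF` and `NB` are the packed lists of facets and of boundary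
ridges, of length at most `mF` and `mB` -/
noncomputable def lkS (n w c NF mF NB mB : Nat) (q : LC) : Bool :=
  andB (selOK w mF (Nat.pow 2 q.1) NF q.2.2.1) <|
  andB (selOK w mB (Nat.pow 2 q.1) NB q.2.2.2.1) <|
  andB (Nat.blt (lkP w NF NB q) (Nat.pow 2 (Nat.mul w q.2.1))) <|
    runS n w q.2.1 c (ones w q.2.1) q.2.2.2.2.1 q.2.2.2.2.2 (lkP w NF NB q)

/-- check of a list of links -/
noncomputable def lksOK (n w c : Nat) (fT : BT Nat) (mF : Nat) (rT : BT RD) (mB : Nat) (l : List LC) :
    Bool :=
  andB (Nat.blt (packA w 0 (btKeys fT)) (Nat.pow 2 (Nat.mul w mF))) <|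
  andB (Nat.blt (packA w 0 (bdK rT)) (Nat.pow 2 (Nat.mul w mB))) <|
  allL (lkS n w c (packA w 0 (btKeys fT)) mF (packA w 0 (bdK rT)) mB) l

/-- all facets have their vertices in the mask -/
noncomputable def inMask (V : Nat) (fT : BT Nat) : Bool := btAll (fun F _ => subB F V) fT

/-- check of the tree `gT` of all faces; the entry of a face is its position in the collapse order
and a vertex that can be added (or `n` for a facet) -/
noncomputable def facesOK (n : Nat) (fT : BT Nat) (gT : BT (Nat × Nat)) : Bool :=
  andB (bst gT 0 (Nat.pow 2 n)) <|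
  andB (btAll (fun F _ => btMem F gT) fT) <|
  btAll (fun k p => andB
    (Bool.rec (andB (Nat.blt p.2 n) (andB (notB (tb k p.2)) (btMem (Nat.lor k (Nat.pow 2 p.2)) gT)))
      (btMem k fT) (Nat.beq p.2 n))
    (bitAll (fun v => orB (Nat.beq (Nat.xor k (Nat.pow 2 v)) 0)
      (btGet false (fun q => Nat.blt p.1 q.1) (Nat.xor k (Nat.pow 2 v)) gT)) 5 k)) gT

/-- every entry `(m, p)` of `O` has its parent `p` among the previous entries, and `m`, `p` are
comparable -/
noncomputable def connOK (O : List (Nat × Nat)) : List Nat → Bool :=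
  List.rec (fun _ => true) (fun q _ ih acc =>
    andB (anyL (fun a => Nat.beq q.2 a) acc) <|
    andB (orB (subB q.1 q.2) (subB q.2 q.1)) (ih (q.1 :: acc))) O

/-- no repetition -/
noncomputable def nodupOK (l : List Nat) : Bool :=
  List.rec true (fun x l ih => andB (notB (anyL (fun y => Nat.beq x y) l)) ih) l

/-- `G` has the same elements as the list `root, O…`, and is a connected graph of rank `r` -/
noncomputable def graphOK (n r root : Nat) (O : List (Nat × Nat)) (G : List Nat) : Bool :=
  andB (allL (fun g => anyL (fun h => Nat.beq g h) (root :: mapL Prod.fst O)) G) <|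
  andB (allL (fun g => anyL (fun h => Nat.beq g h) G) (root :: mapL Prod.fst O)) <|
  andB (nodupOK G) <|
  andB (connOK O [root]) <|
  andB (allL (fun m => orB (Nat.beq (pc n m) 1) (Nat.beq (pc n m) 2)) G) <|
  Nat.beq (Nat.succ (lenL (filL (fun m => Nat.beq (pc n m) 2) G)))
    (Nat.add (lenL (filL (fun m => Nat.beq (pc n m) 1) G)) r)

/-- each new vertex is joined by an edge to a previous one -/
noncomputable def vconnOK (fT : BT Nat) (l : List Nat) (O : List (Nat × Nat)) : List Nat → Bool :=
  List.rec (fun acc => btAll (fun F _ => subB F (msk acc)) fT) (fun q _ ih acc =>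
    andB (anyL (fun a => Nat.beq q.2 a) acc) <|
    andB (anyL (fun F => andB (tb F q.1) (tb F q.2)) l) (ih (q.1 :: acc))) O

/-- full connectivity check -/
noncomputable def kconnOK (n root : Nat) (fT : BT Nat) (O : List (Nat × Nat)) : Bool :=
  andB (Nat.blt root n) <| andB (allL (fun q => Nat.blt q.1 n) O) <|
    andB (anyL (fun F => tb F root) (btKeys fT)) (vconnOK fT (btKeys fT) O [root])

/-- `m` has exactly `c` bits -/
noncomputable def cardB (c m : Nat) : Bool := loopB (fun _ _ => true) c m

/-- Euler characteristic of a 2-dimensional complex -/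
noncomputable def eulerOK (g : Nat) (gT : BT (Nat × Nat)) : Bool :=
  andB (allL (fun m => orB (cardB 1 m) (orB (cardB 2 m) (cardB 3 m))) (btKeys gT)) <|
  Nat.beq (Nat.add (Nat.add (lenL (filL (cardB 1) (btKeys gT)))
    (lenL (filL (cardB 3) (btKeys gT)))) (Nat.mul 2 g))
    (Nat.add 2 (lenL (filL (cardB 2) (btKeys gT))))

/-- next state: the generator `F` in the field `p` is removed and the sets `F ∖ x` are put into
the fields given in `N` -/
noncomputable def nextC (w p : Nat) (N : List (Nat × Nat)) (s : Nat) : Nat :=
  Nat.lor (clr w s ((0, p) :: [])) (puts w (fun x => Nat.xor (fld w p s) (Nat.pow 2 x)) N)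

/-- check of the collapse of the open star of the set of all first components of `N` and `C`,
which is contained in the generator `p` only -/
noncomputable def okC (n w m R p : Nat) (N C : List (Nat × Nat)) (s : Nat) : Bool :=
  andB (Nat.blt p m) <|
  andB (Nat.blt (fld w p s) (Nat.pow 2 n)) <|
  andB (subB (Nat.lor (mskA N) (mskA C)) (fld w p s)) <|
  andB (notB (Nat.beq (Nat.lor (mskA N) (mskA C)) (fld w p s))) <|
  andB (notB (Nat.beq (Nat.lor (mskA N) (mskA C)) 0)) <|
  andB (Nat.beq (Nat.xor (nmark w R (Nat.lor (mskA N) (mskA C)) s)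
    (Nat.mul R (Nat.pow 2 (Nat.sub w 1)))) (put w p (Nat.pow 2 (Nat.sub w 1)))) <|
  andB (allL (fun q => andB (Nat.blt q.2 m) (andB
    (Nat.beq (fld w q.2 (clr w s ((0, p) :: []))) 0)
    (Nat.beq (fld w q.2 (nextC w p N s)) (Nat.xor (fld w p s) (Nat.pow 2 q.1))))) N) <|
  allL (fun q => andB (Nat.blt q.2 m)
    (subB (Nat.xor (fld w p s) (Nat.pow 2 q.1)) (fld w q.2 (nextC w p N s)))) C

/-- the nonzero fields are those listed in `E` (mask and position) -/
noncomputable def finC (w m : Nat) (E : List (Nat × Nat)) (s : Nat) : Bool :=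
  andB (allL (fun e => andB (Nat.blt e.2 m) (andB (notB (Nat.beq e.1 0))
    (Nat.beq (fld w e.2 s) e.1))) E) (Nat.beq (clr w s E) 0)

/-- a collapse: position of the generator, new generators, other maximal faces that are covered -/
abbrev CS := Nat × List (Nat × Nat) × List (Nat × Nat)

/-- a sequence of collapses -/
noncomputable def runC (n w m R : Nat) (E : List (Nat × Nat)) (l : List CS) : Nat → Bool :=
  List.rec (finC w m E)
    (fun q _ ih s => Bool.rec false (ih (nextC w q.1 q.2.1 s)) (okC n w m R q.1 q.2.1 q.2.2 s)) l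

/-- the collapse of a complex given by a tree of facets -/
noncomputable def collOK (n w m : Nat) (fT : BT Nat) (E : List (Nat × Nat)) (l : List CS) : Bool :=
  andB (Nat.blt (packA w 0 (btKeys fT)) (Nat.pow 2 (Nat.mul w m)))
    (runC n w m (ones w m) E l (packA w 0 (btKeys fT)))

/-- `G` is the list of all vertices and edges of the graph with edges `E` -/
noncomputable def grOK (E G : List Nat) : Bool :=
  andB (allL (fun e => andB (cardB 2 e) (andB (anyL (fun g => Nat.beq e g) G)
    (bitAll (fun v => anyL (fun g => Nat.beq (Nat.pow 2 v) g) G) 2 e))) E)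
    (allL (fun g => andB (notB (Nat.beq g 0)) (anyL (fun e => subB g e) E)) G)

/-- all masks are smaller than `2 ^ n` -/
noncomputable def ltOK (n : Nat) (E : List Nat) : Bool := allL (fun e => Nat.blt e (Nat.pow 2 n)) E

/-- marks (top bit of the field) of the nonzero fields of `x` -/
noncomputable def nzm (w R x : Nat) : Nat :=
  Nat.land (Nat.add x (Nat.mul R (Nat.sub (Nat.pow 2 (Nat.sub w 1)) 1)))
    (Nat.mul R (Nat.pow 2 (Nat.sub w 1)))

/-- marks of the fields of `s` that meet `F` and meet all `F ∖ h`, for `h` in the fields of `sH`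
listed in `js` -/
noncomputable def accI (w R s sH F : Nat) (js : List Nat) : Nat :=
  List.rec (nzm w R (Nat.land s (Nat.mul R F))) (fun j _ ih => Nat.land ih
    (nzm w R (Nat.land s (Nat.mul R (Nat.xor F (Nat.land F (fld w j sH))))))) js

/-- check of all keys, each with its list -/
noncomputable def intL (chk : Nat → List Nat → Bool) (l : List (List Nat)) : List Nat → Bool :=
  List.rec (fun ks => List.rec true (fun _ _ _ => false) ks)
    (fun js _ ih ks => List.rec false (fun F ks' _ => Bool.rec false (ih ks') (chk F js)) ks) l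

/-- check that the intersection of a facet of `A` with a facet of `B` is contained in one of the
facets of `H` -/
noncomputable def interS (w mB : Nat) (fA fB fH : BT Nat) (l : List (List Nat)) : Bool :=
  andB (Nat.blt (packA w 0 (btKeys fB)) (Nat.pow 2 (Nat.mul w mB))) <|
  intL (fun F js => Nat.beq (accI w (ones w mB) (packA w 0 (btKeys fB))
    (packA w 0 (btKeys fH)) F js) 0) l (btKeys fA)

/-- concatenation -/
noncomputable def appL {α : Type} (l l' : List α) : List α := List.rec l' (fun y _ ih => y :: ih) l

/-- concatenation of a list of lists -/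
noncomputable def joinL {α : Type} (l : List (List α)) : List α :=
  List.rec [] (fun y _ ih => appL y ih) l

/-- all vertices of the complex occur in the lists of certificates for links -/
noncomputable def vmOK (l : List (List LC)) (fT : BT Nat) : Bool :=
  inMask (msk (mapL Prod.fst (joinL l))) fT

/-- the cells of a triangle -/
noncomputable def triL (a b c : Nat) : List Nat :=
  Nat.lor (Nat.pow 2 a) (Nat.pow 2 b) :: Nat.lor (Nat.pow 2 b) (Nat.pow 2 c) ::
    Nat.lor (Nat.pow 2 c) (Nat.pow 2 a) :: Nat.pow 2 a :: Nat.pow 2 b :: Nat.pow 2 c :: []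

/-- three different vertices smaller than `n` -/
noncomputable def triOK (n a b c : Nat) : Bool :=
  andB (Nat.blt a n) <| andB (Nat.blt b n) <| andB (Nat.blt c n) <|
  andB (notB (Nat.beq a b)) <| andB (notB (Nat.beq b c)) (notB (Nat.beq c a))

/-- the holonomy of a triangle is `h` -/
noncomputable def holOK (tab : Nat → Nat → Nat) (a b c h : Nat) : Bool :=
  Nat.beq (Nat.mod (Nat.add (Nat.add (tab a b) (tab b c)) (tab c a)) 5) h

/-- equality of booleans -/
noncomputable def eqB (a b : Bool) : Bool := Bool.rec (notB b) b a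

/-- check that the keys of `pT` are the keys of `tT` of colour `i` -/
noncomputable def partOK (tT : BT Nat) (col : Nat → Nat) (i : Nat) (pT : BT Nat) : Bool :=
  andB (btAll (fun F w => andB (eqB (Nat.beq (col w) i) (btMem F pT)) (Nat.ble (col w) 2)) tT)
    (btAll (fun F _ => btMem F tT) pT)

/-- check that the keys are boundary ridges of both complexes -/
noncomputable def bdryOK (r1 r2 : BT RD) (fT : BT Nat) : Bool :=
  btAll (fun F _ => andB (btGet false (fun p => Nat.beq p.1 p.2.1) F r1)
    (btGet false (fun p => Nat.beq p.1 p.2.1) F r2)) fT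

/-- the facets that meet the mask `V` have the same colour in both colourings -/
noncomputable def nearOK (col1 col2 : Nat → Nat) (V : Nat) (fT : BT Nat) : Bool :=
  btAll (fun F w => orB (Nat.beq (Nat.land F V) 0) (Nat.beq (col1 w) (col2 w))) fT

/-- cocycle check on each facet -/
noncomputable def cocOK (tab : Nat → Nat → Nat) (fT : BT Nat) : Bool :=
  btAll (fun k _ => bitAll (fun u => bitAll (fun v =>
    Nat.beq (Nat.mod (Nat.add (tab (Nat.log2 k) u) (tab u v)) 5)
      (Nat.mod (tab (Nat.log2 k) v) 5)) 5 k) 5 k) fT

end Pool.Agent.TH640B
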