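import Mathlib
import Pool.Agent.TH640B.Base
import Pool.Agent.TH640B.Chk

/-!
# Certificate checkers on bit masks

Helper file.  A set of vertices is represented by a natural number (bit `i` is set iff the vertex
`i` is in the set), a family of sets by a list of natural numbers.  The functions below are written
with recursors so that the kernel evaluates them quickly; each comes with a soundness theorem.
-/

open Finset

namespace Pool.Agent.TH640B

/-! ### Booleans and lists -/

theorem andB_iff {a b : Bool} : andB a b = true ↔ a = true ∧ b = true := by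
  cases a <;> simp [andB]

theorem orB_iff {a b : Bool} : orB a b = true ↔ a = true ∨ b = true := by
  cases a <;> simp [orB]

theorem notB_iff {a : Bool} : notB a = true ↔ ¬ a = true := by
  cases a <;> simp [notB]

theorem allL_iff {α : Type} {p : α → Bool} {l : List α} :
    allL p l = true ↔ ∀ x ∈ l, p x = true := by
  induction l with
  | nil => simp [allL]
  | cons y l ih =>
    have h : allL p (y :: l) = Bool.rec false (allL p l) (p y) := rfl
    rw [h]
    cases hp : p y with
    | false => simp [hp]
    | true => simp [hp, ih]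

theorem anyL_iff {α : Type} {p : α → Bool} {l : List α} :
    anyL p l = true ↔ ∃ x ∈ l, p x = true := by
  induction l with
  | nil => simp [anyL]
  | cons y l ih =>
    have h : anyL p (y :: l) = Bool.rec (anyL p l) true (p y) := rfl
    rw [h]
    cases hp : p y with
    | false => simp [hp, ih]
    | true => simp [hp]

theorem mem_filL {α : Type} {p : α → Bool} {l : List α} {x : α} :
    x ∈ filL p l ↔ x ∈ l ∧ p x = true := by
  induction l with
  | nil => simp [filL]
  | cons y l ih =>
    have h : filL p (y :: l) = Bool.rec (filL p l) (y :: filL p l) (p y) := rfl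
    rw [h]
    cases hp : p y with
    | false =>
      simp only [ih, List.mem_cons]
      constructor
      · rintro ⟨h1, h2⟩; exact ⟨Or.inr h1, h2⟩
      · rintro ⟨h1 | h1, h2⟩
        · rw [h1, hp] at h2; simp at h2
        · exact ⟨h1, h2⟩
    | true =>
      simp only [ih, List.mem_cons]
      constructor
      · rintro (h1 | ⟨h1, h2⟩)
        · rw [h1]; exact ⟨Or.inl rfl, hp⟩
        · exact ⟨Or.inr h1, h2⟩
      · rintro ⟨h1 | h1, h2⟩
        · exact Or.inl h1
        · exact Or.inr ⟨h1, h2⟩

theorem filL_eq {α : Type} (p : α → Bool) (l : List α) : filL p l = l.filter p := by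
  induction l with
  | nil => rfl
  | cons y l ih =>
    have h : filL p (y :: l) = Bool.rec (filL p l) (y :: filL p l) (p y) := rfl
    rw [h]
    cases hp : p y with
    | false => simp [hp, ih]
    | true => simp [hp, ih]

theorem mapL_eq {α β : Type} (f : α → β) (l : List α) : mapL f l = l.map f := by
  induction l with
  | nil => rfl
  | cons y l ih =>
    have h : mapL f (y :: l) = f y :: mapL f l := rfl
    rw [h, ih]; rfl

theorem lenL_eq {α : Type} (l : List α) : lenL l = l.length := by
  induction l with
  | nil => rfl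
  | cons y l ih =>
    have h : lenL (y :: l) = Nat.succ (lenL l) := rfl
    rw [h, ih]; rfl

/-! ### Bits -/

theorem nbeq_iff {a b : ℕ} : Nat.beq a b = true ↔ a = b := by
  rw [Nat.beq_eq]

theorem nblt_iff {a b : ℕ} : Nat.blt a b = true ↔ a < b := by
  rw [Nat.blt_eq]

theorem tb_eq (m k : ℕ) : tb m k = m.testBit k := by
  have h1 : tb m k = true ↔ m.testBit k = true := by
    unfold tb
    rw [notB_iff, nbeq_iff]
    change ¬ (m &&& 2 ^ k = 0) ↔ _
    constructor
    · intro h
      by_contra hc
      apply h
      apply Nat.eq_of_testBit_eq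
      intro i
      rw [Nat.testBit_and, Nat.testBit_two_pow, Nat.zero_testBit]
      by_cases hi : k = i
      · subst hi
        simp only [Bool.not_eq_true] at hc
        simp [hc]
      · simp [hi]
    · intro h hz
      have h2 : (m &&& 2 ^ k).testBit k = false := by rw [hz]; exact Nat.zero_testBit k
      rw [Nat.testBit_and, Nat.testBit_two_pow, h] at h2
      simp at h2
  cases h2 : tb m k with
  | true => exact (h1.1 h2).symm
  | false =>
    cases h3 : m.testBit k with
    | false => rfl
    | true => rw [h1.2 h3] at h2; exact absurd h2 (by simp)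

theorem pc_succ (n m : ℕ) : pc (n + 1) m = pc n m + if m.testBit n then 1 else 0 := by
  have h : pc (n + 1) m = Bool.rec (pc n m) (Nat.succ (pc n m)) (tb m n) := rfl
  rw [h, tb_eq]
  cases m.testBit n <;> simp

theorem subB_iff {b m : ℕ} : subB b m = true ↔ ∀ i, b.testBit i = true → m.testBit i = true := by
  unfold subB
  rw [nbeq_iff]
  change b &&& m = b ↔ _
  constructor
  · intro h i hi
    rw [← h, Nat.testBit_and] at hi
    simp only [Bool.and_eq_true] at hi
    exact hi.2
  · intro h
    apply Nat.eq_of_testBit_eq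
    intro i
    rw [Nat.testBit_and]
    cases hb : b.testBit i with
    | false => simp
    | true => simp [h i hb]

theorem testBit_msk (l : List ℕ) (i : ℕ) : (msk l).testBit i = true ↔ i ∈ l := by
  induction l with
  | nil => simp [msk]
  | cons v l ih =>
    have h : msk (v :: l) = 2 ^ v ||| msk l := rfl
    rw [h, Nat.testBit_or, Nat.testBit_two_pow]
    simp only [Bool.or_eq_true, decide_eq_true_eq, List.mem_cons, ih]
    constructor
    · rintro (h | h)
      · exact Or.inl h.symm
      · exact Or.inr h
    · rintro (h | h)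
      · exact Or.inl h.symm
      · exact Or.inr h

variable {n : ℕ}

/-- the set with mask `m` -/
def fs (m : ℕ) : Finset (Fin n) := univ.filter fun i => m.testBit i = true

theorem mem_fs {m : ℕ} {i : Fin n} : i ∈ (fs m : Finset (Fin n)) ↔ m.testBit i = true := by
  simp [fs]

theorem card_fs (m : ℕ) : (fs m : Finset (Fin n)).card = pc n m := by
  unfold fs
  rw [Finset.card_filter]
  rw [← Finset.sum_range (fun i => if m.testBit i = true then 1 else 0)]
  induction n with
  | zero => simp [pc]
  | succ k ih => rw [Finset.sum_range_succ, ih, pc_succ]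

theorem card_fs_lt (m : ℕ) (v : Fin n) :
    ((fs m : Finset (Fin n)).filter fun u => u < v).card = pc v m := by
  have h1 : ((fs m : Finset (Fin n)).filter fun u => u < v) =
      univ.filter fun u : Fin n => (u : ℕ) < v ∧ m.testBit u = true := by
    ext u
    simp only [Finset.mem_filter, mem_fs, Finset.mem_univ, true_and, Fin.lt_def]
    exact and_comm
  rw [h1, Finset.card_filter,
    ← Finset.sum_range (fun i => if i < (v : ℕ) ∧ m.testBit i = true then 1 else 0)]
  have hv := v.2
  have h2 : ∀ k, ∑ i ∈ range k, (if i < (v : ℕ) ∧ m.testBit i = true then 1 else 0) =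
      pc (min k v) m := by
    intro k
    induction k with
    | zero => simp [pc]
    | succ k ih =>
      rw [Finset.sum_range_succ, ih]
      by_cases hk : k < v
      · rw [min_eq_left hk.le, min_eq_left (Nat.succ_le_of_lt hk), pc_succ]
        simp [hk]
      · rw [min_eq_right (by omega : (v : ℕ) ≤ k), min_eq_right (by omega : (v : ℕ) ≤ k + 1)]
        simp [hk]
  rw [h2, min_eq_right hv.le]

theorem fs_inj {m m' : ℕ} (h : m < 2 ^ n) (h' : m' < 2 ^ n)
    (he : (fs m : Finset (Fin n)) = fs m') : m = m' := by
  apply Nat.eq_of_testBit_eq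
  intro i
  by_cases hi : i < n
  · have h1 : (⟨i, hi⟩ : Fin n) ∈ (fs m : Finset (Fin n)) ↔ (⟨i, hi⟩ : Fin n) ∈
      (fs m' : Finset (Fin n)) := by rw [he]
    rw [mem_fs, mem_fs] at h1
    cases h2 : m.testBit i <;> cases h3 : m'.testBit i <;> simp_all
  · have hle : 2 ^ n ≤ 2 ^ i := Nat.pow_le_pow_right (by norm_num) (not_lt.1 hi)
    rw [Nat.testBit_lt_two_pow (lt_of_lt_of_le h hle),
      Nat.testBit_lt_two_pow (lt_of_lt_of_le h' hle)]

theorem lt_of_bits {m : ℕ} (h : ∀ i, m.testBit i = true → i < n) : m < 2 ^ n := by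
  apply Nat.lt_pow_two_of_testBit
  intro i hi
  by_contra hc
  simp only [Bool.not_eq_false] at hc
  exact absurd (h i hc) (not_lt.2 hi)

theorem exists_fs (s : Finset (Fin n)) : ∃ m, m < 2 ^ n ∧ (fs m : Finset (Fin n)) = s := by
  refine ⟨msk (s.toList.map Fin.val), ?_, ?_⟩
  · apply lt_of_bits
    intro i hi
    rw [testBit_msk] at hi
    obtain ⟨j, _, rfl⟩ := List.mem_map.1 hi
    exact j.2
  · ext i
    rw [mem_fs, testBit_msk, List.mem_map]
    constructor
    · rintro ⟨j, hj, hji⟩
      have : j = i := Fin.ext hji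
      rw [← this]; simpa using hj
    · intro hi
      exact ⟨i, by simpa using hi, rfl⟩

theorem fs_subset {b m : ℕ} (hb : b < 2 ^ n) :
    (fs b : Finset (Fin n)) ⊆ fs m ↔ subB b m = true := by
  rw [subB_iff]
  constructor
  · intro h i hi
    have hin : i < n := by
      by_contra hc
      have hle : 2 ^ n ≤ 2 ^ i := Nat.pow_le_pow_right (by norm_num) (not_lt.1 hc)
      rw [Nat.testBit_lt_two_pow (lt_of_lt_of_le hb hle)] at hi
      simp at hi
    exact mem_fs.1 (h (mem_fs.2 (show b.testBit (⟨i, hin⟩ : Fin n) = true from hi)))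
  · intro h i hi
    rw [mem_fs] at hi ⊢
    exact h _ hi

theorem fs_or (a b : ℕ) : (fs (Nat.lor a b) : Finset (Fin n)) = fs a ∪ fs b := by
  ext i
  rw [Finset.mem_union, mem_fs, mem_fs, mem_fs]
  change (a ||| b).testBit i = true ↔ _
  rw [Nat.testBit_or]
  simp

theorem fs_xor_erase {m : ℕ} {v : Fin n} (hv : m.testBit v = true) :
    (fs (Nat.xor m (Nat.pow 2 v)) : Finset (Fin n)) = (fs m).erase v := by
  ext i
  rw [Finset.mem_erase, mem_fs, mem_fs]
  change (m ^^^ 2 ^ (v : ℕ)).testBit i = true ↔ _
  rw [Nat.testBit_xor, Nat.testBit_two_pow]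
  by_cases h : v = i
  · subst h; simp [hv]
  · have h1 : ¬ (v : ℕ) = i := fun h2 => h (Fin.ext h2)
    simp [h1, Ne.symm h]

theorem fs_or_insert {m : ℕ} {v : Fin n} :
    (fs (Nat.lor m (Nat.pow 2 v)) : Finset (Fin n)) = insert v (fs m) := by
  ext i
  rw [Finset.mem_insert, mem_fs, mem_fs]
  change (m ||| 2 ^ (v : ℕ)).testBit i = true ↔ _
  rw [Nat.testBit_or, Nat.testBit_two_pow]
  by_cases h : v = i
  · subst h; simp
  · have h1 : ¬ (v : ℕ) = i := fun h2 => h (Fin.ext h2)
    simp [h1, Ne.symm h]

theorem lor_lt {m v : ℕ} (hm : m < 2 ^ n) (hv : v < n) : Nat.lor m (Nat.pow 2 v) < 2 ^ n := by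
  apply lt_of_bits
  intro i hi
  change (m ||| 2 ^ v).testBit i = true at hi
  rw [Nat.testBit_or, Nat.testBit_two_pow] at hi
  simp only [Bool.or_eq_true, decide_eq_true_eq] at hi
  rcases hi with h | h
  · by_contra hc
    have hle : 2 ^ n ≤ 2 ^ i := Nat.pow_le_pow_right (by norm_num) (not_lt.1 hc)
    rw [Nat.testBit_lt_two_pow (lt_of_lt_of_le hm hle)] at h
    simp at h
  · omega

theorem xor_lt {m v : ℕ} (hm : m < 2 ^ n) (hv : v < n) : Nat.xor m (Nat.pow 2 v) < 2 ^ n :=
  Nat.xor_lt_two_pow hm (Nat.pow_lt_pow_right (by norm_num) hv)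

/-- the family with list of masks `l` -/
def toFam (l : List ℕ) : Fam n := (l.map fs).toFinset

theorem mem_toFam {l : List ℕ} {s : Finset (Fin n)} :
    s ∈ (toFam l : Fam n) ↔ ∃ m ∈ l, fs m = s := by
  simp [toFam]

/-! ### Bistellar moves -/

/-! ### Search trees -/

theorem mem_btAcc {α : Type} (t : BT α) (acc : List ℕ) (x : ℕ) :
    x ∈ btAcc t acc ↔ x ∈ btKeys t ∨ x ∈ acc := by
  induction t generalizing acc with
  | lf => simp [btAcc, btKeys]
  | nd l k w r ihl ihr =>
    have h : ∀ acc, btAcc (BT.nd l k w r) acc = btAcc l (k :: btAcc r acc) := fun _ => rfl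
    have h' : btKeys (BT.nd l k w r) = btAcc l (k :: btAcc r []) := rfl
    rw [h, h', ihl, List.mem_cons, ihr, ihl (k :: btAcc r []), List.mem_cons, ihr []]
    simp only [List.not_mem_nil, or_false]
    tauto

theorem mem_btKeys_nd {α : Type} (l r : BT α) (k : ℕ) (w : α) (x : ℕ) :
    x ∈ btKeys (BT.nd l k w r) ↔ x ∈ btKeys l ∨ x = k ∨ x ∈ btKeys r := by
  have h' : btKeys (BT.nd l k w r) = btAcc l (k :: btAcc r []) := rfl
  rw [h', mem_btAcc, List.mem_cons, mem_btAcc]
  simp only [List.not_mem_nil, or_false]

theorem btMem_sound {α : Type} {x : ℕ} {t : BT α} (h : btMem x t = true) : x ∈ btKeys t := by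
  induction t with
  | lf => simp [btMem, btGet] at h
  | nd l k w r ihl ihr =>
    have he : btMem x (BT.nd l k w r) =
      Bool.rec (Bool.rec (btMem x r) (btMem x l) (Nat.blt x k)) true (Nat.beq x k) := rfl
    rw [he] at h
    rw [mem_btKeys_nd]
    cases h1 : Nat.beq x k with
    | true => right; left; exact nbeq_iff.1 h1
    | false =>
      rw [h1] at h
      cases h2 : Nat.blt x k with
      | true => rw [h2] at h; left; exact ihl h
      | false => rw [h2] at h; right; right; exact ihr h

theorem btAll_sound {α : Type} {p : ℕ → α → Bool} {t : BT α} (h : btAll p t = true) :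
    ∀ x ∈ btKeys t, ∃ w, p x w = true := by
  induction t with
  | lf => intro x hx; simp [btKeys, btAcc] at hx
  | nd l k w r ihl ihr =>
    have he : btAll p (BT.nd l k w r) =
      Bool.rec false (Bool.rec false (btAll p r) (btAll p l)) (p k w) := rfl
    rw [he] at h
    intro x hx
    rw [mem_btKeys_nd] at hx
    cases h1 : p k w with
    | false => rw [h1] at h; simp at h
    | true =>
      rw [h1] at h
      cases h2 : btAll p l with
      | false => rw [h2] at h; simp at h
      | true =>
        rw [h2] at h
        rcases hx with hx | hx | hx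
        · exact ihl h2 x hx
        · exact ⟨w, by rw [hx]; exact h1⟩
        · exact ihr h x hx

end Pool.Agent.TH640B
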