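import Mathlib
import Pool.Agent.TH640B.Base
import Pool.Agent.TH640B.Bits

/-!
# Search trees and families of sets

Helper file.
-/

open Finset

namespace Pool.Agent.TH640B

variable {n : ℕ}

theorem toFam_cons (m : ℕ) (l : List ℕ) :
    (toFam (m :: l) : Fam n) = insert (fs m) (toFam l) := by
  simp [toFam]

theorem card_toFam {l : List ℕ} (hl : ∀ m ∈ l, m < 2 ^ n) (hn : l.Nodup) :
    (toFam l : Fam n).card = l.length := by
  unfold toFam
  rw [List.toFinset_card_of_nodup]
  · simp
  · exact List.Nodup.map_on (fun x hx y hy h => fs_inj (hl x hx) (hl y hy) h) hn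

theorem card_toFam_le (l : List ℕ) : (toFam l : Fam n).card ≤ l.length := by
  unfold toFam
  exact (List.toFinset_card_le _).trans (by simp)

theorem impB {a b : Bool} (h : (Bool.rec true b a : Bool) = true) (ha : a = true) : b = true := by
  subst ha; exact h

/-! ### Entries of a tree -/

/-- `(x, y)` is an entry of the tree -/
def inT {α : Type} : BT α → ℕ → α → Prop
  | .lf, _, _ => False
  | .nd l k w r, x, y => inT l x y ∨ (x = k ∧ y = w) ∨ inT r x y

theorem bst_nd {α : Type} {l r : BT α} {k : ℕ} {w : α} {lo hi : ℕ}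
    (h : bst (BT.nd l k w r) lo hi = true) :
    lo < k ∧ k < hi ∧ bst l lo k = true ∧ bst r k hi = true := by
  have he : bst (BT.nd l k w r) lo hi = Bool.rec false (Bool.rec false
    (Bool.rec false (bst r k hi) (bst l lo k)) (Nat.blt k hi)) (Nat.blt lo k) := rfl
  rw [he] at h
  cases h1 : Nat.blt lo k with
  | false => rw [h1] at h; simp at h
  | true =>
    rw [h1] at h
    cases h2 : Nat.blt k hi with
    | false => rw [h2] at h; simp at h
    | true =>
      rw [h2] at h
      cases h3 : bst l lo k with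
      | false => rw [h3] at h; simp at h
      | true =>
        rw [h3] at h
        exact ⟨nblt_iff.1 h1, nblt_iff.1 h2, rfl, h⟩

theorem bst_get {α β : Type} {t : BT α} {lo hi : ℕ} (h : bst t lo hi = true) {x : ℕ} {y : α}
    (hx : inT t x y) : lo < x ∧ x < hi ∧ ∀ (d : β) (f : α → β), btGet d f x t = f y := by
  induction t generalizing lo hi with
  | lf => exact hx.elim
  | nd l k w r ihl ihr =>
    obtain ⟨h1, h2, h3, h4⟩ := bst_nd h
    have he : ∀ (d : β) (f : α → β), btGet d f x (BT.nd l k w r) =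
      Bool.rec (Bool.rec (btGet d f x r) (btGet d f x l) (Nat.blt x k)) (f w) (Nat.beq x k) :=
      fun _ _ => rfl
    rcases hx with hx | ⟨rfl, rfl⟩ | hx
    · obtain ⟨g1, g2, g3⟩ := ihl h3 hx
      refine ⟨g1, g2.trans h2, fun d f => ?_⟩
      have e1 : Nat.beq x k = false := by
        cases h : Nat.beq x k with
        | false => rfl
        | true => rw [nbeq_iff] at h; omega
      have e2 : Nat.blt x k = true := nblt_iff.2 g2
      rw [he, e1, e2]
      exact g3 d f
    · refine ⟨h1, h2, fun d f => ?_⟩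
      have e1 : Nat.beq x x = true := nbeq_iff.2 rfl
      rw [he, e1]
    · obtain ⟨g1, g2, g3⟩ := ihr h4 hx
      refine ⟨h1.trans g1, g2, fun d f => ?_⟩
      have e1 : Nat.beq x k = false := by
        cases h : Nat.beq x k with
        | false => rfl
        | true => rw [nbeq_iff] at h; omega
      have e2 : Nat.blt x k = false := by
        cases h : Nat.blt x k with
        | false => rfl
        | true => rw [nblt_iff] at h; omega
      rw [he, e1, e2]
      exact g3 d f

theorem inT_unique {α : Type} {t : BT α} {lo hi : ℕ} (h : bst t lo hi = true) {x : ℕ} {y z : α}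
    (hy : inT t x y) (hz : inT t x z) : y = z := by
  have h1 := (bst_get (β := Option α) h hy).2.2 none some
  have h2 := (bst_get (β := Option α) h hz).2.2 none some
  rw [h1] at h2
  exact Option.some.inj h2

theorem get_inT {α β : Type} (t : BT α) (x : ℕ) (d : β) (f : α → β) :
    (∃ y, inT t x y ∧ btGet d f x t = f y) ∨ btGet d f x t = d := by
  induction t with
  | lf => right; rfl
  | nd l k w r ihl ihr =>
    have he : btGet d f x (BT.nd l k w r) =
      Bool.rec (Bool.rec (btGet d f x r) (btGet d f x l) (Nat.blt x k)) (f w) (Nat.beq x k) := rfl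
    rw [he]
    cases h1 : Nat.beq x k with
    | true =>
      left
      exact ⟨w, Or.inr (Or.inl ⟨nbeq_iff.1 h1, rfl⟩), rfl⟩
    | false =>
      cases h2 : Nat.blt x k with
      | true =>
        rcases ihl with ⟨y, h3, h4⟩ | h3
        · left; exact ⟨y, Or.inl h3, h4⟩
        · right; exact h3
      | false =>
        rcases ihr with ⟨y, h3, h4⟩ | h3
        · left; exact ⟨y, Or.inr (Or.inr h3), h4⟩
        · right; exact h3

theorem get_true {α : Type} {t : BT α} {x : ℕ} {f : α → Bool} (h : btGet false f x t = true) :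
    ∃ y, inT t x y ∧ f y = true := by
  rcases get_inT t x false f with ⟨y, h1, h2⟩ | h1
  · exact ⟨y, h1, by rw [← h2]; exact h⟩
  · rw [h] at h1; simp at h1

theorem mem_inT {α : Type} {t : BT α} {x : ℕ} (h : btMem x t = true) : ∃ y, inT t x y := by
  obtain ⟨y, hy, _⟩ := get_true h
  exact ⟨y, hy⟩

theorem btMem_iff {α : Type} {t : BT α} {lo hi : ℕ} (hb : bst t lo hi = true) {x : ℕ} :
    btMem x t = true ↔ ∃ y, inT t x y := by
  constructor
  · exact mem_inT
  · rintro ⟨y, hy⟩
    exact (bst_get hb hy).2.2 false (fun _ => true)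

theorem mem_keys {α : Type} {t : BT α} {x : ℕ} : x ∈ btKeys t ↔ ∃ y, inT t x y := by
  induction t with
  | lf => simp [btKeys, btAcc, inT]
  | nd l k w r ihl ihr =>
    rw [mem_btKeys_nd, ihl, ihr]
    constructor
    · rintro (⟨y, h⟩ | h | ⟨y, h⟩)
      · exact ⟨y, Or.inl h⟩
      · exact ⟨w, Or.inr (Or.inl ⟨h, rfl⟩)⟩
      · exact ⟨y, Or.inr (Or.inr h)⟩
    · rintro ⟨y, h | h | h⟩
      · exact Or.inl ⟨y, h⟩
      · exact Or.inr (Or.inl h.1)
      · exact Or.inr (Or.inr ⟨y, h⟩)

theorem btAll_inT {α : Type} {p : ℕ → α → Bool} {t : BT α} (h : btAll p t = true) {x : ℕ} {y : α}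
    (hx : inT t x y) : p x y = true := by
  induction t with
  | lf => exact hx.elim
  | nd l k w r ihl ihr =>
    have he : btAll p (BT.nd l k w r) =
      Bool.rec false (Bool.rec false (btAll p r) (btAll p l)) (p k w) := rfl
    rw [he] at h
    cases h1 : p k w with
    | false => rw [h1] at h; simp at h
    | true =>
      rw [h1] at h
      cases h2 : btAll p l with
      | false => rw [h2] at h; simp at h
      | true =>
        rw [h2] at h
        rcases hx with hx | ⟨rfl, rfl⟩ | hx
        · exact ihl h2 hx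
        · exact h1
        · exact ihr h hx

theorem mem_btFilA {α : Type} {p : ℕ → α → Bool} {t : BT α} {acc : List ℕ} {x : ℕ} :
    x ∈ btFilA p t acc ↔ (∃ y, inT t x y ∧ p x y = true) ∨ x ∈ acc := by
  induction t generalizing acc with
  | lf => simp [btFilA, inT]
  | nd l k w r ihl ihr =>
    have he : btFilA p (BT.nd l k w r) acc =
      btFilA p l (Bool.rec (btFilA p r acc) (k :: btFilA p r acc) (p k w)) := rfl
    rw [he, ihl]
    constructor
    · rintro (⟨y, h1, h2⟩ | h1)
      · exact Or.inl ⟨y, Or.inl h1, h2⟩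
      · cases hp : p k w with
        | false =>
          rw [hp] at h1
          have h1' : x ∈ btFilA p r acc := h1
          rw [ihr] at h1'
          rcases h1' with ⟨y, h3, h4⟩ | h3
          · exact Or.inl ⟨y, Or.inr (Or.inr h3), h4⟩
          · exact Or.inr h3
        | true =>
          rw [hp] at h1
          have h1' : x ∈ k :: btFilA p r acc := h1
          rw [List.mem_cons, ihr] at h1'
          rcases h1' with h3 | ⟨y, h3, h4⟩ | h3
          · exact Or.inl ⟨w, Or.inr (Or.inl ⟨h3, rfl⟩), by rw [h3]; exact hp⟩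
          · exact Or.inl ⟨y, Or.inr (Or.inr h3), h4⟩
          · exact Or.inr h3
    · have hr : x ∈ btFilA p r acc →
          x ∈ (Bool.rec (btFilA p r acc) (k :: btFilA p r acc) (p k w) : List ℕ) := by
        intro h
        cases p k w with
        | false => exact h
        | true => exact List.mem_cons_of_mem _ h
      rintro (⟨y, h1 | ⟨rfl, rfl⟩ | h1, h2⟩ | h1)
      · exact Or.inl ⟨y, h1, h2⟩
      · right
        rw [h2]
        exact List.mem_cons_self
      · right
        exact hr (ihr.2 (Or.inl ⟨y, h1, h2⟩))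
      · right
        exact hr (ihr.2 (Or.inr h1))

theorem mem_btFil {α : Type} {p : ℕ → α → Bool} {t : BT α} {x : ℕ} :
    x ∈ btFil p t ↔ ∃ y, inT t x y ∧ p x y = true := by
  rw [btFil, mem_btFilA]
  simp

/-- the family of the keys -/
noncomputable def famT {α : Type} (t : BT α) : Fam n := toFam (btKeys t)

theorem mem_famT {α : Type} {t : BT α} {s : Finset (Fin n)} :
    s ∈ (famT t : Fam n) ↔ ∃ x y, inT t x y ∧ fs x = s := by
  rw [famT, mem_toFam]
  constructor
  · rintro ⟨m, hm, rfl⟩
    obtain ⟨y, hy⟩ := mem_keys.1 hm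
    exact ⟨m, y, hy, rfl⟩
  · rintro ⟨x, y, hy, rfl⟩
    exact ⟨x, mem_keys.2 ⟨y, hy⟩, rfl⟩

theorem fs_mem_famT {α : Type} {t : BT α} (hb : bst t 0 (2 ^ n) = true) {x : ℕ} (hx : x < 2 ^ n) :
    (fs x : Finset (Fin n)) ∈ (famT t : Fam n) ↔ ∃ y, inT t x y := by
  rw [mem_famT]
  constructor
  · rintro ⟨x', y, hy, h⟩
    have := fs_inj ((bst_get (β := Bool) hb hy).2.1) hx h
    rw [← this]
    exact ⟨y, hy⟩
  · rintro ⟨y, hy⟩
    exact ⟨x, y, hy, rfl⟩

theorem fs_nonempty {m : ℕ} (h0 : m ≠ 0) (hm : m < 2 ^ n) : (fs m : Finset (Fin n)).Nonempty := by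
  by_contra hc
  rw [Finset.not_nonempty_iff_eq_empty] at hc
  apply h0
  apply fs_inj hm (Nat.two_pow_pos n)
  rw [hc]
  ext i
  simp [mem_fs]

theorem fs_zero : (fs 0 : Finset (Fin n)) = ∅ := by
  ext i
  simp [mem_fs]

/-! ### Vertices of a mask -/

theorem bitAll_sound {p : ℕ → Bool} {f k : ℕ} (h : bitAll p f k = true) {v : ℕ}
    (hv : k.testBit v = true) : p v = true := by
  induction f generalizing k with
  | zero =>
    have h0 : Nat.beq k 0 = true := h
    rw [nbeq_iff] at h0
    rw [h0] at hv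
    simp at hv
  | succ f ih =>
    have he : bitAll p (f + 1) k = Bool.rec
      (Bool.rec false (bitAll p f (Nat.xor k (Nat.pow 2 (Nat.log2 k)))) (p (Nat.log2 k)))
      true (Nat.beq k 0) := rfl
    rw [he] at h
    cases h0 : Nat.beq k 0 with
    | true =>
      rw [nbeq_iff] at h0
      rw [h0] at hv
      simp at hv
    | false =>
      rw [h0] at h
      cases h1 : p (Nat.log2 k) with
      | false => rw [h1] at h; simp at h
      | true =>
        rw [h1] at h
        by_cases hvk : v = Nat.log2 k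
        · rw [hvk]; exact h1
        · refine ih (k := Nat.xor k (Nat.pow 2 (Nat.log2 k))) h ?_
          change (k ^^^ 2 ^ (Nat.log2 k)).testBit v = true
          rw [Nat.testBit_xor, Nat.testBit_two_pow, hv]
          simp [Ne.symm hvk]

theorem loopB_sound {chk : ℕ → ℕ → Bool} {c k : ℕ} (hk : k < 2 ^ n)
    (h : loopB chk c k = true) : (fs k : Finset (Fin n)).card = c ∧
      ∀ v : Fin n, v ∈ (fs k : Finset (Fin n)) →
        chk ((fs k : Finset (Fin n)).filter fun u => u < v).card v = true := by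
  induction c generalizing k with
  | zero =>
    have h0 : Nat.beq k 0 = true := h
    rw [nbeq_iff] at h0
    subst h0
    rw [fs_zero]
    simp
  | succ c ih =>
    have he : loopB chk (c + 1) k = Bool.rec
      (Bool.rec false (loopB chk c (Nat.xor k (Nat.pow 2 (Nat.log2 k)))) (chk c (Nat.log2 k)))
      false (Nat.beq k 0) := rfl
    rw [he] at h
    cases h0 : Nat.beq k 0 with
    | true => rw [h0] at h; simp at h
    | false =>
      rw [h0] at h
      have hk0 : k ≠ 0 := by
        intro hz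
        rw [nbeq_iff.2 hz] at h0
        simp at h0
      cases h1 : chk c (Nat.log2 k) with
      | false => rw [h1] at h; simp at h
      | true =>
        rw [h1] at h
        have ha : k.testBit (Nat.log2 k) = true := Nat.testBit_log2 hk0
        have han : Nat.log2 k < n := by
          by_contra hc
          have : k.testBit (Nat.log2 k) = false :=
            Nat.testBit_lt_two_pow (lt_of_lt_of_le hk (Nat.pow_le_pow_right (by norm_num)
              (not_lt.1 hc)))
          rw [this] at ha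
          simp at ha
        have hmax : ∀ i, k.testBit i = true → i ≤ Nat.log2 k := by
          intro i hi
          by_contra hc
          have : k.testBit i = false :=
            Nat.testBit_lt_two_pow (lt_of_lt_of_le Nat.lt_log2_self
              (Nat.pow_le_pow_right (by norm_num) (by omega)))
          rw [this] at hi
          simp at hi
        set a : Fin n := ⟨Nat.log2 k, han⟩ with hadef
        have hfs : (fs (Nat.xor k (Nat.pow 2 (Nat.log2 k))) : Finset (Fin n)) = (fs k).erase a :=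
          fs_xor_erase (v := a) ha
        have hmem : a ∈ (fs k : Finset (Fin n)) := mem_fs.2 ha
        obtain ⟨g1, g2⟩ := ih (xor_lt hk han) h
        rw [hfs] at g1 g2
        rw [Finset.card_erase_of_mem hmem] at g1
        have hpos : 0 < (fs k : Finset (Fin n)).card := Finset.card_pos.2 ⟨a, hmem⟩
        refine ⟨by omega, fun v hv => ?_⟩
        by_cases hva : v = a
        · subst hva
          have h5 : ((fs k : Finset (Fin n)).filter fun u => u < a) = (fs k).erase a := by
            ext u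
            rw [Finset.mem_filter, Finset.mem_erase]
            constructor
            · rintro ⟨h6, h7⟩; exact ⟨h7.ne, h6⟩
            · rintro ⟨h6, h7⟩
              refine ⟨h7, lt_of_le_of_ne ?_ h6⟩
              exact hmax u (mem_fs.1 h7)
          rw [h5, Finset.card_erase_of_mem hmem]
          have h6 : (fs k : Finset (Fin n)).card - 1 = c := by omega
          rw [h6]
          exact h1
        · have h5 := g2 v (Finset.mem_erase.2 ⟨hva, hv⟩)
          have h6 : (((fs k : Finset (Fin n)).erase a).filter fun u => u < v) =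
              (fs k : Finset (Fin n)).filter fun u => u < v := by
            ext u
            rw [Finset.mem_filter, Finset.mem_filter, Finset.mem_erase]
            constructor
            · rintro ⟨⟨_, h7⟩, h8⟩; exact ⟨h7, h8⟩
            · rintro ⟨h7, h8⟩
              refine ⟨⟨?_, h7⟩, h8⟩
              rintro rfl
              have : v ≤ a := hmax v (mem_fs.1 hv)
              exact absurd (lt_of_lt_of_le h8 this) (lt_irrefl _)
          rw [h6] at h5
          exact h5

/-! ### Facets and ridges -/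

/-- the conclusion of the check -/
structure UpSpec (n c : ℕ) (fT : BT ℕ) (rT : BT RD) : Prop where
  bf : bst fT 0 (2 ^ n) = true
  br : bst rT 0 (2 ^ n) = true
  card : ∀ F ∈ (famT fT : Fam n), F.card = c
  up1 : ∀ r p, inT rT r p → ∃ (h1 : p.1 < n) (h2 : p.2.1 < n),
    up (famT fT : Fam n) (fs r) = {⟨p.1, h1⟩, ⟨p.2.1, h2⟩}
  up0 : ∀ R : Finset (Fin n), (∀ r p, inT rT r p → fs r ≠ R) → up (famT fT : Fam n) R = ∅
  ent : ∀ r p, inT rT r p → inT fT (Nat.lor r (Nat.pow 2 p.1)) p.2.2.2.1 ∧
    (p.1 ≠ p.2.1 → inT fT (Nat.lor r (Nat.pow 2 p.2.1)) p.2.2.2.2)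
  sub : ∀ F w, inT fT F w → ∀ v : Fin n, v ∈ (fs F : Finset (Fin n)) →
    ∃ p, inT rT (Nat.xor F (Nat.pow 2 v)) p ∧
      (((v : ℕ) = p.1 ∧ w = p.2.2.2.1) ∨ ((v : ℕ) ≠ p.1 ∧ (v : ℕ) = p.2.1 ∧ w = p.2.2.2.2))
  ori : IsOrientable (famT fT : Fam n)

theorem mem_up {M : Fam n} {R : Finset (Fin n)} {v : Fin n} :
    v ∈ up M R ↔ v ∉ R ∧ insert v R ∈ M := by
  simp [up]

theorem upOK_sound {c : ℕ} {fT : BT ℕ} {rT : BT RD} (h : upOK n c fT rT = true) :
    UpSpec n c fT rT := by
  unfold upOK at h
  rw [andB_iff, andB_iff, andB_iff] at h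
  obtain ⟨hf, hr, h1, h2⟩ := h
  have hlf : ∀ {F w}, inT fT F w → F < 2 ^ n := fun hF => (bst_get (β := Bool) hf hF).2.1
  -- the check of a facet and one of its vertices
  have key0 : ∀ (F w : ℕ) (v : Fin n), inT fT F w → v ∈ (fs F : Finset (Fin n)) →
      ∃ p, inT rT (Nat.xor F (Nat.pow 2 v)) p ∧
        (((v : ℕ) = p.1 ∧ w = p.2.2.2.1 ∧
          (((fs F : Finset (Fin n)).filter fun u => u < v).card + w + p.2.2.1) % 2 = 0) ∨
        ((v : ℕ) ≠ p.1 ∧ (v : ℕ) = p.2.1 ∧ w = p.2.2.2.2 ∧
          (((fs F : Finset (Fin n)).filter fun u => u < v).card + w + p.2.2.1) % 2 = 1)) := by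
    intro F w v hF hvF
    have h4 := (loopB_sound (n := n) (hlf hF) (btAll_inT h1 hF)).2 v hvF
    obtain ⟨p, hp, hp2⟩ := get_true h4
    refine ⟨p, hp, ?_⟩
    cases h7 : Nat.beq (v : ℕ) p.1 with
    | true =>
      rw [h7] at hp2
      left
      have hp3 : andB (Nat.beq w p.2.2.2.1) (Nat.beq (Nat.mod (Nat.add (Nat.add
        ((fs F : Finset (Fin n)).filter fun u => u < v).card w) p.2.2.1) 2) 0) = true := hp2
      rw [andB_iff, nbeq_iff, nbeq_iff] at hp3
      exact ⟨nbeq_iff.1 h7, hp3.1, hp3.2⟩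
    | false =>
      rw [h7] at hp2
      right
      refine ⟨fun h => by rw [nbeq_iff.2 h] at h7; simp at h7, ?_⟩
      cases h8 : Nat.beq (v : ℕ) p.2.1 with
      | true =>
        rw [h8] at hp2
        have hp3 : andB (Nat.beq w p.2.2.2.2) (Nat.beq (Nat.mod (Nat.add (Nat.add
          ((fs F : Finset (Fin n)).filter fun u => u < v).card w) p.2.2.1) 2) 1) = true := hp2
        rw [andB_iff, nbeq_iff, nbeq_iff] at hp3
        exact ⟨nbeq_iff.1 h8, hp3.1, hp3.2⟩
      | false => rw [h8] at hp2; simp at hp2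
  have key : ∀ (r : ℕ), r < 2 ^ n → ∀ (F w : ℕ) (v : Fin n), inT fT F w →
      v ∉ (fs r : Finset (Fin n)) → (fs F : Finset (Fin n)) = insert v (fs r) →
      ∃ p, inT rT r p ∧
        (((v : ℕ) = p.1 ∧ w = p.2.2.2.1 ∧
          (((fs r : Finset (Fin n)).filter fun u => u < v).card + w + p.2.2.1) % 2 = 0) ∨
        ((v : ℕ) ≠ p.1 ∧ (v : ℕ) = p.2.1 ∧ w = p.2.2.2.2 ∧
          (((fs r : Finset (Fin n)).filter fun u => u < v).card + w + p.2.2.1) % 2 = 1)) := by
    intro r hr2 F w v hF hv1 hFv
    have hvF : v ∈ (fs F : Finset (Fin n)) := by rw [hFv]; exact Finset.mem_insert_self _ _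
    have h4 := key0 F w v hF hvF
    have hfil : ((fs F : Finset (Fin n)).filter fun u => u < v) =
        (fs r : Finset (Fin n)).filter fun u => u < v := by
      rw [hFv]
      ext u
      rw [Finset.mem_filter, Finset.mem_filter, Finset.mem_insert]
      constructor
      · rintro ⟨h5 | h5, h6⟩
        · rw [h5] at h6; exact absurd h6 (lt_irrefl _)
        · exact ⟨h5, h6⟩
      · rintro ⟨h5, h6⟩; exact ⟨Or.inr h5, h6⟩
    rw [hfil] at h4
    have h6 : Nat.xor F (Nat.pow 2 v) = r := by
      apply fs_inj (n := n) (xor_lt (hlf hF) v.2) hr2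
      rw [fs_xor_erase (mem_fs.1 hvF), hFv, Finset.erase_insert hv1]
    rw [h6] at h4
    exact h4
  have key2 : ∀ (r : ℕ), r < 2 ^ n → ∀ v : Fin n, v ∈ up (famT fT : Fam n) (fs r) →
      ∃ p, inT rT r p ∧ ((v : ℕ) = p.1 ∨ (v : ℕ) = p.2.1) := by
    intro r hr2 v hv
    rw [mem_up] at hv
    obtain ⟨F, w, hF, hFv⟩ := mem_famT.1 hv.2
    obtain ⟨p, hp, h3⟩ := key r hr2 F w v hF hv.1 hFv
    refine ⟨p, hp, ?_⟩
    rcases h3 with h3 | h3
    · exact Or.inl h3.1
    · exact Or.inr h3.2.1
  have hchk : ∀ r p, inT rT r p → p.1 < n ∧ p.2.1 < n ∧ ¬ r.testBit p.1 = true ∧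
      ¬ r.testBit p.2.1 = true ∧ btMem (Nat.lor r (Nat.pow 2 p.1)) fT = true ∧
      btMem (Nat.lor r (Nat.pow 2 p.2.1)) fT = true := by
    intro r p hp
    have h3 := btAll_inT h2 hp
    simp only [andB_iff, nblt_iff, notB_iff, tb_eq] at h3
    exact h3
  have up1 : ∀ r p, inT rT r p → ∃ (h1 : p.1 < n) (h2 : p.2.1 < n),
      up (famT fT : Fam n) (fs r) = {⟨p.1, h1⟩, ⟨p.2.1, h2⟩} := by
    intro r p hp
    have hr2 := (bst_get (β := Bool) hr hp).2.1
    obtain ⟨g1, g2, g3, g4, g5, g6⟩ := hchk r p hp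
    refine ⟨g1, g2, ?_⟩
    ext v
    rw [Finset.mem_insert, Finset.mem_singleton]
    constructor
    · intro hv
      obtain ⟨p', hp', hv'⟩ := key2 r hr2 v hv
      have := inT_unique hr hp hp'
      subst this
      rcases hv' with h | h
      · left; exact Fin.ext h
      · right; exact Fin.ext h
    · have hadd : ∀ (a : ℕ) (ha : a < n), ¬ r.testBit a = true →
          btMem (Nat.lor r (Nat.pow 2 a)) fT = true → (⟨a, ha⟩ : Fin n) ∈
            up (famT fT : Fam n) (fs r) := by
        intro a ha hra hm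
        rw [mem_up]
        refine ⟨fun h => hra (mem_fs.1 h), ?_⟩
        rw [← fs_or_insert]
        obtain ⟨y, hy⟩ := mem_inT hm
        exact mem_famT.2 ⟨_, y, hy, rfl⟩
      rintro (h | h)
      · rw [h]; exact hadd p.1 g1 g3 g5
      · rw [h]; exact hadd p.2.1 g2 g4 g6
  have up0 : ∀ R : Finset (Fin n), (∀ r p, inT rT r p → fs r ≠ R) →
      up (famT fT : Fam n) R = ∅ := by
    intro R hR
    obtain ⟨r, hr2, rfl⟩ := exists_fs R
    rw [Finset.eq_empty_iff_forall_notMem]
    intro v hv
    obtain ⟨p, hp, _⟩ := key2 r hr2 v hv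
    exact hR r p hp rfl
  -- the entries of the two facets at a ridge
  have hent : ∀ r p, inT rT r p → ∀ (a : ℕ) (ha : a < n), ¬ r.testBit a = true →
      btMem (Nat.lor r (Nat.pow 2 a)) fT = true → ∃ w, inT fT (Nat.lor r (Nat.pow 2 a)) w ∧
        ((a = p.1 ∧ w = p.2.2.2.1) ∨ (a ≠ p.1 ∧ a = p.2.1 ∧ w = p.2.2.2.2)) := by
    intro r p hp a ha hra hm
    have hr2 := (bst_get (β := Bool) hr hp).2.1
    obtain ⟨w, hw⟩ := mem_inT hm
    have hva : (⟨a, ha⟩ : Fin n) ∉ (fs r : Finset (Fin n)) := fun h => hra (mem_fs.1 h)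
    obtain ⟨p', hp', h3⟩ := key r hr2 _ w ⟨a, ha⟩ hw hva (fs_or_insert (v := ⟨a, ha⟩))
    have := inT_unique hr hp hp'
    subst this
    refine ⟨w, hw, ?_⟩
    rcases h3 with h3 | h3
    · exact Or.inl ⟨h3.1, h3.2.1⟩
    · exact Or.inr ⟨h3.1, h3.2.1, h3.2.2.1⟩
  refine ⟨hf, hr, ?_, up1, up0, ?_, ?_, ?_⟩
  · intro F hF
    obtain ⟨k, y, hk, rfl⟩ := mem_famT.1 hF
    exact (loopB_sound (n := n) (hlf hk) (btAll_inT h1 hk)).1
  · intro r p hp
    obtain ⟨g1, g2, g3, g4, g5, g6⟩ := hchk r p hp
    constructor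
    · obtain ⟨w, hw, h3 | h3⟩ := hent r p hp p.1 g1 g3 g5
      · rw [← h3.2]; exact hw
      · exact absurd rfl h3.1
    · intro hne
      obtain ⟨w, hw, h3 | h3⟩ := hent r p hp p.2.1 g2 g4 g6
      · exact absurd h3.1.symm hne
      · rw [← h3.2.2]; exact hw
  · intro F w hF v hv
    obtain ⟨p, hp, h3⟩ := key0 F w v hF hv
    refine ⟨p, hp, ?_⟩
    rcases h3 with h3 | h3
    · exact Or.inl ⟨h3.1, h3.2.1⟩
    · exact Or.inr ⟨h3.1, h3.2.1, h3.2.2.1⟩
  · choose mk hmk1 hmk2 using fun s : Finset (Fin n) => exists_fs s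
    have hmkfs : ∀ k, k < 2 ^ n → mk (fs k) = k := fun k hk =>
      fs_inj (hmk1 _) hk (hmk2 (fs k))
    refine ⟨fun F => (-1 : ℤ) ^ (btGet 0 (fun w => w) (mk F) fT), ?_, ?_⟩
    · intro F _
      exact neg_one_pow_eq_or ℤ _
    · intro R hR
      by_cases hex : ∃ r p, inT rT r p ∧ fs r = R
      · obtain ⟨r, p, hp, rfl⟩ := hex
        obtain ⟨g1, g2, g3⟩ := up1 r p hp
        have hr2 : r < 2 ^ n := (bst_get (β := Bool) hr hp).2.1
        have hne : (⟨p.1, g1⟩ : Fin n) ≠ ⟨p.2.1, g2⟩ := by
          intro h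
          apply hR
          rw [boundary, Finset.mem_filter, g3, h]
          simp
        rw [g3, Finset.sum_pair hne]
        have hterm : ∀ v : Fin n, v ∈ up (famT fT : Fam n) (fs r) → ∃ w,
            (-1 : ℤ) ^ ((fs r : Finset (Fin n)).filter fun u => u < v).card *
              (-1 : ℤ) ^ (btGet 0 (fun w => w) (mk (insert v (fs r))) fT) =
                (-1 : ℤ) ^ (((fs r : Finset (Fin n)).filter fun u => u < v).card + w) ∧
            (((v : ℕ) = p.1 ∧ w = p.2.2.2.1 ∧
                (((fs r : Finset (Fin n)).filter fun u => u < v).card + w + p.2.2.1) % 2 = 0) ∨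
              ((v : ℕ) ≠ p.1 ∧ (v : ℕ) = p.2.1 ∧ w = p.2.2.2.2 ∧
                (((fs r : Finset (Fin n)).filter fun u => u < v).card + w + p.2.2.1) % 2 = 1)) := by
          intro v hv
          rw [mem_up] at hv
          obtain ⟨F, w, hF, hFv⟩ := mem_famT.1 hv.2
          obtain ⟨p', hp', h3⟩ := key r hr2 F w v hF hv.1 hFv
          have := inT_unique hr hp hp'
          subst this
          refine ⟨w, ?_, h3⟩
          rw [← hFv, hmkfs F (hlf hF), (bst_get (β := ℕ) hf hF).2.2, pow_add]
        obtain ⟨w1, e1, c1⟩ := hterm ⟨p.1, g1⟩ (by rw [g3]; simp)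
        obtain ⟨w2, e2, c2⟩ := hterm ⟨p.2.1, g2⟩ (by rw [g3]; simp)
        simp only
        rw [e1, e2]
        have c1' : (((fs r : Finset (Fin n)).filter fun u => u < ⟨p.1, g1⟩).card + w1 +
            p.2.2.1) % 2 = 0 := by
          rcases c1 with c1 | c1
          · exact c1.2.2
          · exact absurd rfl c1.1
        have c2' : (((fs r : Finset (Fin n)).filter fun u => u < ⟨p.2.1, g2⟩).card + w2 +
            p.2.2.1) % 2 = 1 := by
          rcases c2 with c2 | c2
          · exact absurd (Fin.ext c2.1.symm) hne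
          · exact c2.2.2.2
        generalize ((fs r : Finset (Fin n)).filter fun u => u < ⟨p.1, g1⟩).card + w1 = x at *
        generalize ((fs r : Finset (Fin n)).filter fun u => u < ⟨p.2.1, g2⟩).card + w2 = y at *
        have h6 : (-1 : ℤ) ^ x * (-1 : ℤ) ^ y = -1 := by
          rw [← pow_add]
          exact (Nat.odd_iff.2 (by omega)).neg_one_pow
        have h7 := neg_one_pow_eq_or ℤ x
        have h8 := neg_one_pow_eq_or ℤ y
        generalize (-1 : ℤ) ^ x = x' at h6 h7 ⊢
        generalize (-1 : ℤ) ^ y = y' at h6 h8 ⊢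
        rcases h7 with rfl | rfl <;> rcases h8 with rfl | rfl <;> omega
      · push Not at hex
        rw [up0 R hex]
        simp

theorem up_card {c : ℕ} {fT : BT ℕ} {rT : BT RD} (U : UpSpec n c fT rT)
    {R : Finset (Fin n)} : R ∈ boundary (famT fT : Fam n) ↔
      ∃ r p, inT rT r p ∧ p.1 = p.2.1 ∧ fs r = R := by
  rw [boundary, Finset.mem_filter]
  constructor
  · rintro ⟨_, hc⟩
    by_contra hcon
    push Not at hcon
    by_cases hex : ∃ r p, inT rT r p ∧ fs r = R
    · obtain ⟨r, p, hp, rfl⟩ := hex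
      obtain ⟨h1, h2, h3⟩ := U.up1 r p hp
      rw [h3, Finset.card_pair] at hc
      · omega
      · intro h
        exact hcon r p hp (Fin.mk.inj_iff.1 h) rfl
    · push Not at hex
      rw [U.up0 R hex] at hc
      simp at hc
  · rintro ⟨r, p, hp, hpp, rfl⟩
    obtain ⟨h1, h2, h3⟩ := U.up1 r p hp
    refine ⟨Finset.mem_univ _, ?_⟩
    rw [h3]
    have : (⟨p.1, h1⟩ : Fin n) = ⟨p.2.1, h2⟩ := Fin.ext hpp
    rw [this]
    simp

theorem closedOK_sound {c : ℕ} {fT : BT ℕ} {rT : BT RD} (U : UpSpec n c fT rT)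
    (h : closedOK rT = true) : boundary (famT fT : Fam n) = ∅ := by
  rw [Finset.eq_empty_iff_forall_notMem]
  intro R hR
  obtain ⟨r, p, hp, hpp, _⟩ := (up_card U).1 hR
  have := btAll_inT h hp
  rw [notB_iff, nbeq_iff] at this
  exact this hpp

end Pool.Agent.TH640B
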