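import Mathlib
import Pool.Agent.TH640B.Base
import Pool.Agent.TH640B.Bits
import Pool.Agent.TH640B.Trees

/-!
# Faces and collapses

Helper file.
-/

open Finset

namespace Pool.Agent.TH640B

variable {n : ℕ}

/-! ### The tree of all faces -/

/-- the conclusion of the check -/
structure FaceSpec (n : ℕ) (fT : BT ℕ) (gT : BT (ℕ × ℕ)) : Prop where
  bg : bst gT 0 (2 ^ n) = true
  eq : (famT gT : Fam n) = faces (famT fT)
  mono : ∀ k p k' p', inT gT k p → inT gT k' p' →
    (fs k' : Finset (Fin n)) ⊂ fs k → p.1 < p'.1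

theorem facesOK_sound {fT : BT ℕ} {gT : BT (ℕ × ℕ)}
    (h : facesOK n fT gT = true) : FaceSpec n fT gT := by
  unfold facesOK at h
  rw [andB_iff, andB_iff] at h
  obtain ⟨hb, h1, h2⟩ := h
  have hlt : ∀ {k p}, inT gT k p → 0 < k ∧ k < 2 ^ n := fun hk =>
    ⟨(bst_get (β := Bool) hb hk).1, (bst_get (β := Bool) hb hk).2.1⟩
  have hdown : ∀ {k p}, inT gT k p → ∀ v : Fin n, k.testBit v = true →
      Nat.xor k (Nat.pow 2 v) = 0 ∨ ∃ q, inT gT (Nat.xor k (Nat.pow 2 v)) q ∧ p.1 < q.1 := by
    intro k p hk v hv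
    have h3 := btAll_inT h2 hk
    rw [andB_iff] at h3
    have h4 := bitAll_sound h3.2 hv
    rw [orB_iff, nbeq_iff] at h4
    rcases h4 with h4 | h4
    · exact Or.inl h4
    · obtain ⟨q, hq, hpq⟩ := get_true h4
      exact Or.inr ⟨q, hq, nblt_iff.1 hpq⟩
  -- closure under nonempty subsets, with increasing position
  have hsub : ∀ (c : ℕ) (k : ℕ) (p : ℕ × ℕ), inT gT k p → (fs k : Finset (Fin n)).card = c →
      ∀ t : Finset (Fin n), t.Nonempty → t ⊂ fs k → ∃ k' p', inT gT k' p' ∧ fs k' = t ∧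
        p.1 < p'.1 := by
    intro c
    induction c using Nat.strong_induction_on with
    | _ c ih =>
      intro k p hk hc t ht htk
      obtain ⟨v, hv, hvt⟩ := Finset.exists_of_ssubset htk
      have hvb := mem_fs.1 hv
      have he := fs_xor_erase (n := n) hvb
      rcases hdown hk v hvb with h0 | ⟨q, hq, hpq⟩
      · exfalso
        rw [h0, fs_zero] at he
        obtain ⟨u, hu⟩ := ht
        have h3 : u ∈ (fs k : Finset (Fin n)).erase v :=
          Finset.mem_erase.2 ⟨fun h => hvt (h ▸ hu), htk.1 hu⟩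
        rw [← he] at h3
        simp at h3
      · have hte : t ⊆ fs (Nat.xor k (Nat.pow 2 v)) := by
          rw [he]
          intro u hu
          exact Finset.mem_erase.2 ⟨fun h => hvt (h ▸ hu), htk.1 hu⟩
        rcases hte.eq_or_ssubset with h4 | h4
        · exact ⟨_, q, hq, h4.symm, hpq⟩
        · have hcard : (fs (Nat.xor k (Nat.pow 2 v)) : Finset (Fin n)).card < c := by
            rw [he, Finset.card_erase_of_mem hv, ← hc]
            have : 0 < (fs k : Finset (Fin n)).card := Finset.card_pos.2 ⟨v, hv⟩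
            omega
          obtain ⟨k', p', g1, g2, g3⟩ := ih _ hcard _ q hq rfl t ht h4
          exact ⟨k', p', g1, g2, hpq.trans g3⟩
  have hup : ∀ (c : ℕ) (k : ℕ) (p : ℕ × ℕ), inT gT k p → n - (fs k : Finset (Fin n)).card = c →
      ∃ F ∈ (famT fT : Fam n), (fs k : Finset (Fin n)) ⊆ F := by
    intro c
    induction c using Nat.strong_induction_on with
    | _ c ih =>
      intro k p hk hc
      have h3 := btAll_inT h2 hk
      rw [andB_iff] at h3
      obtain ⟨h4, _⟩ := h3
      cases h5 : Nat.beq p.2 n with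
      | true =>
        rw [h5] at h4
        obtain ⟨y, hy⟩ := mem_inT (t := fT) h4
        exact ⟨fs k, mem_famT.2 ⟨k, y, hy, rfl⟩, Finset.Subset.refl _⟩
      | false =>
        rw [h5] at h4
        have h6 : (andB (Nat.blt p.2 n) (andB (notB (tb k p.2))
          (btMem (Nat.lor k (Nat.pow 2 p.2)) gT))) = true := h4
        rw [andB_iff, andB_iff, nblt_iff, notB_iff, tb_eq] at h6
        obtain ⟨g1, g2, g3⟩ := h6
        obtain ⟨q, hq⟩ := mem_inT g3
        have hins := fs_or_insert (n := n) (m := k) (v := ⟨p.2, g1⟩)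
        have hnot : (⟨p.2, g1⟩ : Fin n) ∉ (fs k : Finset (Fin n)) := fun h => g2 (mem_fs.1 h)
        have hcard : (fs (Nat.lor k (Nat.pow 2 p.2)) : Finset (Fin n)).card =
            (fs k : Finset (Fin n)).card + 1 := by
          change (fs (Nat.lor k (Nat.pow 2 ((⟨p.2, g1⟩ : Fin n) : ℕ))) : Finset (Fin n)).card = _
          rw [hins, Finset.card_insert_of_notMem hnot]
        have hle : (fs (Nat.lor k (Nat.pow 2 p.2)) : Finset (Fin n)).card ≤ n := by
          have := Finset.card_le_univ (fs (Nat.lor k (Nat.pow 2 p.2)) : Finset (Fin n))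
          simpa using this
        obtain ⟨F, hF, hkF⟩ := ih (n - (fs (Nat.lor k (Nat.pow 2 p.2)) : Finset (Fin n)).card)
          (by omega) _ q hq rfl
        refine ⟨F, hF, Finset.Subset.trans ?_ hkF⟩
        change _ ⊆ (fs (Nat.lor k (Nat.pow 2 ((⟨p.2, g1⟩ : Fin n) : ℕ))) : Finset (Fin n))
        rw [hins]
        exact Finset.subset_insert _ _
  refine ⟨hb, ?_, ?_⟩
  · ext s
    constructor
    · intro hs
      obtain ⟨k, p, hk, rfl⟩ := mem_famT.1 hs
      obtain ⟨F, hF, hkF⟩ := hup _ k p hk rfl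
      rw [faces, Finset.mem_filter]
      have := hlt hk
      exact ⟨Finset.mem_univ _, fs_nonempty (by omega) this.2, F, hF, hkF⟩
    · intro hs
      rw [faces, Finset.mem_filter] at hs
      obtain ⟨_, hne, F, hF, hsF⟩ := hs
      obtain ⟨k, y, hk, rfl⟩ := mem_famT.1 hF
      obtain ⟨p, hp⟩ := mem_inT (btAll_inT h1 hk)
      rcases hsF.eq_or_ssubset with h3 | h3
      · exact mem_famT.2 ⟨k, p, hp, h3.symm⟩
      · obtain ⟨k', p', g1, g2, _⟩ := hsub _ k p hp rfl s hne h3
        exact mem_famT.2 ⟨k', p', g1, g2⟩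
  · intro k p k' p' hk hk' hss
    have hk2 := hlt hk'
    obtain ⟨k1, p1, g1, g2, g3⟩ := hsub _ k p hk rfl (fs k')
      (fs_nonempty (by omega) hk2.2) hss
    have h3 : k1 = k' := fs_inj (hlt g1).2 hk2.2 g2
    subst h3
    rw [← inT_unique hb g1 hk']
    exact g3

/-! ### Collapses -/

/-! ### Connectivity -/

theorem nodupOK_sound {l : List ℕ} (h : nodupOK l = true) : l.Nodup := by
  induction l with
  | nil => exact List.nodup_nil
  | cons x l ih =>
    have he : nodupOK (x :: l) = andB (notB (anyL (fun y => Nat.beq x y) l)) (nodupOK l) := rfl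
    rw [he, andB_iff, notB_iff, anyL_iff] at h
    rw [List.nodup_cons]
    refine ⟨fun hx => h.1 ⟨x, hx, nbeq_iff.2 rfl⟩, ih h.2⟩

/-- adjacency of cells -/
def adj (S : Fam n) (a b : Finset (Fin n)) : Prop := a ∈ S ∧ b ∈ S ∧ (a ⊆ b ∨ b ⊆ a)

theorem rtg_symm {S : Fam n} {a b : Finset (Fin n)} (h : Relation.ReflTransGen (adj S) a b) :
    Relation.ReflTransGen (adj S) b a := by
  induction h with
  | refl => exact Relation.ReflTransGen.refl
  | tail _ h2 ih => exact Relation.ReflTransGen.head ⟨h2.2.1, h2.1, h2.2.2.symm⟩ ih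

theorem connOK_sound {S : Fam n} {O : List (ℕ × ℕ)} {acc : List ℕ} {root : ℕ}
    (hO : ∀ q ∈ O, q.1 < 2 ^ n ∧ fs q.1 ∈ S) (hacc' : ∀ a ∈ acc, a < 2 ^ n)
    (hacc : ∀ a ∈ acc, fs a ∈ S ∧ Relation.ReflTransGen (adj S) (fs root) (fs a))
    (h : connOK O acc = true) :
    ∀ q ∈ O, Relation.ReflTransGen (adj S) (fs root) (fs q.1) := by
  induction O generalizing acc with
  | nil => intro q hq; simp at hq
  | cons q O ih =>
    have he : connOK (q :: O) acc = (andB (anyL (fun a => Nat.beq q.2 a) acc) <|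
      andB (orB (subB q.1 q.2) (subB q.2 q.1)) (connOK O (q.1 :: acc))) := rfl
    rw [he, andB_iff, andB_iff, anyL_iff, orB_iff] at h
    obtain ⟨⟨a, ha, hqa⟩, h2, h3⟩ := h
    rw [nbeq_iff] at hqa
    obtain ⟨hq1, hq2⟩ := hO q (by simp)
    have hp : q.2 < 2 ^ n := by rw [hqa]; exact hacc' a ha
    have hconn : Relation.ReflTransGen (adj S) (fs root) (fs q.1) := by
      refine Relation.ReflTransGen.tail (hacc a ha).2 ⟨(hacc a ha).1, hq2, ?_⟩
      rw [← hqa, fs_subset hp, fs_subset hq1]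
      exact h2.symm
    have key := ih (acc := q.1 :: acc) (fun q' hq' => hO q' (by simp [hq']))
      (fun a ha => by
        rcases List.mem_cons.1 ha with h | h
        · rw [h]; exact hq1
        · exact hacc' a h)
      (fun a ha => by
        rcases List.mem_cons.1 ha with h | h
        · rw [h]; exact ⟨hq2, hconn⟩
        · exact hacc a h) h3
    intro q' hq'
    rcases List.mem_cons.1 hq' with h | h
    · rw [h]; exact hconn
    · exact key q' h

theorem isConn_of {O : List (ℕ × ℕ)} {root : ℕ}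
    (hlt : ∀ m ∈ root :: mapL Prod.fst O, m < 2 ^ n) (h : connOK O [root] = true) :
    IsConn (toFam (root :: mapL Prod.fst O) : Fam n) := by
  set S : Fam n := toFam (root :: mapL Prod.fst O) with hS
  have hroot : fs root ∈ S := by rw [hS, toFam_cons]; exact Finset.mem_insert_self _ _
  have h1 := connOK_sound (S := S) (O := O) (acc := [root]) (root := root)
    (fun q hq => by
      have : q.1 ∈ mapL Prod.fst O := by rw [mapL_eq]; exact List.mem_map_of_mem hq
      refine ⟨hlt _ (by simp [this]), ?_⟩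
      rw [hS]; exact mem_toFam.2 ⟨q.1, by simp [this], rfl⟩)
    (fun a ha => by
      rcases List.mem_singleton.1 ha with rfl
      exact hlt _ (by simp))
    (fun a ha => by
      rcases List.mem_singleton.1 ha with rfl
      exact ⟨hroot, Relation.ReflTransGen.refl⟩) h
  have h2 : ∀ s ∈ S, Relation.ReflTransGen (adj S) (fs root) s := by
    intro s hs
    rw [hS] at hs
    obtain ⟨m, hm, rfl⟩ := mem_toFam.1 hs
    rcases List.mem_cons.1 hm with h | h
    · rw [h]
    · rw [mapL_eq] at h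
      obtain ⟨q, hq, rfl⟩ := List.mem_map.1 h
      exact h1 q hq
  refine ⟨⟨_, hroot⟩, fun s hs t ht => ?_⟩
  exact (rtg_symm (h2 s hs)).trans (h2 t ht)

/-! ### Graphs -/

theorem filter_card {G : List ℕ} (hlt : ∀ m ∈ G, m < 2 ^ n) (hG : G.Nodup) (c : ℕ) :
    ((toFam G : Fam n).filter fun s => s.card = c).card =
      lenL (filL (fun m => Nat.beq (pc n m) c) G) := by
  have h1 : ((toFam G : Fam n).filter fun s => s.card = c) =
      toFam (filL (fun m => Nat.beq (pc n m) c) G) := by
    ext s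
    rw [Finset.mem_filter, mem_toFam, mem_toFam]
    constructor
    · rintro ⟨⟨m, hm, rfl⟩, hc⟩
      rw [card_fs] at hc
      exact ⟨m, mem_filL.2 ⟨hm, nbeq_iff.2 hc⟩, rfl⟩
    · rintro ⟨m, hm, rfl⟩
      rw [mem_filL, nbeq_iff] at hm
      exact ⟨⟨m, hm.1, rfl⟩, by rw [card_fs, hm.2]⟩
  rw [h1, lenL_eq, card_toFam]
  · intro m hm
    exact hlt m (mem_filL.1 hm).1
  · rw [filL_eq]
    exact hG.filter _

theorem graphOK_sound {r root : ℕ} {O : List (ℕ × ℕ)} {G : List ℕ}
    (hlt : ∀ m ∈ G, m < 2 ^ n) (h : graphOK n r root O G = true) :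
    IsGraph r (toFam G : Fam n) := by
  unfold graphOK at h
  simp only [andB_iff, allL_iff, anyL_iff, nbeq_iff, orB_iff] at h
  obtain ⟨h1, h2, h3, h4, h5, h6⟩ := h
  have hG := nodupOK_sound h3
  have hE : (toFam G : Fam n) = toFam (root :: mapL Prod.fst O) := by
    ext s
    rw [mem_toFam, mem_toFam]
    constructor
    · rintro ⟨m, hm, rfl⟩
      obtain ⟨x, hx, rfl⟩ := h1 m hm
      exact ⟨m, hx, rfl⟩
    · rintro ⟨m, hm, rfl⟩
      obtain ⟨x, hx, rfl⟩ := h2 m hm
      exact ⟨m, hx, rfl⟩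
  refine ⟨?_, ?_, ?_⟩
  · intro s hs
    obtain ⟨m, hm, rfl⟩ := mem_toFam.1 hs
    rw [card_fs]
    exact h5 m hm
  · rw [hE]
    refine isConn_of ?_ h4
    intro m hm
    obtain ⟨x, hx, rfl⟩ := h2 m hm
    exact hlt _ hx
  · rw [filter_card hlt hG, filter_card hlt hG]
    exact h6

/-! ### Connectivity of the complex -/

theorem vconnOK_sound {fT : BT ℕ} {O : List (ℕ × ℕ)} {acc : List ℕ} {r : Fin n}
    (hacc : ∀ a ∈ acc, ∀ ha : a < n, Relation.ReflTransGen (adj (faces (famT fT : Fam n)))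
      {r} {(⟨a, ha⟩ : Fin n)}) (hlt : ∀ a ∈ acc, a < n) (hO : ∀ q ∈ O, q.1 < n)
    (h : vconnOK fT (btKeys fT) O acc = true) :
    ∀ v : Fin n, (∃ F ∈ (famT fT : Fam n), v ∈ F) →
      Relation.ReflTransGen (adj (faces (famT fT : Fam n))) {r} {v} := by
  induction O generalizing acc with
  | nil =>
    rintro v ⟨F, hF, hv⟩
    have he : btAll (fun F _ => subB F (msk acc)) fT = true := h
    obtain ⟨k, y, hk, rfl⟩ := mem_famT.1 hF
    have h1 := btAll_inT he hk
    rw [subB_iff] at h1
    have h2 := (testBit_msk acc v).1 (h1 v (mem_fs.1 hv))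
    exact hacc v h2 v.2
  | cons q O ih =>
    have he : vconnOK fT (btKeys fT) (q :: O) acc =
      (andB (anyL (fun a => Nat.beq q.2 a) acc) <|
      andB (anyL (fun F => andB (tb F q.1) (tb F q.2)) (btKeys fT))
        (vconnOK fT (btKeys fT) O (q.1 :: acc))) := rfl
    rw [he, andB_iff, andB_iff, anyL_iff, anyL_iff] at h
    obtain ⟨⟨a, ha, hqa⟩, ⟨F, hF, hFq⟩, h3⟩ := h
    rw [nbeq_iff] at hqa
    rw [andB_iff, tb_eq, tb_eq] at hFq
    have hq1 := hO q (by simp)
    have hq2 : q.2 < n := by rw [hqa]; exact hlt a ha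
    have hpar := hacc q.2 (by rw [hqa]; exact ha) hq2
    have hface : ∀ s : Finset (Fin n), s.Nonempty → s ⊆ fs F → s ∈ faces (famT fT : Fam n) := by
      intro s hs hsF
      rw [faces, Finset.mem_filter]
      exact ⟨Finset.mem_univ _, hs, fs F, mem_toFam.2 ⟨F, hF, rfl⟩, hsF⟩
    have hm1 : (⟨q.1, hq1⟩ : Fin n) ∈ (fs F : Finset (Fin n)) := mem_fs.2 hFq.1
    have hm2 : (⟨q.2, hq2⟩ : Fin n) ∈ (fs F : Finset (Fin n)) := mem_fs.2 hFq.2
    have hnew : Relation.ReflTransGen (adj (faces (famT fT : Fam n))) {r}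
        {(⟨q.1, hq1⟩ : Fin n)} := by
      refine Relation.ReflTransGen.tail (Relation.ReflTransGen.tail hpar
        (?_ : adj _ _ {(⟨q.2, hq2⟩ : Fin n), ⟨q.1, hq1⟩})) ?_
      · refine ⟨hface _ (by simp) (by simpa using hm2), hface _ (by simp) ?_, Or.inl (by simp)⟩
        intro x hx
        rcases Finset.mem_insert.1 hx with h | h
        · rw [h]; exact hm2
        · rw [Finset.mem_singleton.1 h]; exact hm1
      · refine ⟨hface _ (by simp) ?_, hface _ (by simp) (by simpa using hm1), Or.inr (by simp)⟩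
        intro x hx
        rcases Finset.mem_insert.1 hx with h | h
        · rw [h]; exact hm2
        · rw [Finset.mem_singleton.1 h]; exact hm1
    refine ih (acc := q.1 :: acc) ?_ ?_ (fun q' hq' => hO q' (by simp [hq'])) h3
    · intro b hb hbn
      rcases List.mem_cons.1 hb with h | h
      · subst h; exact hnew
      · exact hacc b h hbn
    · intro b hb
      rcases List.mem_cons.1 hb with h | h
      · rw [h]; exact hq1
      · exact hlt b h

theorem kconnOK_sound {root : ℕ} {fT : BT ℕ} {O : List (ℕ × ℕ)}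
    (h : kconnOK n root fT O = true) : IsConn (faces (famT fT : Fam n)) := by
  unfold kconnOK at h
  rw [andB_iff, andB_iff, andB_iff, nblt_iff, allL_iff, anyL_iff] at h
  obtain ⟨h1, h2, ⟨F, hF, hFr⟩, h3⟩ := h
  rw [tb_eq] at hFr
  have key := vconnOK_sound (n := n) (fT := fT) (O := O) (acc := [root]) (r := ⟨root, h1⟩)
    (fun a ha han => by
      rcases List.mem_singleton.1 ha with rfl
      exact Relation.ReflTransGen.refl)
    (fun a ha => by
      rcases List.mem_singleton.1 ha with rfl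
      exact h1)
    (fun q hq => nblt_iff.1 (h2 q hq)) h3
  have h4 : ∀ s ∈ faces (famT fT : Fam n),
      Relation.ReflTransGen (adj (faces (famT fT : Fam n))) {(⟨root, h1⟩ : Fin n)} s := by
    intro s hs
    have hs' := hs
    rw [faces, Finset.mem_filter] at hs
    obtain ⟨_, ⟨v, hv⟩, F', hF', hsF'⟩ := hs
    refine Relation.ReflTransGen.tail (key v ⟨F', hF', hsF' hv⟩)
      ⟨?_, hs', Or.inl (by simpa using hv)⟩
    rw [faces, Finset.mem_filter]
    exact ⟨Finset.mem_univ _, by simp, F', hF', by simpa using hsF' hv⟩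
  refine ⟨⟨{(⟨root, h1⟩ : Fin n)}, ?_⟩, fun s hs t ht => ?_⟩
  · rw [faces, Finset.mem_filter]
    refine ⟨Finset.mem_univ _, by simp, fs F, mem_toFam.2 ⟨F, hF, rfl⟩, ?_⟩
    rw [Finset.singleton_subset_iff]
    exact mem_fs.2 hFr
  · exact (rtg_symm (h4 s hs)).trans (h4 t ht)

/-! ### Euler characteristic -/

theorem filter_card' {G : List ℕ} (hlt : ∀ m ∈ G, m < 2 ^ n) (hG : G.Nodup)
    (h : ∀ m ∈ G, cardB 1 m = true ∨ cardB 2 m = true ∨ cardB 3 m = true) (c : ℕ) :
    ((toFam G : Fam n).filter fun s => s.card = c).card = lenL (filL (cardB c) G) := by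
  have key : ∀ m ∈ G, cardB c m = true ↔ (fs m : Finset (Fin n)).card = c := by
    intro m hm
    constructor
    · intro h1
      exact (loopB_sound (hlt m hm) h1).1
    · intro h1
      rcases h m hm with h2 | h2 | h2
      · have h3 : (fs m : Finset (Fin n)).card = 1 := (loopB_sound (hlt m hm) h2).1
        rw [h1] at h3; rw [h3]; exact h2
      · have h3 : (fs m : Finset (Fin n)).card = 2 := (loopB_sound (hlt m hm) h2).1
        rw [h1] at h3; rw [h3]; exact h2
      · have h3 : (fs m : Finset (Fin n)).card = 3 := (loopB_sound (hlt m hm) h2).1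
        rw [h1] at h3; rw [h3]; exact h2
  have h1 : ((toFam G : Fam n).filter fun s => s.card = c) = toFam (filL (cardB c) G) := by
    ext s
    rw [Finset.mem_filter, mem_toFam, mem_toFam]
    constructor
    · rintro ⟨⟨m, hm, rfl⟩, hc⟩
      exact ⟨m, mem_filL.2 ⟨hm, (key m hm).2 hc⟩, rfl⟩
    · rintro ⟨m, hm, rfl⟩
      rw [mem_filL] at hm
      exact ⟨⟨m, hm.1, rfl⟩, (key m hm.1).1 hm.2⟩
  rw [h1, lenL_eq, card_toFam]
  · intro m hm
    exact hlt m (mem_filL.1 hm).1
  · rw [filL_eq]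
    exact hG.filter _

theorem euler_sum {S : Fam n} (h : ∀ s ∈ S, s.card = 1 ∨ s.card = 2 ∨ s.card = 3) :
    ∑ s ∈ S, (-1 : ℤ) ^ (s.card + 1) =
      (S.filter fun s => s.card = 1).card + (S.filter fun s => s.card = 3).card -
        (S.filter fun s => s.card = 2).card := by
  have h1 : ∀ s ∈ S, (-1 : ℤ) ^ (s.card + 1) = (if s.card = 1 then 1 else 0) +
      (if s.card = 3 then 1 else 0) - (if s.card = 2 then 1 else 0) := by
    intro s hs
    rcases h s hs with h | h | h <;> simp [h]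
  rw [Finset.sum_congr rfl h1, Finset.sum_sub_distrib, Finset.sum_add_distrib]
  simp

theorem bst_sorted {α : Type} {t : BT α} {lo hi : ℕ} (h : bst t lo hi = true) :
    (btKeys t).Pairwise (· < ·) := by
  have key : ∀ (t : BT α) (lo hi : ℕ) (acc : List ℕ), bst t lo hi = true →
      acc.Pairwise (· < ·) → (∀ x ∈ acc, hi ≤ x) → (btAcc t acc).Pairwise (· < ·) := by
    intro t
    induction t with
    | lf => intro lo hi acc _ h2 _; exact h2
    | nd l k w r ihl ihr =>
      intro lo hi acc h1 h2 h3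
      obtain ⟨g1, g2, g3, g4⟩ := bst_nd h1
      have he : btAcc (BT.nd l k w r) acc = btAcc l (k :: btAcc r acc) := rfl
      rw [he]
      have hmem : ∀ x ∈ btAcc r acc, k < x := by
        intro x hx
        rcases (mem_btAcc r acc x).1 hx with h | h
        · obtain ⟨y, hy⟩ := mem_keys.1 h
          exact (bst_get (β := Bool) g4 hy).1
        · exact lt_of_lt_of_le g2 (h3 x h)
      refine ihl lo k _ g3 ?_ ?_
      · rw [List.pairwise_cons]
        exact ⟨hmem, ihr k hi acc g4 h2 h3⟩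
      · intro x hx
        rcases List.mem_cons.1 hx with h | h
        · exact h.ge
        · exact (hmem x h).le
  exact key t lo hi [] h List.Pairwise.nil (by simp)

theorem eulerOK_sound {g : ℕ} {gT : BT (ℕ × ℕ)} (hb : bst gT 0 (2 ^ n) = true)
    (h : eulerOK g gT = true) :
    ∑ s ∈ (famT gT : Fam n), (-1 : ℤ) ^ (s.card + 1) = 2 - 2 * g := by
  unfold eulerOK at h
  rw [andB_iff, allL_iff, nbeq_iff] at h
  obtain ⟨h4, h5⟩ := h
  have hnd : (btKeys gT).Nodup := (bst_sorted hb).imp (fun h => h.ne)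
  have hlt : ∀ k ∈ btKeys gT, k < 2 ^ n := by
    intro k hk
    obtain ⟨y, hy⟩ := mem_keys.1 hk
    exact (bst_get (β := Bool) hb hy).2.1
  have h7 : ∀ m ∈ btKeys gT, cardB 1 m = true ∨ cardB 2 m = true ∨ cardB 3 m = true := by
    intro m hm
    have := h4 m hm
    rw [orB_iff, orB_iff] at this
    exact this
  rw [euler_sum]
  · rw [famT, filter_card' hlt hnd h7, filter_card' hlt hnd h7, filter_card' hlt hnd h7]
    have h6 : ((lenL (filL (cardB 1) (btKeys gT)) +
        lenL (filL (cardB 3) (btKeys gT)) + 2 * g : ℕ) : ℤ) =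
        ((2 + lenL (filL (cardB 2) (btKeys gT)) : ℕ) : ℤ) := by
      exact_mod_cast h5
    push_cast at h6
    linarith
  · intro s hs
    obtain ⟨m, y, hm, rfl⟩ := mem_famT.1 hs
    have hk := mem_keys.2 ⟨y, hm⟩
    rcases h7 m hk with h | h | h
    · exact Or.inl (loopB_sound (hlt m hk) h).1
    · exact Or.inr (Or.inl (loopB_sound (hlt m hk) h).1)
    · exact Or.inr (Or.inr (loopB_sound (hlt m hk) h).1)

theorem surface_of {g root : ℕ} {fT : BT ℕ} {rT : BT RD} {gT : BT (ℕ × ℕ)}
    {O : List (ℕ × ℕ)} (U : UpSpec n 3 fT rT)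
    (hM : IsManifold 2 (famT fT : Fam n)) (hc : closedOK rT = true)
    (hf : facesOK n fT gT = true) (hk : kconnOK n root fT O = true)
    (he : eulerOK g gT = true) : IsSurface g (famT fT : Fam n) := by
  have S := facesOK_sound hf
  refine ⟨hM, closedOK_sound U hc, U.ori, kconnOK_sound hk, ?_⟩
  rw [← S.eq]
  exact eulerOK_sound S.bg he

end Pool.Agent.TH640B
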