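import Mathlib
import Pool.Agent.TH640B.Base
import Pool.Agent.TH640B.Hol

/-!
# Collapses are deformation retractions

Helper file.
-/

open Finset Topology ContinuousMap unitInterval

namespace Pool.Agent.TH640B

/-- `B` is a deformation retract of `A`. -/
def DR {Y : Type} [TopologicalSpace Y] (A B : Set Y) : Prop :=
  ∃ (h : B ⊆ A) (ρ : C(A, B)), (∀ b : B, ρ ⟨b.1, h b.2⟩ = b) ∧
    ((⟨Set.inclusion h, continuous_inclusion h⟩ : C(B, A)).comp ρ).Homotopic (ContinuousMap.id A)

theorem DR.refl {Y : Type} [TopologicalSpace Y] (A : Set Y) : DR A A :=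
  ⟨subset_rfl, ContinuousMap.id A, fun _ => rfl, by
    have : (⟨Set.inclusion (subset_refl A), continuous_inclusion (subset_refl A)⟩ : C(A, A)).comp
      (ContinuousMap.id A) = ContinuousMap.id A := by ext x; rfl
    rw [this]⟩

theorem DR.trans {Y : Type} [TopologicalSpace Y] {A B C : Set Y} (h1 : DR A B) (h2 : DR B C) :
    DR A C := by
  obtain ⟨hBA, ρ, hρ, H⟩ := h1
  obtain ⟨hCB, κ, hκ, H'⟩ := h2
  refine ⟨hCB.trans hBA, κ.comp ρ, fun b => ?_, ?_⟩
  · simp only [ContinuousMap.comp_apply]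
    have := hρ ⟨b.1, hCB b.2⟩
    simp only at this
    rw [this]
    exact hκ b
  · have e1 : (⟨Set.inclusion (hCB.trans hBA), continuous_inclusion (hCB.trans hBA)⟩ :
        C(C, A)).comp (κ.comp ρ) = (⟨Set.inclusion hBA, continuous_inclusion hBA⟩ : C(B, A)).comp
        (((⟨Set.inclusion hCB, continuous_inclusion hCB⟩ : C(C, B)).comp κ).comp ρ) := by
      ext x; rfl
    rw [e1]
    have e2 := (ContinuousMap.Homotopic.refl
      (⟨Set.inclusion hBA, continuous_inclusion hBA⟩ : C(B, A))).comp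
        (H'.comp (ContinuousMap.Homotopic.refl ρ))
    refine e2.trans ?_
    rw [ContinuousMap.id_comp]
    exact H

theorem DR.of {Y : Type} [TopologicalSpace Y] {A B : Set Y} (H : ℝ → Y → Y)
    (hc : ContinuousOn (fun q : ℝ × Y => H q.1 q.2) (Set.Icc 0 1 ×ˢ A))
    (hA : ∀ t ∈ Set.Icc (0 : ℝ) 1, ∀ x ∈ A, H t x ∈ A) (h0 : ∀ x ∈ A, H 0 x = x)
    (h1 : ∀ x ∈ A, H 1 x ∈ B) (hB : ∀ x ∈ B, H 1 x = x) (hBA : B ⊆ A) : DR A B := by
  have hc1 : Continuous fun x : A => H 1 x.1 := by
    refine hc.comp_continuous (f := fun x : A => ((1 : ℝ), x.1)) (by fun_prop) ?_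
    intro x
    exact ⟨⟨zero_le_one, le_rfl⟩, x.2⟩
  refine ⟨hBA, ⟨fun x => ⟨H 1 x.1, h1 x.1 x.2⟩, hc1.subtype_mk _⟩, fun b => ?_, ?_⟩
  · apply Subtype.ext
    exact hB b.1 b.2
  · refine ContinuousMap.Homotopic.symm ⟨⟨⟨fun q => ⟨H q.1 q.2.1, hA q.1 ⟨q.1.2.1, q.1.2.2⟩ _ q.2.2⟩,
      ?_⟩, ?_, ?_⟩⟩
    · refine Continuous.subtype_mk ?_ _
      refine hc.comp_continuous (f := fun q : I × A => ((q.1 : ℝ), q.2.1)) (by fun_prop) ?_
      intro q
      exact ⟨⟨q.1.2.1, q.1.2.2⟩, q.2.2⟩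
    · intro x
      apply Subtype.ext
      exact h0 x.1 x.2
    · intro x
      rfl

/-- Transfer of a deformation retraction onto a circle to a sector. -/
theorem circLike_of {E G Y : Type} [TopologicalSpace E] [TopologicalSpace Y]
    {X0 : Set Y} {p : E → X0} {T : G → E → E} {A : Set X0} {C : Set Y} {a : G}
    (hDR : DR (Subtype.val '' A) C) (g : UnitAddCircle ≃ₜ C) (hC : C ⊆ X0)
    (hol : HasHol p T (⟨fun θ => ⟨(g θ).1, hC (g θ).2⟩, by fun_prop⟩ : C(UnitAddCircle, X0)) a) :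
    CircLike p T A a := by
  obtain ⟨hBA, ρ, hρ, H⟩ := hDR
  have hmem : ∀ y : C, ∃ x : X0, x ∈ A ∧ x.1 = y.1 := fun y => by
    obtain ⟨x, hx, hxy⟩ := hBA y.2
    exact ⟨x, hx, hxy⟩
  -- the homeomorphism between `A` and its image
  let e1 : C(A, ↥(Subtype.val '' A)) := ⟨fun x => ⟨x.1.1, ⟨x.1, x.2, rfl⟩⟩, by fun_prop⟩
  have hX : ∀ y : ↥(Subtype.val '' A), y.1 ∈ X0 := fun y => by
    obtain ⟨x, hx, hxy⟩ := y.2
    rw [← hxy]; exact x.2
  have hXA : ∀ y : ↥(Subtype.val '' A), (⟨y.1, hX y⟩ : X0) ∈ A := fun y => by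
    obtain ⟨x, hx, hxy⟩ := y.2
    have : x = (⟨y.1, hX y⟩ : X0) := Subtype.ext hxy
    rw [← this]; exact hx
  let e2 : C(↥(Subtype.val '' A), A) := ⟨fun y => ⟨⟨y.1, hX y⟩, hXA y⟩, by fun_prop⟩
  let ι : C(C, ↥(Subtype.val '' A)) := ⟨Set.inclusion hBA, continuous_inclusion hBA⟩
  let g1 : C(UnitAddCircle, C) := g
  let g2 : C(C, UnitAddCircle) := g.symm
  refine ⟨e2.comp (ι.comp g1), g2.comp (ρ.comp e1), ?_, ?_, ?_⟩
  · have : (g2.comp (ρ.comp e1)).comp (e2.comp (ι.comp g1)) = ContinuousMap.id _ := by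
      ext θ
      change g.symm (ρ ⟨(g θ).1, _⟩) = θ
      rw [hρ (g θ)]
      simp
    rw [this]
  · have h1 : (e2.comp (ι.comp g1)).comp (g2.comp (ρ.comp e1)) =
        e2.comp ((ι.comp ρ).comp e1) := by
      ext x
      change ((g (g.symm (ρ (e1 x)))).1) = (ρ (e1 x)).1
      rw [g.apply_symm_apply]
    rw [h1]
    have h2 := (ContinuousMap.Homotopic.refl e2).comp (H.comp (ContinuousMap.Homotopic.refl e1))
    refine h2.trans ?_
    have h3 : e2.comp ((ContinuousMap.id _).comp e1) = ContinuousMap.id _ := by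
      ext x
      rfl
    rw [h3]
  · exact hol

variable {n : ℕ}

theorem mem_supp {x : Fin n → ℝ} {v : Fin n} : v ∈ supp x ↔ x v ≠ 0 := by
  classical
  simp [supp]

theorem supp_nonempty {x : Fin n → ℝ} (h : ∑ v, x v = 1) : (supp x).Nonempty := by
  by_contra hne
  rw [Finset.not_nonempty_iff_eq_empty] at hne
  have : ∑ v, x v = 0 := Finset.sum_eq_zero fun v _ => by
    by_contra hv
    have : v ∈ supp x := mem_supp.2 hv
    rw [hne] at this
    simp at this
  rw [h] at this
  exact one_ne_zero this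

/-- A family of simplices closed under passing to faces. -/
def IsComplex (S : Fam n) : Prop :=
  (∀ s ∈ S, s.Nonempty) ∧ ∀ s ∈ S, ∀ t ⊆ s, t.Nonempty → t ∈ S

theorem isComplex_collapse {S S' : Fam n} (hS : IsComplex S) (h : CollapseStep S S') :
    IsComplex S' := by
  obtain ⟨t, v, hv, ht, hvt, hfree, rfl⟩ := h
  constructor
  · intro s hs
    exact hS.1 s (Finset.mem_of_mem_erase (Finset.mem_of_mem_erase hs))
  · intro s hs r hr hne
    simp only [Finset.mem_erase] at hs ⊢
    obtain ⟨h1, h2, h3⟩ := hs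
    refine ⟨?_, ?_, hS.2 s h3 r hr hne⟩
    · rintro rfl
      rcases hfree s h3 ((Finset.subset_insert v t).trans hr) with h | h
      · exact h2 h
      · exact h1 h
    · rintro rfl
      rcases hfree s h3 hr with h | h
      · exact h2 h
      · exact h1 h

theorem dr_collapse {S S' : Fam n} (hS : IsComplex S) (h : CollapseStep S S') :
    DR (realize S) (realize S') := by
  obtain ⟨t, v, hv, ht, hvt, hfree, rfl⟩ := h
  have htne : t.Nonempty := hS.1 t ht
  let m : (Fin n → ℝ) → ℝ := fun x => t.inf' htne x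
  have hmc : Continuous m := Continuous.finset_inf'_apply htne fun i _ => continuous_apply i
  let d : Fin n → ℝ := fun u => if u ∈ t then 1 else if u = v then -(t.card : ℝ) else 0
  have hd : ∑ u, d u = 0 := by
    have h1 : ∀ u, d u = (if u ∈ t then 1 else 0) + (if u = v then -(t.card : ℝ) else 0) := by
      intro u
      by_cases h1 : u ∈ t
      · have : u ≠ v := fun h => hv (h ▸ h1)
        simp [d, h1, this]
      · simp [d, h1]
    simp_rw [h1, Finset.sum_add_distrib]
    simp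
  have hm0 : ∀ x ∈ realize S, 0 ≤ m x := fun x hx => Finset.le_inf' _ _ fun u _ => hx.1 u
  have hmle : ∀ (x : Fin n → ℝ) (u), u ∈ t → m x ≤ x u := fun x u hu => Finset.inf'_le _ hu
  have hmex : ∀ x : Fin n → ℝ, ∃ u ∈ t, m x = x u := fun x => Finset.exists_mem_eq_inf' htne x
  have hmpos : ∀ x ∈ realize S, 0 < m x → supp x = t ∨ supp x = insert v t := fun x hx hpos =>
    hfree _ hx.2.2 fun u hu => mem_supp.2 (lt_of_lt_of_le hpos (hmle x u hu)).ne'
  let H : ℝ → (Fin n → ℝ) → (Fin n → ℝ) := fun s x u => x u - s * m x * d u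
  have hHsum : ∀ s x, x ∈ realize S → ∑ u, H s x u = 1 := fun s x hx => by
    simp only [H, Finset.sum_sub_distrib, ← Finset.mul_sum, hd, mul_zero, sub_zero]
    exact hx.2.1
  have hHnn : ∀ s ∈ Set.Icc (0 : ℝ) 1, ∀ x ∈ realize S, ∀ u, 0 ≤ H s x u := fun s hs x hx u => by
    have h0 := hm0 x hx
    simp only [H, d]
    split_ifs with h1 h2
    · have := hmle x u h1
      nlinarith [hs.1, hs.2]
    · have := hx.1 u
      have h3 : 0 ≤ s * m x * (t.card : ℝ) := by have := hs.1; positivity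
      linarith
    · simpa using hx.1 u
  have hHsupp : ∀ s x, x ∈ realize S → 0 < m x → supp (H s x) ⊆ insert v t :=
    fun s x hx hpos u hu => by
      by_contra hu'
      rw [mem_supp] at hu
      apply hu
      have h1 : u ∉ t := fun h => hu' (Finset.mem_insert_of_mem h)
      have h2 : u ≠ v := fun h => hu' (h ▸ Finset.mem_insert_self v t)
      have h3 : x u = 0 := by
        by_contra hx0
        have h4 := mem_supp.2 hx0
        rcases hmpos x hx hpos with h | h
        · rw [h] at h4; exact h1 h4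
        · rw [h] at h4; exact hu' h4
      simp [H, d, h1, h2, h3]
  have hHzero : ∀ s (x : Fin n → ℝ), m x = 0 → H s x = x := fun s x h0 => by
    funext u; simp [H, h0]
  refine DR.of H ?_ ?_ ?_ ?_ ?_ ?_
  · apply Continuous.continuousOn
    apply continuous_pi
    intro u
    have h1 : Continuous fun q : ℝ × (Fin n → ℝ) => m q.2 := hmc.comp continuous_snd
    have h2 : Continuous fun q : ℝ × (Fin n → ℝ) => q.2 u := by fun_prop
    simp only [H]
    fun_prop
  · intro s hs x hx
    rcases (hm0 x hx).lt_or_eq with hpos | h0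
    · refine ⟨hHnn s hs x hx, hHsum s x hx, ?_⟩
      exact hS.2 _ hvt _ (hHsupp s x hx hpos) (supp_nonempty (hHsum s x hx))
    · rw [hHzero s x h0.symm]; exact hx
  · intro x hx
    funext u; simp [H]
  · intro x hx
    refine ⟨hHnn 1 ⟨zero_le_one, le_rfl⟩ x hx, hHsum 1 x hx, ?_⟩
    obtain ⟨u0, hu0, hu0m⟩ := hmex x
    have hz : H 1 x u0 = 0 := by simp [H, d, hu0, hu0m]
    have hnot : u0 ∉ supp (H 1 x) := fun h => (mem_supp.1 h) hz
    have hmem : supp (H 1 x) ∈ S := by
      rcases (hm0 x hx).lt_or_eq with hpos | h0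
      · exact hS.2 _ hvt _ (hHsupp 1 x hx hpos) (supp_nonempty (hHsum 1 x hx))
      · rw [hHzero 1 x h0.symm]; exact hx.2.2
    simp only [Finset.mem_erase]
    refine ⟨fun h => hnot ?_, fun h => hnot ?_, hmem⟩
    · rw [h]; exact Finset.mem_insert_of_mem hu0
    · rw [h]; exact hu0
  · intro x hx
    have hxS : x ∈ realize S :=
      ⟨hx.1, hx.2.1, Finset.mem_of_mem_erase (Finset.mem_of_mem_erase hx.2.2)⟩
    have h3 := hx.2.2
    simp only [Finset.mem_erase] at h3
    rcases (hm0 x hxS).lt_or_eq with hpos | h0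
    · rcases hmpos x hxS hpos with h | h
      · exact absurd h h3.2.1
      · exact absurd h h3.1
    · exact hHzero 1 x h0.symm
  · intro x hx
    exact ⟨hx.1, hx.2.1, Finset.mem_of_mem_erase (Finset.mem_of_mem_erase hx.2.2)⟩

theorem dr_collapses {S S' : Fam n} (hS : IsComplex S)
    (h : Relation.ReflTransGen CollapseStep S S') :
    DR (realize S) (realize S') ∧ IsComplex S' := by
  induction h with
  | refl => exact ⟨DR.refl _, hS⟩
  | tail _ h2 ih =>
    exact ⟨ih.1.trans (dr_collapse ih.2 h2), isComplex_collapse ih.2 h2⟩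

theorem isComplex_faces (K : Fam n) : IsComplex (faces K) := by
  constructor
  · intro s hs
    simp only [faces, Finset.mem_filter] at hs
    exact hs.2.1
  · intro s hs t hts hne
    simp only [faces, Finset.mem_filter, Finset.mem_univ, true_and] at hs ⊢
    obtain ⟨_, F, hF, hsF⟩ := hs
    exact ⟨hne, F, hF, hts.trans hsF⟩

end Pool.Agent.TH640B
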