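import Mathlib
import Pool.Agent.TH640B.Base
import Pool.Agent.TH640B.Hol
import Pool.Agent.TH640B.Retract
import Pool.Agent.TH640B.CoverK

/-!
# Polygons in complexes and their holonomy

Helper file.
-/

open Finset Topology ContinuousMap

namespace Pool.Agent.TH640B

/-- piecewise linear interpolation of a sequence indexed by the integers -/
noncomputable def pl {W : Type} [AddCommGroup W] [Module ℝ W] (e : ℤ → W) (t : ℝ) : W :=
  (1 - Int.fract t) • e ⌊t⌋ + Int.fract t • e (⌊t⌋ + 1)

section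

variable {W : Type} [AddCommGroup W] [Module ℝ W]

theorem pl_add_int (e : ℤ → W) (t : ℝ) (m : ℤ) : pl e (t + m) = pl (fun k => e (k + m)) t := by
  unfold pl
  rw [Int.floor_add_intCast, Int.fract_add_intCast]
  congr 2
  congr 1
  ring

theorem pl_on (e : ℤ → W) (k : ℤ) {t : ℝ} (h1 : (k : ℝ) ≤ t) (h2 : t ≤ k + 1) :
    pl e t = (k + 1 - t) • e k + (t - k) • e (k + 1) := by
  rcases h2.lt_or_eq with h3 | h3
  · have hf : ⌊t⌋ = k := Int.floor_eq_iff.2 ⟨h1, h3⟩
    have hfr : Int.fract t = t - k := by rw [Int.fract, hf]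
    unfold pl
    rw [hf, hfr]
    congr 2
    ring
  · have hf : ⌊t⌋ = k + 1 := by rw [h3]; exact_mod_cast Int.floor_intCast (R := ℝ) (k + 1)
    have hfr : Int.fract t = 0 := by
      rw [Int.fract, hf, h3]; push_cast; ring
    unfold pl
    rw [hf, hfr, h3]
    simp

theorem continuous_pl [TopologicalSpace W] [ContinuousAdd W] [ContinuousSMul ℝ W] (e : ℤ → W) :
    Continuous (pl e) := by
  have hlf : LocallyFinite fun k : ℤ => Set.Icc (k : ℝ) (k + 1) := by
    intro x
    refine ⟨Set.Ioo (x - 1) (x + 1), Ioo_mem_nhds (by linarith) (by linarith), ?_⟩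
    apply (Set.finite_Icc (⌊x - 2⌋) (⌈x + 1⌉)).subset
    rintro k ⟨y, ⟨hy1, hy2⟩, hy3, hy4⟩
    constructor
    · have h1 : x - 2 < (k : ℝ) := by linarith
      have h2 : (⌊x - 2⌋ : ℝ) ≤ x - 2 := Int.floor_le _
      have h3 : (⌊x - 2⌋ : ℝ) < k := lt_of_le_of_lt h2 h1
      exact (by exact_mod_cast h3 : ⌊x - 2⌋ < k).le
    · have h1 : (k : ℝ) < x + 1 := by linarith
      have h2 : x + 1 ≤ (⌈x + 1⌉ : ℝ) := Int.le_ceil _
      have h3 : (k : ℝ) < ⌈x + 1⌉ := lt_of_lt_of_le h1 h2
      exact (by exact_mod_cast h3 : k < ⌈x + 1⌉).le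
  refine hlf.continuous ?_ (fun k => isClosed_Icc) fun k => ?_
  · ext x
    simp only [Set.mem_iUnion, Set.mem_univ, iff_true]
    exact ⟨⌊x⌋, Int.floor_le x, (Int.lt_floor_add_one x).le⟩
  · have : ContinuousOn (fun t : ℝ => ((k : ℝ) + 1 - t) • e k + (t - k) • e (k + 1))
        (Set.Icc (k : ℝ) (k + 1)) := by fun_prop
    exact this.congr fun t ht => pl_on e k ht.1 ht.2

theorem pl_map {W' : Type} [AddCommGroup W'] [Module ℝ W'] (f : W →ₗ[ℝ] W') (e : ℤ → W) (t : ℝ) :
    f (pl e t) = pl (fun k => f (e k)) t := by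
  unfold pl
  simp

end

variable {n : ℕ}

/-- a vertex of the simplex -/
def vtx (u : Fin n) : Fin n → ℝ := fun w => if w = u then 1 else 0

/-- a vertex of the covering -/
def vtx2 (u : Fin n) (a : ZMod 5) : Fin n → ZMod 5 → ℝ := fun w b => if w = u ∧ b = a then 1 else 0

/-- The family `C` consists of the vertices and edges of the closed polygon
`v 0, v 1, …, v l = v 0` with `l ≥ 3` distinct vertices. -/
structure IsCycle (C : Fam n) (l : ℕ) (v : ℤ → Fin n) : Prop where
  three : 3 ≤ l
  inj : ∀ i j, v i = v j ↔ (l : ℤ) ∣ i - j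
  mem : ∀ s, s ∈ C ↔ ∃ k : ℤ, s = {v k} ∨ s = {v k, v (k + 1)}

variable {C : Fam n} {l : ℕ} {v : ℤ → Fin n}

theorem IsCycle.per (h : IsCycle C l v) (k : ℤ) : v (k + l) = v k := by
  rw [h.inj]; simp

theorem IsCycle.ne (h : IsCycle C l v) (k : ℤ) : v (k + 1) ≠ v k := by
  intro h1
  rw [h.inj] at h1
  have h2 := h.three
  simp only [add_sub_cancel_left] at h1
  have h3 := Int.le_of_dvd (by norm_num) h1
  omega

theorem pl_vtx_apply (v : ℤ → Fin n) (t : ℝ) (u : Fin n) :
    pl (fun k => vtx (v k)) t u =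
      (1 - Int.fract t) * (if u = v ⌊t⌋ then 1 else 0) +
        Int.fract t * (if u = v (⌊t⌋ + 1) then 1 else 0) := by
  simp [pl, vtx]

theorem pl_vtx_mem (h : IsCycle C l v) (t : ℝ) : pl (fun k => vtx (v k)) t ∈ realize C := by
  have hf0 := Int.fract_nonneg t
  have hf1 := Int.fract_lt_one t
  refine ⟨fun u => ?_, ?_, ?_⟩
  · rw [pl_vtx_apply]
    have : 0 ≤ 1 - Int.fract t := by linarith
    split_ifs <;> nlinarith
  · simp_rw [pl_vtx_apply, Finset.sum_add_distrib, ← Finset.mul_sum]
    simp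
  · rw [h.mem]
    refine ⟨⌊t⌋, ?_⟩
    have hne := h.ne ⌊t⌋
    rcases hf0.lt_or_eq with hp | h0
    · right
      ext u
      rw [mem_supp, pl_vtx_apply]
      simp only [Finset.mem_insert, Finset.mem_singleton]
      by_cases h1 : u = v ⌊t⌋
      · subst h1
        simp [hne.symm]
        linarith
      · by_cases h2 : u = v (⌊t⌋ + 1)
        · subst h2
          simp [hne]
          exact hp.ne'
        · simp [h1, h2]
    · left
      ext u
      rw [mem_supp, pl_vtx_apply, ← h0]
      simp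

theorem pl_vtx_eq (h : IsCycle C l v) {t t' : ℝ}
    (he : pl (fun k => vtx (v k)) t = pl (fun k => vtx (v k)) t') : ∃ m : ℤ, t' = t + l * m := by
  have hf0 := Int.fract_nonneg t
  have hf1 := Int.fract_lt_one t
  have hf0' := Int.fract_nonneg t'
  have hf1' := Int.fract_lt_one t'
  have hk : t = ⌊t⌋ + Int.fract t := (Int.floor_add_fract t).symm
  have hk' : t' = ⌊t'⌋ + Int.fract t' := (Int.floor_add_fract t').symm
  set k := ⌊t⌋
  set k' := ⌊t'⌋
  set s := Int.fract t
  set s' := Int.fract t'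
  have hl := h.three
  have e1 := congrFun he (v k)
  have e2 := congrFun he (v k')
  rw [pl_vtx_apply, pl_vtx_apply] at e1 e2
  have n1 := h.ne k
  have n2 := h.ne k'
  rw [if_pos (rfl : v k = v k), if_neg n1.symm] at e1
  rw [if_pos (rfl : v k' = v k'), if_neg n2.symm] at e2
  by_cases c1 : v k = v k'
  · rw [if_pos c1, c1, if_neg n2.symm] at e1
    have hs : s = s' := by linarith
    obtain ⟨m, hm⟩ := (h.inj k k').1 c1
    refine ⟨-m, ?_⟩
    have h3 : (k' : ℝ) = k - l * m := by
      have : k' = k - l * m := by linarith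
      rw [this]; push_cast; ring
    rw [hk, hk', hs, h3]
    push_cast
    ring
  · rw [if_neg c1] at e1
    by_cases c2 : v k = v (k' + 1)
    · rw [if_neg (Ne.symm c1)] at e2
      by_cases c3 : v k' = v (k + 1)
      · exfalso
        obtain ⟨m, hm⟩ := (h.inj _ _).1 c2
        obtain ⟨m', hm'⟩ := (h.inj _ _).1 c3
        have h4 : (l : ℤ) ∣ 2 := ⟨-(m + m'), by rw [mul_neg, mul_add, ← hm, ← hm']; ring⟩
        have := Int.le_of_dvd (by norm_num) h4
        omega
      · rw [if_neg c3] at e2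
        exfalso
        simp at e2
        linarith
    · rw [if_neg c2] at e1
      exfalso
      simp at e1
      linarith

theorem pl_vtx_surj (h : IsCycle C l v) {x : Fin n → ℝ} (hx : x ∈ realize C) :
    ∃ t, pl (fun k => vtx (v k)) t = x := by
  obtain ⟨hx0, hx1, hx2⟩ := hx
  rw [h.mem] at hx2
  obtain ⟨k, hk | hk⟩ := hx2
  · have hz : ∀ u, u ≠ v k → x u = 0 := fun u hu => by
      by_contra h0
      have := mem_supp.2 h0
      rw [hk] at this
      exact hu (by simpa using this)
    have hone : x (v k) = 1 := by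
      rw [← hx1]
      symm
      apply Finset.sum_eq_single
      · intro b _ hb; exact hz b hb
      · intro hn; exact absurd (Finset.mem_univ _) hn
    refine ⟨k, ?_⟩
    funext u
    rw [pl_vtx_apply]
    simp only [Int.floor_intCast, Int.fract_intCast]
    by_cases hu : u = v k
    · subst hu; simp [hone]
    · simp [hu, hz u hu]
  · have hne := h.ne k
    have hz : ∀ u, u ≠ v k → u ≠ v (k + 1) → x u = 0 := fun u hu hu' => by
      by_contra h0
      have := mem_supp.2 h0
      rw [hk] at this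
      simp only [Finset.mem_insert, Finset.mem_singleton] at this
      rcases this with h | h
      · exact hu h
      · exact hu' h
    have hone : x (v k) + x (v (k + 1)) = 1 := by
      rw [← hx1]
      symm
      rw [← Finset.sum_pair hne.symm]
      symm
      apply Finset.sum_subset (Finset.subset_univ _)
      intro u _ hu
      simp only [Finset.mem_insert, Finset.mem_singleton, not_or] at hu
      exact hz u hu.1 hu.2
    have h0 := hx0 (v k)
    have h1 := hx0 (v (k + 1))
    refine ⟨k + x (v (k + 1)), ?_⟩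
    rw [pl_on _ k (by linarith) (by linarith)]
    funext u
    simp only [Pi.add_apply, Pi.smul_apply, vtx, smul_eq_mul]
    by_cases hu : u = v k
    · subst hu
      rw [if_pos rfl, if_neg hne.symm]
      linarith
    · by_cases hu' : u = v (k + 1)
      · subst hu'
        rw [if_neg hu, if_pos rfl]
        ring
      · rw [if_neg hu, if_neg hu', hz u hu hu']
        ring

theorem IsCycle.vtx_per (h : IsCycle C l v) (t : ℝ) :
    pl (fun k => vtx (v k)) (l * (t + 1)) = pl (fun k => vtx (v k)) (l * t) := by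
  have : (l : ℝ) * (t + 1) = l * t + ((l : ℤ) : ℝ) := by push_cast; ring
  rw [this, pl_add_int]
  simp_rw [h.per]

/-- the parametrisation of the polygon by the circle -/
noncomputable def circ (h : IsCycle C l v) : UnitAddCircle → realize C :=
  Function.Periodic.lift (c := (1 : ℝ)) (f := fun t : ℝ =>
    (⟨pl (fun k => vtx (v k)) (l * t), pl_vtx_mem h _⟩ : realize C))
    (fun t => Subtype.ext (h.vtx_per t))

theorem circ_coe (h : IsCycle C l v) (t : ℝ) :
    ((circ h (t : UnitAddCircle)) : Fin n → ℝ) = pl (fun k => vtx (v k)) (l * t) := rfl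

theorem continuous_circ (h : IsCycle C l v) : Continuous (circ h) := by
  have hq : IsQuotientMap (fun t : ℝ => (t : UnitAddCircle)) := isQuotientMap_quotient_mk'
  rw [hq.continuous_iff]
  have : (circ h) ∘ (fun t : ℝ => (t : UnitAddCircle)) = fun t : ℝ =>
    (⟨pl (fun k => vtx (v k)) (l * t), pl_vtx_mem h _⟩ : realize C) := rfl
  rw [this]
  refine Continuous.subtype_mk ?_ _
  exact (continuous_pl _).comp (by fun_prop)

/-- the polygon is homeomorphic to the circle -/
noncomputable def circHomeo (h : IsCycle C l v) : UnitAddCircle ≃ₜ realize C := by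
  have hbij : Function.Bijective (circ h) := by
    constructor
    · intro a b hab
      obtain ⟨s, rfl⟩ := QuotientAddGroup.mk_surjective a
      obtain ⟨t, rfl⟩ := QuotientAddGroup.mk_surjective b
      have h1 : pl (fun k => vtx (v k)) (l * s) = pl (fun k => vtx (v k)) (l * t) :=
        congrArg Subtype.val hab
      obtain ⟨m, hm⟩ := pl_vtx_eq h h1
      have hl : (l : ℝ) ≠ 0 := by
        have := h.three
        positivity
      change ((s : ℝ) : UnitAddCircle) = ((t : ℝ) : UnitAddCircle)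
      rw [unit_coe_eq]
      refine ⟨m, ?_⟩
      have : (l : ℝ) * t = l * (s + m) := by rw [hm]; ring
      exact mul_left_cancel₀ hl this
    · intro x
      obtain ⟨t, ht⟩ := pl_vtx_surj h x.2
      have hl : (l : ℝ) ≠ 0 := by
        have := h.three
        positivity
      refine ⟨((t / l : ℝ) : UnitAddCircle), Subtype.ext ?_⟩
      rw [circ_coe, mul_div_cancel₀ _ hl]
      exact ht
  exact Continuous.homeoOfEquivCompactToT2 (f := Equiv.ofBijective (circ h) hbij)
    (continuous_circ h)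

theorem circHomeo_apply (h : IsCycle C l v) (θ : UnitAddCircle) : circHomeo h θ = circ h θ := rfl

/-- The holonomy of a polygon is the sum of the cocycle along it. -/
theorem hol_circ {K : Fam n} {hh : Fin n → Fin n → ZMod 5} (hco : IsCocycle K hh)
    (h : IsCycle C l v) (hCK : C ⊆ faces K) {c : ℤ → ZMod 5} {a : ZMod 5}
    (hc : ∀ k, c (k + 1) = c k + hh (v k) (v (k + 1))) (hper : ∀ k, c (k + l) = c k + a)
    (hsub : realize C ⊆ realize (faces K)) :
    HasHol (covP K hh) (covT K hh)
      (⟨fun θ => ⟨(circHomeo h θ).1, hsub (circHomeo h θ).2⟩, by fun_prop⟩ :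
        C(UnitAddCircle, Body K)) a := by
  let e2 : ℤ → (Fin n → ZMod 5 → ℝ) := fun k => vtx2 (v k) (c k)
  have happ : ∀ t u b, pl e2 t u b =
      (1 - Int.fract t) * (if u = v ⌊t⌋ ∧ b = c ⌊t⌋ then 1 else 0) +
        Int.fract t * (if u = v (⌊t⌋ + 1) ∧ b = c (⌊t⌋ + 1) then 1 else 0) := by
    intro t u b
    simp [pl, e2, vtx2]
  have hproj : ∀ t, proj (pl e2 t) = pl (fun k => vtx (v k)) t := by
    intro t
    funext u
    unfold proj
    simp_rw [happ, Finset.sum_add_distrib, ← Finset.mul_sum]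
    rw [pl_vtx_apply]
    congr 2
    · by_cases h1 : u = v ⌊t⌋
      · simp [h1]
      · simp [h1]
    · by_cases h1 : u = v (⌊t⌋ + 1)
      · simp [h1]
      · simp [h1]
  have hedge : ∀ k : ℤ, ∃ F ∈ K, v k ∈ F ∧ v (k + 1) ∈ F := by
    intro k
    have h1 : ({v k, v (k + 1)} : Finset (Fin n)) ∈ C := (h.mem _).2 ⟨k, Or.inr rfl⟩
    have h2 := hCK h1
    simp only [faces, Finset.mem_filter] at h2
    obtain ⟨_, _, F, hF, hs⟩ := h2
    exact ⟨F, hF, hs (by simp), hs (by simp)⟩
  have hmem : ∀ t, pl e2 t ∈ covSet K hh := by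
    intro t
    have hf0 := Int.fract_nonneg t
    have hf1 := Int.fract_lt_one t
    refine ⟨fun u b => ?_, ?_, fun u w b b' hbb => ?_⟩
    · rw [happ]
      have : 0 ≤ 1 - Int.fract t := by linarith
      split_ifs <;> nlinarith
    · rw [hproj]; exact hsub (pl_vtx_mem h t)
    · obtain ⟨F, hF, hF1, hF2⟩ := hedge ⌊t⌋
      rw [happ, happ]
      have hstep := hc ⌊t⌋
      have hs1 : hh (v ⌊t⌋) (v ⌊t⌋) = 0 := cocycle_self hco hF hF1
      have hs2 : hh (v (⌊t⌋ + 1)) (v (⌊t⌋ + 1)) = 0 := cocycle_self hco hF hF2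
      have hs3 : hh (v (⌊t⌋ + 1)) (v ⌊t⌋) = - hh (v ⌊t⌋) (v (⌊t⌋ + 1)) :=
        cocycle_symm hco hF hF1 hF2
      have key : ∀ (P Q P' Q' : Prop) [Decidable P] [Decidable Q] [Decidable P'] [Decidable Q']
          (x y : ℝ), ¬ (P ∧ P') → ¬ (P ∧ Q') → ¬ (Q ∧ P') → ¬ (Q ∧ Q') →
          (x * (if P then 1 else 0) + y * (if Q then 1 else 0)) *
            (x * (if P' then 1 else 0) + y * (if Q' then 1 else 0)) = 0 := by
        intro P Q P' Q' _ _ _ _ x y k1 k2 k3 k4
        by_cases hP : P
        · have h1 : ¬ P' := fun h => k1 ⟨hP, h⟩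
          have h2 : ¬ Q' := fun h => k2 ⟨hP, h⟩
          simp [h1, h2]
        · by_cases hQ : Q
          · have h1 : ¬ P' := fun h => k3 ⟨hQ, h⟩
            have h2 : ¬ Q' := fun h => k4 ⟨hQ, h⟩
            simp [h1, h2]
          · simp [hP, hQ]
      apply key
      · rintro ⟨⟨rfl, rfl⟩, ⟨rfl, rfl⟩⟩
        apply hbb; rw [hs1]; simp
      · rintro ⟨⟨rfl, rfl⟩, ⟨rfl, rfl⟩⟩
        apply hbb; exact hstep
      · rintro ⟨⟨rfl, rfl⟩, ⟨rfl, rfl⟩⟩
        apply hbb; rw [hs3, hstep]; ring
      · rintro ⟨⟨rfl, rfl⟩, ⟨rfl, rfl⟩⟩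
        apply hbb; rw [hs2]; simp
  have hcontF : Continuous fun t : ℝ => (⟨pl e2 (l * t), hmem _⟩ : covSet K hh) :=
    Continuous.subtype_mk ((continuous_pl e2).comp (by fun_prop)) _
  refine ⟨⟨fun t => ⟨pl e2 (l * t), hmem _⟩, hcontF⟩, fun t => ?_, fun t => ?_⟩
  · apply Subtype.ext
    change proj (pl e2 (l * t)) = (circ h (t : UnitAddCircle)).1
    rw [hproj, circ_coe]
  · apply Subtype.ext
    change pl e2 (l * (t + 1)) = shift a (pl e2 (l * t))
    have h1 : (l : ℝ) * (t + 1) = l * t + ((l : ℤ) : ℝ) := by push_cast; ring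
    rw [h1, pl_add_int]
    funext u b
    simp only [shift]
    rw [happ]
    simp only [pl, e2, vtx2, Pi.add_apply, Pi.smul_apply, smul_eq_mul, h.per, hper]
    simp only [sub_eq_iff_eq_add]

end Pool.Agent.TH640B
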