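import Mathlib
import Pool.Agent.TH640B.Base
import Pool.Agent.TH640B.Hol
import Pool.Agent.TH640B.Retract
import Pool.Agent.TH640B.CoverK
import Pool.Agent.TH640B.Cycle

/-!
# The criterion for two trisections not to be isotopic

Helper file.
-/

open Finset Topology ContinuousMap

namespace Pool.Agent.TH640B

variable {n : ℕ}

theorem collapse_subset {S S' : Fam n} (h : Relation.ReflTransGen CollapseStep S S') :
    S' ⊆ S := by
  induction h with
  | refl => exact Finset.Subset.refl _
  | tail _ h2 ih =>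
    obtain ⟨t, v, _, _, _, _, rfl⟩ := h2
    exact ((Finset.erase_subset _ _).trans (Finset.erase_subset _ _)).trans ih

theorem realize_mono {S S' : Fam n} (h : S' ⊆ S) : realize S' ⊆ realize S :=
  fun _ hx => ⟨hx.1, hx.2.1, h hx.2.2⟩

theorem mem_faces {M : Fam n} {s : Finset (Fin n)} :
    s ∈ faces M ↔ s.Nonempty ∧ ∃ F ∈ M, s ⊆ F := by
  simp [faces]

theorem faces_mono {M M' : Fam n} (h : M ⊆ M') : faces M ⊆ faces M' := by
  intro s hs
  rw [mem_faces] at hs ⊢
  obtain ⟨h1, F, hF, h2⟩ := hs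
  exact ⟨h1, F, h hF, h2⟩

theorem part_subset (K : Fam n) (c : Finset (Fin n) → Fin 3) (i : Fin 3) : part K c i ⊆ K :=
  Finset.filter_subset _ _

theorem image_sector (K : Fam n) (c : Finset (Fin n) → Fin 3) (i : Fin 3) :
    Subtype.val '' sector K c i = realize (faces (part K c i)) := by
  ext x
  constructor
  · rintro ⟨y, hy, rfl⟩
    exact hy
  · intro hx
    exact ⟨⟨x, realize_mono (faces_mono (part_subset K c i)) hx⟩, hx, rfl⟩

theorem circLike_sector {K : Fam n} {hh : Fin n → Fin n → ZMod 5} (hco : IsCocycle K hh)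
    {c' : Finset (Fin n) → Fin 3} {i : Fin 3} {C : Fam n} {l : ℕ} {v : ℤ → Fin n}
    (hcol : Relation.ReflTransGen CollapseStep (faces (part K c' i)) C) (h : IsCycle C l v)
    {c : ℤ → ZMod 5} {a : ZMod 5}
    (hc : ∀ k, c (k + 1) = c k + hh (v k) (v (k + 1))) (hper : ∀ k, c (k + l) = c k + a) :
    CircLike (covP K hh) (covT K hh) (sector K c' i) a := by
  have hCK : C ⊆ faces K := (collapse_subset hcol).trans (faces_mono (part_subset K c' i))
  refine circLike_of (C := realize C) ?_
    (circHomeo h) (realize_mono hCK) (hol_circ hco h hCK hc hper (realize_mono hCK))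
  rw [image_sector]
  exact (dr_collapses (isComplex_faces _) hcol).1

theorem not_isotopic {K : Fam n} {hh : Fin n → Fin n → ZMod 5} (hco : IsCocycle K hh)
    {c₁ c₂ : Finset (Fin n) → Fin 3} {a₁ a₂ : Fin 3 → ZMod 5}
    (h1 : ∀ i, CircLike (covP K hh) (covT K hh) (sector K c₁ i) (a₁ i))
    (h2 : ∀ i, CircLike (covP K hh) (covT K hh) (sector K c₂ i) (a₂ i))
    (hperm : ∀ σ : Equiv.Perm (Fin 3), ∃ i, a₁ i ≠ a₂ (σ i) ∧ a₁ i ≠ -a₂ (σ i))
    (X : Type) [TopologicalSpace X] (e : Body K ≃ₜ X) (φ : X ≃ₜ X)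
    (hφ : (φ : C(X, X)).Homotopic (ContinuousMap.id X)) (σ : Equiv.Perm (Fin 3)) :
    ¬ ∀ i, φ '' (e '' sector K c₁ i) = e '' sector K c₂ (σ i) := by
  intro hall
  obtain ⟨i, hi1, hi2⟩ := hperm σ
  let ψ : Body K ≃ₜ Body K := (e.trans φ).trans e.symm
  have hψ : (ψ : C(Body K, Body K)).Homotopic (ContinuousMap.id _) := by
    have e1 : (ψ : C(Body K, Body K)) =
        (e.symm : C(X, Body K)).comp ((φ : C(X, X)).comp (e : C(Body K, X))) := by
      ext x; rfl
    rw [e1]
    have e2 := (ContinuousMap.Homotopic.refl (e.symm : C(X, Body K))).comp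
      (hφ.comp (ContinuousMap.Homotopic.refl (e : C(Body K, X))))
    have e3 : (e.symm : C(X, Body K)).comp ((ContinuousMap.id X).comp (e : C(Body K, X))) =
        ContinuousMap.id _ := by
      ext1 x
      exact e.symm_apply_apply x
    rw [e3] at e2
    exact e2
  have him : ψ '' sector K c₁ i = sector K c₂ (σ i) := by
    have h3 : ψ '' sector K c₁ i = e.symm '' (φ '' (e '' sector K c₁ i)) := by
      rw [Set.image_image, Set.image_image]
      rfl
    rw [h3, hall i]
    rw [Set.image_image]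
    simp
  rcases circLike_homeo (pcov_K hco) (h1 i) (h2 (σ i)) ψ hψ him with h | h
  · exact hi1 h
  · exact hi2 h

theorem mem_carrier {K M : Fam n} {x : Body K} : x ∈ carrier K M ↔ supp x.1 ∈ faces M :=
  ⟨fun h => h.2.2, fun h => ⟨x.2.1, x.2.2.1, h⟩⟩

theorem mem_sector {K : Fam n} {c : Finset (Fin n) → Fin 3} {i : Fin 3} {x : Body K} :
    x ∈ sector K c i ↔ supp x.1 ∈ faces (part K c i) := mem_carrier

theorem cover_sector (K : Fam n) (c : Finset (Fin n) → Fin 3) : ⋃ i, sector K c i = Set.univ := by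
  ext x
  simp only [Set.mem_iUnion, Set.mem_univ, iff_true]
  obtain ⟨h1, F, hF, h2⟩ := mem_faces.1 x.2.2.2
  refine ⟨c F, mem_sector.2 (mem_faces.2 ⟨h1, F, ?_, h2⟩)⟩
  rw [part, Finset.mem_filter]
  exact ⟨hF, rfl⟩

theorem core_eq_carrier {K S : Fam n} {c : Finset (Fin n) → Fin 3}
    (h : faces (part K c 0) ∩ faces (part K c 1) ∩ faces (part K c 2) = faces S) :
    core K c = carrier K S := by
  ext x
  rw [core, Set.mem_iInter, mem_carrier, ← h, Finset.mem_inter, Finset.mem_inter]
  constructor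
  · intro hx
    exact ⟨⟨mem_sector.1 (hx 0), mem_sector.1 (hx 1)⟩, mem_sector.1 (hx 2)⟩
  · rintro ⟨⟨h0, h1⟩, h2⟩ i
    fin_cases i
    · exact mem_sector.2 h0
    · exact mem_sector.2 h1
    · exact mem_sector.2 h2

theorem faces_boundary (M : Fam n) : faces (boundary M) ⊆ faces M := by
  intro s hs
  rw [mem_faces] at hs ⊢
  obtain ⟨h1, R, hR, h2⟩ := hs
  rw [boundary, Finset.mem_filter] at hR
  obtain ⟨v, hv⟩ := Finset.card_pos.1 (by rw [hR.2]; exact one_pos)
  rw [up, Finset.mem_filter] at hv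
  exact ⟨h1, _, hv.2.2, h2.trans (Finset.subset_insert _ _)⟩

theorem wall_of {K H : Fam n} {c : Finset (Fin n) → Fin 3} {i j : Fin 3}
    (h : faces (part K c i) ∩ faces (part K c j) = faces H)
    (hb : H ⊆ boundary (part K c i) ∩ boundary (part K c j)) :
    sector K c i ∩ sector K c j = carrier K H ∧
    carrier K (boundary (part K c i)) ∩ carrier K (boundary (part K c j)) = carrier K H := by
  constructor
  · ext x
    rw [Set.mem_inter_iff, mem_sector, mem_sector, mem_carrier, ← h, Finset.mem_inter]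
  · ext x
    rw [Set.mem_inter_iff, mem_carrier, mem_carrier, mem_carrier]
    constructor
    · rintro ⟨h1, h2⟩
      rw [← h, Finset.mem_inter]
      exact ⟨faces_boundary _ h1, faces_boundary _ h2⟩
    · intro hx
      exact ⟨faces_mono (fun R hR => (Finset.mem_inter.1 (hb hR)).1) hx,
        faces_mono (fun R hR => (Finset.mem_inter.1 (hb hR)).2) hx⟩

end Pool.Agent.TH640B
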