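import Mathlib
import Pool.Agent.TH640B.Base
import Pool.Agent.TH640B.Bits
import Pool.Agent.TH640B.Trees
import Pool.Agent.TH640B.Coll
import Pool.Agent.TH640B.NotIso

/-!
# Parts, walls and cocycles

Helper file.
-/

open Finset

namespace Pool.Agent.TH640B

variable {n : ℕ}

theorem eqB_iff {a b : Bool} : eqB a b = true ↔ (a = true ↔ b = true) := by
  cases a <;> cases b <;> simp [eqB, notB]

/-! ### Parts -/

/-- the colour with number `i` -/
def fin3 (i : ℕ) : Fin 3 := if i = 0 then 0 else if i = 1 then 1 else 2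

/-- the mask of a set -/
noncomputable def mk (s : Finset (Fin n)) : ℕ := Classical.choose (exists_fs s)

theorem mk_fs {k : ℕ} (hk : k < 2 ^ n) : mk (fs k : Finset (Fin n)) = k :=
  fs_inj (Classical.choose_spec (exists_fs (fs k : Finset (Fin n)))).1 hk
    (Classical.choose_spec (exists_fs (fs k : Finset (Fin n)))).2

/-- the colouring of the facets, given by a function of the entries of a tree -/
noncomputable def colF (tT : BT ℕ) (col : ℕ → ℕ) (F : Finset (Fin n)) : Fin 3 :=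
  fin3 (btGet 0 col (mk F) tT)

theorem fin3_eq {a i : ℕ} (ha : a ≤ 2) (hi : i ≤ 2) : fin3 a = fin3 i ↔ a = i := by
  unfold fin3
  have h1 : a = 0 ∨ a = 1 ∨ a = 2 := by omega
  have h2 : i = 0 ∨ i = 1 ∨ i = 2 := by omega
  rcases h1 with rfl | rfl | rfl <;> rcases h2 with rfl | rfl | rfl <;> simp

theorem partOK_sound {tT : BT ℕ} {col : ℕ → ℕ} {i : ℕ} (hi : i ≤ 2) {pT : BT ℕ}
    (hb : bst tT 0 (2 ^ n) = true) (h : partOK tT col i pT = true)
    (hp : bst pT 0 (2 ^ n) = true) :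
    part (famT tT : Fam n) (colF tT col) (fin3 i) = famT pT := by
  unfold partOK at h
  rw [andB_iff] at h
  obtain ⟨h1, h2⟩ := h
  have hcol : ∀ k w, inT tT k w → colF tT col (fs k : Finset (Fin n)) = fin3 (col w) := by
    intro k w hk
    unfold colF
    rw [mk_fs (bst_get (β := Bool) hb hk).2.1, (bst_get (β := ℕ) hb hk).2.2]
  ext F
  rw [part, Finset.mem_filter]
  constructor
  · rintro ⟨hF, hc⟩
    obtain ⟨k, w, hk, rfl⟩ := mem_famT.1 hF
    rw [hcol k w hk] at hc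
    have h3 := btAll_inT h1 hk
    rw [andB_iff, eqB_iff, nbeq_iff] at h3
    have h4 : col w ≤ 2 := Nat.le_of_ble_eq_true h3.2
    obtain ⟨y, hy⟩ := mem_inT (h3.1.1 ((fin3_eq h4 hi).1 hc))
    exact mem_famT.2 ⟨k, y, hy, rfl⟩
  · intro hF
    obtain ⟨k, y, hk, rfl⟩ := mem_famT.1 hF
    obtain ⟨w, hw⟩ := mem_inT (btAll_inT h2 hk)
    refine ⟨mem_famT.2 ⟨k, w, hw, rfl⟩, ?_⟩
    rw [hcol k w hw]
    have h3 := btAll_inT h1 hw
    rw [andB_iff, eqB_iff, nbeq_iff] at h3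
    rw [h3.1.2 ((btMem_iff hp).2 ⟨y, hk⟩)]

/-! ### Intersections -/

theorem bdryOK_sound {c : ℕ} {f1 f2 fT : BT ℕ} {r1 r2 : BT RD} (U1 : UpSpec n c f1 r1)
    (U2 : UpSpec n c f2 r2) (h : bdryOK r1 r2 fT = true) :
    (famT fT : Fam n) ⊆ boundary (famT f1) ∩ boundary (famT f2) := by
  intro s hs
  obtain ⟨k, y, hk, rfl⟩ := mem_famT.1 hs
  have h1 := btAll_inT h hk
  rw [andB_iff] at h1
  obtain ⟨p1, hp1, e1⟩ := get_true h1.1
  obtain ⟨p2, hp2, e2⟩ := get_true h1.2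
  rw [nbeq_iff] at e1 e2
  exact Finset.mem_inter.2 ⟨(up_card U1).2 ⟨k, p1, hp1, e1, rfl⟩,
    (up_card U2).2 ⟨k, p2, hp2, e2, rfl⟩⟩

/-! ### Cocycle -/

theorem cocOK_sound {tab : ℕ → ℕ → ℕ} {fT : BT ℕ} (h : cocOK tab fT = true) :
    IsCocycle (famT fT : Fam n) (fun u v => ((tab u v : ℕ) : ZMod 5)) := by
  intro F hF u hu v hv w hw
  obtain ⟨k, y, hk, rfl⟩ := mem_famT.1 hF
  have hp := btAll_inT h hk
  have key : ∀ x y : Fin n, x ∈ (fs k : Finset (Fin n)) → y ∈ (fs k : Finset (Fin n)) →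
      ((tab (Nat.log2 k) x : ℕ) : ZMod 5) + ((tab x y : ℕ) : ZMod 5) =
        ((tab (Nat.log2 k) y : ℕ) : ZMod 5) := by
    intro x y hx hy
    have h4 := nbeq_iff.1 (bitAll_sound (bitAll_sound hp (mem_fs.1 hx)) (mem_fs.1 hy))
    have h5 : (tab (Nat.log2 k) x + tab x y) % 5 = tab (Nat.log2 k) y % 5 := h4
    have h6 := (ZMod.natCast_eq_natCast_iff' (tab (Nat.log2 k) x + tab x y)
      (tab (Nat.log2 k) y) 5).2 h5
    rw [← h6]; push_cast; ring
  have k1 := key u v hu hv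
  have k2 := key v w hv hw
  have k3 := key u w hu hw
  have e1 : ((tab u v : ℕ) : ZMod 5) = (tab (Nat.log2 k) v : ℕ) - (tab (Nat.log2 k) u : ℕ) := by
    rw [← k1]; ring
  have e2 : ((tab v w : ℕ) : ZMod 5) = (tab (Nat.log2 k) w : ℕ) - (tab (Nat.log2 k) v : ℕ) := by
    rw [← k2]; ring
  have e3 : ((tab u w : ℕ) : ZMod 5) = (tab (Nat.log2 k) w : ℕ) - (tab (Nat.log2 k) u : ℕ) := by
    rw [← k3]; ring
  simp only
  rw [e1, e2, e3]
  ring

end Pool.Agent.TH640B
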