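import Mathlib
import Pool.Agent.TH640B.Base
import Pool.Agent.TH640B.Bits

/-!
# Bistellar moves on packed lists

Helper file.  A list of masks is packed into one natural number with fields of `w` bits.  Then one
bistellar move is checked with a bounded number of operations on big natural numbers.
-/

open Finset

namespace Pool.Agent.TH640B

theorem testBit_fld (w p s i : ℕ) :
    (fld w p s).testBit i = (decide (i < w) && s.testBit (w * p + i)) := by
  change ((s >>> (w * p)) % 2 ^ w).testBit i = _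
  rw [Nat.testBit_mod_two_pow, Nat.testBit_shiftRight]

theorem fld_lt (w p s : ℕ) : fld w p s < 2 ^ w := Nat.mod_lt _ (Nat.two_pow_pos w)

theorem fld_land (w p x y : ℕ) : fld w p (x &&& y) = fld w p x &&& fld w p y := by
  apply Nat.eq_of_testBit_eq
  intro i
  rw [Nat.testBit_and, testBit_fld, testBit_fld, testBit_fld, Nat.testBit_and]
  cases decide (i < w) <;> simp

theorem fld_xor (w p x y : ℕ) : fld w p (x ^^^ y) = fld w p x ^^^ fld w p y := by
  apply Nat.eq_of_testBit_eq
  intro i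
  rw [Nat.testBit_xor, testBit_fld, testBit_fld, testBit_fld, Nat.testBit_xor]
  cases decide (i < w) <;> simp

theorem fld_lor (w p x y : ℕ) : fld w p (x ||| y) = fld w p x ||| fld w p y := by
  apply Nat.eq_of_testBit_eq
  intro i
  rw [Nat.testBit_or, testBit_fld, testBit_fld, testBit_fld, Nat.testBit_or]
  cases decide (i < w) <;> simp

theorem fld_zero (w x : ℕ) : fld w 0 x = x % 2 ^ w := by
  change ((x >>> (w * 0)) % 2 ^ w) = _
  simp

theorem fld_succ (w p x : ℕ) : fld w (p + 1) x = fld w p (x / 2 ^ w) := by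
  change ((x >>> (w * (p + 1))) % 2 ^ w) = (((x / 2 ^ w) >>> (w * p)) % 2 ^ w)
  rw [Nat.shiftRight_eq_div_pow, Nat.shiftRight_eq_div_pow, Nat.div_div_eq_div_mul, ← pow_add]
  congr 3
  ring

theorem fld_add (w : ℕ) (p : ℕ) : ∀ (x y : ℕ),
    (∀ q, fld w q x + fld w q y < 2 ^ w) → fld w p (x + y) = fld w p x + fld w p y := by
  induction p with
  | zero =>
    intro x y h
    have h0 := h 0
    rw [fld_zero, fld_zero] at h0
    rw [fld_zero, fld_zero, fld_zero, Nat.add_mod, Nat.mod_eq_of_lt h0]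
  | succ p ih =>
    intro x y h
    have h0 := h 0
    rw [fld_zero, fld_zero] at h0
    rw [fld_succ, fld_succ, fld_succ]
    have hpos : 0 < 2 ^ w := by positivity
    have hdiv : (x + y) / 2 ^ w = x / 2 ^ w + y / 2 ^ w := by
      rw [Nat.add_div hpos, if_neg (not_le.2 h0), add_zero]
    rw [hdiv]
    apply ih
    intro q
    have := h (q + 1)
    rw [fld_succ, fld_succ] at this
    exact this

/-- the number with `m` fields equal to `b` -/
def repN (w b : ℕ) : ℕ → ℕ
  | 0 => 0
  | m + 1 => b + 2 ^ w * repN w b m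

theorem repN_mul (w b m : ℕ) : repN w 1 m * b = repN w b m := by
  induction m with
  | zero => simp [repN]
  | succ m ih =>
    rw [repN, repN, add_mul, one_mul, mul_assoc, ih]

theorem repN_geom (w m : ℕ) : repN w 1 m * (2 ^ w - 1) + 1 = 2 ^ (w * m) := by
  induction m with
  | zero => simp [repN]
  | succ m ih =>
    rw [repN]
    have hpos : 1 ≤ 2 ^ w := Nat.one_le_two_pow
    have h1 : (1 + 2 ^ w * repN w 1 m) * (2 ^ w - 1) + 1 =
        (2 ^ w - 1) + 1 + 2 ^ w * (repN w 1 m * (2 ^ w - 1)) := by ring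
    have h2 : repN w 1 m * (2 ^ w - 1) = 2 ^ (w * m) - 1 := by omega
    rw [h1, h2, Nat.sub_add_cancel hpos]
    have h3 : 1 ≤ 2 ^ (w * m) := Nat.one_le_two_pow
    rw [Nat.mul_sub, mul_one]
    have h4 : 2 ^ w ≤ 2 ^ w * 2 ^ (w * m) := Nat.le_mul_of_pos_right _ (by positivity)
    rw [Nat.add_sub_cancel' h4, ← pow_add]
    congr 1
    ring

theorem fld_repN {w b : ℕ} (hb : b < 2 ^ w) (m p : ℕ) :
    fld w p (repN w b m) = if p < m then b else 0 := by
  induction m generalizing p with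
  | zero =>
    change ((0 >>> (w * p)) % 2 ^ w) = _
    simp
  | succ m ih =>
    rw [repN]
    have hpos : 0 < 2 ^ w := by positivity
    cases p with
    | zero =>
      rw [fld_zero, Nat.add_mul_mod_self_left, Nat.mod_eq_of_lt hb]
      simp
    | succ p =>
      rw [fld_succ, Nat.add_mul_div_left _ _ hpos, Nat.div_eq_of_lt hb, zero_add, ih]
      simp

theorem ones_eq {w : ℕ} (hw : 0 < w) (m : ℕ) : ones w m = repN w 1 m := by
  have h1 : 2 ^ (w * m) - 1 = repN w 1 m * (2 ^ w - 1) := by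
    have := repN_geom w m
    omega
  have h2 : 2 ≤ 2 ^ w := by
    calc 2 = 2 ^ 1 := by norm_num
      _ ≤ 2 ^ w := Nat.pow_le_pow_right (by norm_num) hw
  change (2 ^ (w * m) - 1) / (2 ^ w - 1) = _
  rw [h1, Nat.mul_div_cancel _ (by omega)]

theorem fld_nmark {w m b s p : ℕ} (hw : 0 < w) (hb : b < 2 ^ (w - 1)) (hp : p < m) :
    fld w p (nmark w (ones w m) b s) =
      if subB b (fld w p s) = true then 0 else 2 ^ (w - 1) := by
  have hw1 : 2 ^ w = 2 * 2 ^ (w - 1) := by
    rw [← pow_succ']; congr 1; omega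
  have hpos : 0 < 2 ^ (w - 1) := by positivity
  change fld w p (((s &&& (ones w m * b)) ^^^ (ones w m * b)) +
    (ones w m * (2 ^ (w - 1) - 1)) &&& (ones w m * 2 ^ (w - 1))) = _
  rw [ones_eq hw, repN_mul, repN_mul, repN_mul, fld_land]
  have hbw : b < 2 ^ w := by omega
  have hx : ∀ q, fld w q ((s &&& repN w b m) ^^^ repN w b m) < 2 ^ (w - 1) := by
    intro q
    rw [fld_xor, fld_land, fld_repN hbw]
    split_ifs
    · exact Nat.xor_lt_two_pow (lt_of_le_of_lt Nat.and_le_right hb) hb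
    · simp
  have hy : ∀ q, fld w q (repN w (2 ^ (w - 1) - 1) m) ≤ 2 ^ (w - 1) - 1 := by
    intro q
    rw [fld_repN (by omega)]
    split_ifs <;> omega
  rw [fld_add w p _ _ (by
    intro q
    have h1 := hx q
    have h2 := hy q
    omega), fld_repN (by omega : 2 ^ (w - 1) < 2 ^ w), if_pos hp,
    fld_repN (by omega : 2 ^ (w - 1) - 1 < 2 ^ w), if_pos hp, fld_xor, fld_land, fld_repN hbw,
    if_pos hp]
  set y := (fld w p s &&& b) ^^^ b with hyd
  have hy1 : y < 2 ^ (w - 1) := Nat.xor_lt_two_pow (lt_of_le_of_lt Nat.and_le_right hb) hb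
  have hsub : subB b (fld w p s) = true ↔ y = 0 := by
    unfold subB
    rw [nbeq_iff]
    change b &&& fld w p s = b ↔ _
    rw [hyd, Nat.xor_eq_zero_iff, Nat.and_comm]
  by_cases h0 : y = 0
  · rw [if_pos (hsub.2 h0), h0, zero_add]
    apply Nat.eq_of_testBit_eq
    intro i
    rw [Nat.testBit_and, Nat.testBit_two_pow, Nat.zero_testBit]
    by_cases hi : w - 1 = i
    · subst hi
      rw [Nat.testBit_lt_two_pow (by omega)]
      rfl
    · simp [hi]
  · rw [if_neg (fun h => h0 (hsub.1 h))]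
    have h1 : 2 ^ (w - 1) ≤ y + (2 ^ (w - 1) - 1) := by omega
    have h2 : y + (2 ^ (w - 1) - 1) < 2 ^ (w - 1 + 1) := by rw [pow_succ]; omega
    apply Nat.eq_of_testBit_eq
    intro i
    rw [Nat.testBit_and, Nat.testBit_two_pow]
    by_cases hi : w - 1 = i
    · subst hi
      rw [Nat.testBit_eq_decide_div_mod_eq]
      have h3 : (y + (2 ^ (w - 1) - 1)) / 2 ^ (w - 1) = 1 := by
        apply Nat.div_eq_of_lt_le
        · omega
        · rw [pow_succ] at h2; omega
      rw [h3]
      simp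
    · simp [hi]

theorem fld_put {w q x p : ℕ} (hx : x < 2 ^ w) : fld w p (put w q x) = if p = q then x else 0 := by
  apply Nat.eq_of_testBit_eq
  intro i
  rw [testBit_fld]
  change (decide (i < w) && (x <<< (w * q)).testBit (w * p + i)) = _
  rw [Nat.testBit_shiftLeft]
  by_cases hpq : p = q
  · subst hpq
    rw [if_pos rfl]
    by_cases hi : i < w
    · simp [hi]
    · have : x.testBit i = false :=
        Nat.testBit_lt_two_pow (lt_of_lt_of_le hx (Nat.pow_le_pow_right (by norm_num) (by omega)))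
      simp [hi, this]
  · rw [if_neg hpq, Nat.zero_testBit]
    by_cases hi : i < w
    · rcases Nat.lt_or_gt_of_ne hpq with h | h
      · have h1 : w * (p + 1) ≤ w * q := Nat.mul_le_mul_left w h
        rw [mul_add, mul_one] at h1
        have : ¬ (w * q ≤ w * p + i) := by omega
        simp [this]
      · have h1 : w * (q + 1) ≤ w * p := Nat.mul_le_mul_left w h
        rw [mul_add, mul_one] at h1
        have h2 : x.testBit (w * p + i - w * q) = false :=
          Nat.testBit_lt_two_pow (lt_of_lt_of_le hx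
            (Nat.pow_le_pow_right (by norm_num) (by omega)))
        simp [h2]
    · simp [hi]

theorem fld_puts_const {w c p : ℕ} (hc : c < 2 ^ w) (A : List (ℕ × ℕ)) :
    fld w p (puts w (fun _ => c) A) = if (∃ q ∈ A, q.2 = p) then c else 0 := by
  induction A with
  | nil =>
    change ((0 >>> (w * p)) % 2 ^ w) = _
    simp
  | cons q A ih =>
    have he : puts w (fun _ => c) (q :: A) = (put w q.2 c) ||| (puts w (fun _ => c) A) := rfl
    rw [he, fld_lor, ih, fld_put hc]
    by_cases h1 : p = q.2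
    · have h2 : ∃ r ∈ q :: A, r.2 = p := ⟨q, by simp, h1.symm⟩
      rw [if_pos h1, if_pos h2]
      by_cases h3 : ∃ r ∈ A, r.2 = p
      · rw [if_pos h3]; simp
      · rw [if_neg h3]; simp
    · rw [if_neg h1]
      by_cases h2 : ∃ q ∈ A, q.2 = p
      · rw [if_pos h2]
        obtain ⟨r, hr, hrp⟩ := h2
        rw [if_pos ⟨r, by simp [hr], hrp⟩]
        simp
      · rw [if_neg h2, if_neg]
        · simp
        · rintro ⟨r, hr, hrp⟩
          rcases List.mem_cons.1 hr with h3 | h3
          · exact h1 (by rw [← hrp, h3])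
          · exact h2 ⟨r, h3, hrp⟩

theorem fld_puts_not {w p : ℕ} {x : ℕ → ℕ} (A : List (ℕ × ℕ)) (hx : ∀ q ∈ A, x q.1 < 2 ^ w)
    (hp : ∀ q ∈ A, q.2 ≠ p) : fld w p (puts w x A) = 0 := by
  induction A with
  | nil =>
    change ((0 >>> (w * p)) % 2 ^ w) = _
    simp
  | cons q A ih =>
    have he : puts w x (q :: A) = (put w q.2 (x q.1)) ||| (puts w x A) := rfl
    rw [he, fld_lor, ih (fun r hr => hx r (by simp [hr])) (fun r hr => hp r (by simp [hr])),
      fld_put (hx q (by simp)), if_neg (fun h => hp q (by simp) h.symm)]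
    simp

variable {n : ℕ}

/-- the family of the nonzero fields -/
noncomputable def famF (w m s : ℕ) : Fam n :=
  ((range m).filter fun p => fld w p s ≠ 0).image fun p => fs (fld w p s)

theorem mem_famF {w m s : ℕ} {F : Finset (Fin n)} :
    F ∈ (famF w m s : Fam n) ↔ ∃ p < m, fld w p s ≠ 0 ∧ fs (fld w p s) = F := by
  unfold famF
  rw [Finset.mem_image]
  constructor
  · rintro ⟨p, hp, rfl⟩
    rw [Finset.mem_filter, Finset.mem_range] at hp
    exact ⟨p, hp.1, hp.2, rfl⟩
  · rintro ⟨p, hp, h0, rfl⟩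
    exact ⟨p, by rw [Finset.mem_filter, Finset.mem_range]; exact ⟨hp, h0⟩, rfl⟩

theorem fld_clr {w s p : ℕ} (A : List (ℕ × ℕ)) :
    fld w p (clr w s A) = if (∃ q ∈ A, q.2 = p) then 0 else fld w p s := by
  change fld w p (s ^^^ (s &&& (puts w (fun _ => 2 ^ w - 1) A))) = _
  rw [fld_xor, fld_land, fld_puts_const (Nat.sub_lt (by positivity) one_pos)]
  split_ifs
  · have h : fld w p s &&& (2 ^ w - 1) = fld w p s := by
      rw [Nat.and_two_pow_sub_one_eq_mod, Nat.mod_eq_of_lt (fld_lt w p s)]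
    rw [h, Nat.xor_self]
  · simp

theorem mskA_eq (A : List (ℕ × ℕ)) : mskA A = msk (mapL Prod.fst A) := by
  induction A with
  | nil => rfl
  | cons q A ih =>
    change Nat.lor (Nat.pow 2 q.1) (mskA A) = Nat.lor (Nat.pow 2 q.1) (msk (mapL Prod.fst A))
    rw [ih]

theorem testBit_mskA (A : List (ℕ × ℕ)) (i : ℕ) :
    (mskA A).testBit i = true ↔ ∃ q ∈ A, q.1 = i := by
  rw [mskA_eq, testBit_msk, mapL_eq, List.mem_map]

theorem okS_sound {w m : ℕ} {A B : List (ℕ × ℕ)} {s : ℕ} (hw : n < w)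
    (h : okS n w m (ones w m) A B s = true) :
    Flip (famF w m s : Fam n) (famF w m (nextS w A B s)) := by
  unfold okS at h
  simp only [andB_iff, allL_iff, notB_iff, nbeq_iff, nblt_iff] at h
  obtain ⟨hA, hB, hA0, hB0, hdis, h1, h2⟩ := h
  have hw0 : 0 < w := by omega
  have ha : mskA A < 2 ^ n := lt_of_bits fun i hi => by
    obtain ⟨q, hq, rfl⟩ := (testBit_mskA A i).1 hi
    exact (hA q hq).1
  have hb : mskA B < 2 ^ n := lt_of_bits fun i hi => by
    obtain ⟨q, hq, rfl⟩ := (testBit_mskA B i).1 hi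
    exact (hB q hq).1
  have hnw : 2 ^ n ≤ 2 ^ (w - 1) := Nat.pow_le_pow_right (by norm_num) (by omega)
  have hw1 : 2 ^ (w - 1) < 2 ^ w := Nat.pow_lt_pow_right (by norm_num) (by omega)
  set D := Nat.lor (mskA A) (mskA B) with hD
  have hmA : ∀ v : Fin n, v ∈ (fs (mskA A) : Finset (Fin n)) ↔ ∃ q ∈ A, q.1 = (v : ℕ) :=
    fun v => by rw [mem_fs, testBit_mskA]
  have hmB : ∀ v : Fin n, v ∈ (fs (mskA B) : Finset (Fin n)) ↔ ∃ q ∈ B, q.1 = (v : ℕ) :=
    fun v => by rw [mem_fs, testBit_mskA]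
  have hdisj : Disjoint (fs (mskA A) : Finset (Fin n)) (fs (mskA B)) := by
    rw [Finset.disjoint_left]
    intro v hv hv'
    rw [mem_fs] at hv hv'
    have : (Nat.land (mskA A) (mskA B)).testBit v = true := by
      change ((mskA A) &&& (mskA B)).testBit v = true
      rw [Nat.testBit_and, hv, hv']; rfl
    rw [hdis] at this
    simp at this
  have hne : ∀ m : ℕ, m ≠ 0 → m < 2 ^ n → (fs m : Finset (Fin n)).Nonempty := by
    intro m hm hlt
    by_contra hc
    rw [Finset.not_nonempty_iff_eq_empty] at hc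
    apply hm
    apply fs_inj hlt (by positivity)
    rw [hc]
    ext i
    simp [mem_fs]
  have hDer : ∀ v (hv : v < n), (∃ q ∈ A, q.1 = v) ∨ (∃ q ∈ B, q.1 = v) →
      (fs (Nat.xor D (Nat.pow 2 v)) : Finset (Fin n)) =
        ((fs (mskA A)) ∪ (fs (mskA B))).erase ⟨v, hv⟩ := by
    intro v hv hvAB
    have h0 := fs_xor_erase (n := n) (m := D) (v := ⟨v, hv⟩) (by
      change ((mskA A) ||| (mskA B)).testBit v = true
      rw [Nat.testBit_or]
      rcases hvAB with h | h
      · rw [(testBit_mskA A v).2 h]; rfl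
      · rw [(testBit_mskA B v).2 h]; simp)
    rw [← fs_or]
    exact h0
  have hR : ∀ p < m, fld w p (Nat.mul (ones w m) (Nat.pow 2 (Nat.sub w 1))) = 2 ^ (w - 1) := by
    intro p hp
    change fld w p (ones w m * 2 ^ (w - 1)) = _
    rw [ones_eq hw0, repN_mul, fld_repN hw1, if_pos hp]
  have hstar : ∀ p < m, subB (mskA B) (fld w p s) = true ↔ ∃ q ∈ A, q.2 = p := by
    intro p hp
    have h3 := congrArg (fld w p) h1
    change fld w p (nmark w (ones w m) (mskA B) s ^^^
      (Nat.mul (ones w m) (Nat.pow 2 (Nat.sub w 1)))) =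
        fld w p (puts w (fun _ => 2 ^ (w - 1)) A) at h3
    rw [fld_xor, fld_nmark hw0 (by omega) hp, hR p hp, fld_puts_const hw1] at h3
    by_cases h4 : subB (mskA B) (fld w p s) = true
    · by_cases h5 : ∃ q ∈ A, q.2 = p
      · exact ⟨fun _ => h5, fun _ => h4⟩
      · rw [if_pos h4, if_neg h5] at h3
        simp at h3
    · by_cases h5 : ∃ q ∈ A, q.2 = p
      · rw [if_neg h4, if_pos h5, Nat.xor_self] at h3
        have : 0 < 2 ^ (w - 1) := by positivity
        omega
      · exact ⟨fun h => absurd h h4, fun h => absurd h h5⟩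
  have hrem : ∀ p < m, ¬ subB (mskA A) (fld w p (clr w s A)) = true := by
    intro p hp hc
    have h3 := congrArg (fld w p) h2
    rw [fld_nmark hw0 (by omega) hp, hR p hp, if_pos hc] at h3
    have : 0 < 2 ^ (w - 1) := by positivity
    omega
  have hx : ∀ q ∈ B, (fun v => Nat.xor D (Nat.pow 2 v)) q.1 < 2 ^ w := by
    intro q hq
    have h3 : D < 2 ^ n := lt_of_bits fun i hi => by
      change ((mskA A) ||| (mskA B)).testBit i = true at hi
      rw [Nat.testBit_or, Bool.or_eq_true] at hi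
      rcases hi with h | h
      · obtain ⟨r, hr, rfl⟩ := (testBit_mskA A i).1 h
        exact (hA r hr).1
      · obtain ⟨r, hr, rfl⟩ := (testBit_mskA B i).1 h
        exact (hB r hr).1
    have h4 := xor_lt h3 (hB q hq).1
    change Nat.xor D (Nat.pow 2 q.1) < 2 ^ w
    omega
  have hnext : ∀ p, (∀ q ∈ B, q.2 ≠ p) → fld w p (nextS w A B s) = fld w p (clr w s A) := by
    intro p hp
    change fld w p ((clr w s A) ||| (puts w (fun v => Nat.xor D (Nat.pow 2 v)) B)) = _
    rw [fld_lor, fld_puts_not B hx hp]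
    simp
  refine ⟨fs (mskA A), fs (mskA B), hne _ hA0 ha, hne _ hB0 hb, hdisj, ?_, ?_, ?_⟩
  · ext F
    rw [Finset.mem_filter, mem_famF, Finset.mem_image]
    constructor
    · rintro ⟨⟨p, hp, h0, rfl⟩, hsub⟩
      rw [fs_subset hb] at hsub
      obtain ⟨q, hq, rfl⟩ := (hstar p hp).1 hsub
      refine ⟨⟨q.1, (hA q hq).1⟩, (hmA _).2 ⟨q, hq, rfl⟩, ?_⟩
      have e1 : (fs (fld w q.2 s) : Finset (Fin n)) = fs (Nat.xor D (Nat.pow 2 q.1)) :=
        congrArg fs (hA q hq).2.2
      rw [e1]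
      exact (hDer q.1 (hA q hq).1 (Or.inl ⟨q, hq, rfl⟩)).symm
    · rintro ⟨v, hv, rfl⟩
      rw [hmA] at hv
      obtain ⟨q, hq, hqv⟩ := hv
      have h3 := (hA q hq).2.2
      rw [hqv] at h3
      have h4 := hDer v v.2 (Or.inl ⟨q, hq, hqv⟩)
      have h5 := (hstar q.2 (hA q hq).2.1).2 ⟨q, hq, rfl⟩
      refine ⟨⟨q.2, (hA q hq).2.1, ?_, ?_⟩, ?_⟩
      · intro h0
        rw [h0] at h5
        unfold subB at h5
        rw [nbeq_iff] at h5
        apply hB0
        rw [← h5]
        exact Nat.and_zero (mskA B)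
      · rw [h3]; exact h4
      · rw [← fs_subset (m := fld w q.2 s) hb, h3, h4] at h5
        exact h5
  · ext F
    rw [Finset.mem_filter, mem_famF, Finset.mem_image]
    constructor
    · rintro ⟨⟨p, hp, h0, rfl⟩, hsub⟩
      rw [fs_subset ha] at hsub
      by_cases hpB : ∃ q ∈ B, q.2 = p
      · obtain ⟨q, hq, rfl⟩ := hpB
        refine ⟨⟨q.1, (hB q hq).1⟩, (hmB _).2 ⟨q, hq, rfl⟩, ?_⟩
        have e1 : (fs (fld w q.2 (nextS w A B s)) : Finset (Fin n)) =
            fs (Nat.xor D (Nat.pow 2 q.1)) := congrArg fs (hB q hq).2.2.2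
        rw [e1]
        exact (hDer q.1 (hB q hq).1 (Or.inr ⟨q, hq, rfl⟩)).symm
      · exfalso
        rw [hnext p (fun q hq h => hpB ⟨q, hq, h⟩)] at hsub
        exact hrem p hp hsub
    · rintro ⟨v, hv, rfl⟩
      rw [hmB] at hv
      obtain ⟨q, hq, hqv⟩ := hv
      have h3 := (hB q hq).2.2.2
      rw [hqv] at h3
      have h4 := hDer v v.2 (Or.inr ⟨q, hq, hqv⟩)
      have h6 : (fs (mskA A) : Finset (Fin n)) ⊆
          ((fs (mskA A)) ∪ (fs (mskA B))).erase v := by
        intro u hu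
        rw [Finset.mem_erase, Finset.mem_union]
        refine ⟨?_, Or.inl hu⟩
        rintro rfl
        exact Finset.disjoint_left.1 hdisj hu ((hmB _).2 ⟨q, hq, hqv⟩)
      refine ⟨⟨q.2, (hB q hq).2.1, ?_, ?_⟩, h6⟩
      · intro h0
        rw [h0] at h3
        rw [← h3] at h4
        obtain ⟨u, hu⟩ := hne _ hA0 ha
        have h7 := h6 hu
        rw [show (⟨(v : ℕ), v.2⟩ : Fin n) = v from rfl] at h4
        rw [← h4, mem_fs] at h7
        simp at h7
      · rw [h3]; exact h4
  · ext F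
    rw [Finset.mem_filter, mem_famF, Finset.mem_filter, mem_famF]
    constructor
    · rintro ⟨⟨p, hp, h0, rfl⟩, hsub⟩
      rw [fs_subset hb] at hsub
      have hpA : ¬ ∃ q ∈ A, q.2 = p := fun h => hsub ((hstar p hp).2 h)
      have hcl : fld w p (clr w s A) = fld w p s := by rw [fld_clr, if_neg hpA]
      have hpB : ∀ q ∈ B, q.2 ≠ p := by
        rintro q hq rfl
        have := (hB q hq).2.2.1
        rw [hcl] at this
        exact h0 this
      have hnx : fld w p (nextS w A B s) = fld w p s := by rw [hnext p hpB, hcl]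
      refine ⟨⟨p, hp, by rw [hnx]; exact h0, by rw [hnx]⟩, ?_⟩
      rw [fs_subset ha, ← hcl]
      exact hrem p hp
    · rintro ⟨⟨p, hp, h0, rfl⟩, hsub⟩
      by_cases hpB : ∃ q ∈ B, q.2 = p
      · exfalso
        obtain ⟨q, hq, rfl⟩ := hpB
        apply hsub
        rw [(hB q hq).2.2.2, hDer q.1 (hB q hq).1 (Or.inr ⟨q, hq, rfl⟩)]
        intro u hu
        rw [Finset.mem_erase, Finset.mem_union]
        refine ⟨?_, Or.inl hu⟩
        rintro rfl
        exact Finset.disjoint_left.1 hdisj hu ((hmB _).2 ⟨q, hq, rfl⟩)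
      · have hnx := hnext p (fun q hq h => hpB ⟨q, hq, h⟩)
        rw [fld_clr] at hnx
        by_cases hpA : ∃ q ∈ A, q.2 = p
        · rw [if_pos hpA] at hnx
          exact absurd hnx h0
        · rw [if_neg hpA] at hnx
          refine ⟨⟨p, hp, by rw [← hnx]; exact h0, by rw [← hnx]⟩, ?_⟩
          rw [hnx, fs_subset hb]
          exact fun h => hpA ((hstar p hp).1 h)

end Pool.Agent.TH640B
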