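import Mathlib
import Pool.Agent.TH640B.Base
import Pool.Agent.TH640B.Bits
import Pool.Agent.TH640B.Simd
import Pool.Agent.TH640B.Trees

/-!
# Links

Helper file.
-/

open Finset

namespace Pool.Agent.TH640B

variable {n : ℕ}

/-! ### Packing a list -/

theorem fld_packA {w acc : ℕ} {l : List ℕ} (hl : ∀ x ∈ l, x < 2 ^ w) (p : ℕ) :
    fld w p (packA w acc l) = if h : p < l.length then l[p] else fld w (p - l.length) acc := by
  induction l generalizing p with
  | nil => simp [packA]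
  | cons x l ih =>
    have he : packA w acc (x :: l) = x + packA w acc l * 2 ^ w := rfl
    have hx : x < 2 ^ w := hl x (by simp)
    rw [he]
    cases p with
    | zero =>
      rw [fld_zero, Nat.add_mul_mod_self_right, Nat.mod_eq_of_lt hx]
      simp
    | succ p =>
      rw [fld_succ, Nat.add_mul_div_right _ _ (Nat.two_pow_pos w), Nat.div_eq_of_lt hx, zero_add,
        ih (fun y hy => hl y (by simp [hy]))]
      by_cases h : p < l.length
      · simp [h]
      · simp [h]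

theorem packA_append (w acc : ℕ) (l l' : List ℕ) :
    packA w (packA w acc l') l = packA w acc (l ++ l') := by
  induction l with
  | nil => rfl
  | cons x l ih =>
    have he : ∀ acc (l : List ℕ), packA w acc (x :: l) = x + packA w acc l * 2 ^ w :=
      fun _ _ => rfl
    rw [List.cons_append, he, he, ih]

theorem famF_pack {w m : ℕ} {l : List ℕ} (hl : ∀ x ∈ l, x < 2 ^ w) (h0 : ∀ x ∈ l, x ≠ 0)
    (hs : packA w 0 l < 2 ^ (w * m)) : (famF w m (packA w 0 l) : Fam n) = toFam l := by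
  have hf := fld_packA (acc := 0) hl
  have hz : ∀ q, fld w q 0 = 0 := by
    intro q
    change ((0 >>> (w * q)) % 2 ^ w) = _
    simp
  have hlen : l.length ≤ m := by
    by_contra hc
    have hm : m < l.length := by omega
    have h1 := hf m
    rw [dif_pos hm] at h1
    have h2 : fld w m (packA w 0 l) = 0 := by
      change ((packA w 0 l) >>> (w * m)) % 2 ^ w = 0
      rw [Nat.shiftRight_eq_div_pow, Nat.div_eq_of_lt hs, Nat.zero_mod]
    rw [h2] at h1
    exact h0 _ (List.getElem_mem hm) h1.symm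
  ext F
  rw [mem_famF, mem_toFam]
  constructor
  · rintro ⟨p, _, hp0, rfl⟩
    rw [hf] at hp0 ⊢
    by_cases h : p < l.length
    · rw [dif_pos h]
      exact ⟨_, List.getElem_mem h, rfl⟩
    · rw [dif_neg h, hz] at hp0
      exact absurd rfl hp0
  · rintro ⟨x, hx, rfl⟩
    obtain ⟨p, hp, rfl⟩ := List.getElem_of_mem hx
    refine ⟨p, by omega, ?_, ?_⟩
    · rw [hf, dif_pos hp]; exact h0 _ hx
    · rw [hf, dif_pos hp]

/-! ### Running the moves -/

theorem finS_sound {w m d : ℕ} {D : List (ℕ × ℕ)} {s : ℕ}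
    (h : finS n w m (d + 2) D s = true) : (fs (mskA D) : Finset (Fin n)).card = d + 2 ∧
      (famF w m s : Fam n) = bdry (fs (mskA D)) := by
  unfold finS at h
  simp only [andB_iff, allL_iff, nbeq_iff, nblt_iff] at h
  obtain ⟨h1, h2, h3⟩ := h
  refine ⟨by rw [card_fs, h2], ?_⟩
  have hcard : (fs (mskA D) : Finset (Fin n)).card = d + 2 := by rw [card_fs, h2]
  have hmD : ∀ v : Fin n, v ∈ (fs (mskA D) : Finset (Fin n)) ↔ ∃ q ∈ D, q.1 = (v : ℕ) :=
    fun v => by rw [mem_fs, testBit_mskA]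
  have hE : ∀ q ∈ D, ∀ hv : q.1 < n,
      (fs (fld w q.2 s) : Finset (Fin n)) = (fs (mskA D)).erase ⟨q.1, hv⟩ := by
    intro q hq hv
    have e1 : (fs (fld w q.2 s) : Finset (Fin n)) = fs (Nat.xor (mskA D) (Nat.pow 2 q.1)) :=
      congrArg fs (h1 q hq).2.2
    rw [e1]
    exact fs_xor_erase (n := n) (m := mskA D) (v := ⟨q.1, hv⟩)
      ((testBit_mskA D q.1).2 ⟨q, hq, rfl⟩)
  ext F
  rw [mem_famF, bdry, Finset.mem_image]
  constructor
  · rintro ⟨p, hp, hp0, rfl⟩
    have h4 : ∃ q ∈ D, q.2 = p := by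
      by_contra hcon
      have h5 := fld_clr (w := w) (s := s) (p := p) D
      rw [h3, if_neg hcon] at h5
      apply hp0
      rw [← h5]
      change ((0 >>> (w * p)) % 2 ^ w) = _
      simp
    obtain ⟨q, hq, rfl⟩ := h4
    exact ⟨⟨q.1, (h1 q hq).1⟩, (hmD _).2 ⟨q, hq, rfl⟩, (hE q hq (h1 q hq).1).symm⟩
  · rintro ⟨v, hv, rfl⟩
    obtain ⟨q, hq, hqv⟩ := (hmD v).1 hv
    have hqn := (h1 q hq).1
    have e2 : (⟨q.1, hqn⟩ : Fin n) = v := Fin.ext hqv
    have e3 := hE q hq hqn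
    rw [e2] at e3
    refine ⟨q.2, (h1 q hq).2.1, ?_, e3⟩
    intro h0
    rw [h0, fs_zero] at e3
    have := congrArg Finset.card e3
    rw [Finset.card_erase_of_mem hv, hcard] at this
    simp at this

theorem runS_sound {w m d : ℕ} (hw : n < w) {D : List (ℕ × ℕ)}
    {mv : List (List (ℕ × ℕ) × List (ℕ × ℕ))} {s : ℕ}
    (h : runS n w m (d + 2) (ones w m) D mv s = true) :
    IsPLSphere d (famF w m s : Fam n) := by
  induction mv generalizing s with
  | nil =>
    obtain ⟨h1, h2⟩ := finS_sound (n := n) h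
    exact ⟨fs (mskA D), h1, by rw [h2]⟩
  | cons q mv ih =>
    have he : runS n w m (d + 2) (ones w m) D (q :: mv) s =
      Bool.rec false (runS n w m (d + 2) (ones w m) D mv (nextS w q.1 q.2 s))
        (okS n w m (ones w m) q.1 q.2 s) := rfl
    rw [he] at h
    cases hs : okS n w m (ones w m) q.1 q.2 s with
    | false => rw [hs] at h; simp at h
    | true =>
      rw [hs] at h
      obtain ⟨D', hD', hr⟩ := ih h
      exact ⟨D', hD', Relation.ReflTransGen.head (okS_sound hw hs) hr⟩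

/-! ### Links of vertices -/

theorem coneOff_link (M : Fam n) (v : Fin n) :
    coneOff v (link M v) = link M v ∪ (boundary M).filter (fun R => v ∈ R) := by
  have hlk : ∀ s : Finset (Fin n), s ∈ link M v ↔ v ∉ s ∧ insert v s ∈ M := by
    intro s
    rw [link, Finset.mem_image]
    constructor
    · rintro ⟨F, hF, rfl⟩
      rw [Finset.mem_filter] at hF
      refine ⟨Finset.notMem_erase v F, ?_⟩
      rw [Finset.insert_erase hF.2]
      exact hF.1
    · rintro ⟨h1, h2⟩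
      exact ⟨insert v s, Finset.mem_filter.2 ⟨h2, Finset.mem_insert_self _ _⟩,
        Finset.erase_insert h1⟩
  have hup : ∀ R : Finset (Fin n), v ∉ R → up (link M v) R = up M (insert v R) := by
    intro R hR
    ext u
    rw [mem_up, mem_up, hlk, Finset.mem_insert, Finset.mem_insert, Finset.insert_comm]
    constructor
    · rintro ⟨h1, h2, h3⟩
      refine ⟨?_, h3⟩
      rintro (h | h)
      · exact h2 (Or.inl h.symm)
      · exact h1 h
    · rintro ⟨h1, h2⟩
      refine ⟨fun h => h1 (Or.inr h), ?_, h2⟩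
      rintro (h | h)
      · exact h1 (Or.inl h.symm)
      · exact hR h
  have hup0 : ∀ R : Finset (Fin n), v ∈ R → up (link M v) R = ∅ := by
    intro R hR
    rw [Finset.eq_empty_iff_forall_notMem]
    intro u hu
    rw [mem_up, hlk] at hu
    exact hu.2.1 (Finset.mem_insert_of_mem hR)
  unfold coneOff
  congr 1
  ext R
  rw [Finset.mem_image, Finset.mem_filter]
  constructor
  · rintro ⟨Q, hQ, rfl⟩
    rw [boundary, Finset.mem_filter] at hQ
    have hvQ : v ∉ Q := by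
      intro h
      rw [hup0 Q h] at hQ
      simp at hQ
    rw [hup Q hvQ] at hQ
    refine ⟨?_, Finset.mem_insert_self _ _⟩
    rw [boundary, Finset.mem_filter]
    exact ⟨Finset.mem_univ _, hQ.2⟩
  · rintro ⟨hR, hv⟩
    refine ⟨R.erase v, ?_, Finset.insert_erase hv⟩
    rw [boundary, Finset.mem_filter] at hR ⊢
    refine ⟨Finset.mem_univ _, ?_⟩
    rw [hup _ (Finset.notMem_erase v R), Finset.insert_erase hv]
    exact hR.2

/-! ### Selecting fields -/

theorem fld_putsC {w c p : ℕ} (hc : c < 2 ^ w) (P : List ℕ) :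
    fld w p (putsC w c P) = if p ∈ P then c else 0 := by
  induction P with
  | nil =>
    change ((0 >>> (w * p)) % 2 ^ w) = _
    simp
  | cons q P ih =>
    have he : putsC w c (q :: P) = (put w q c) ||| (putsC w c P) := rfl
    rw [he, fld_lor, ih, fld_put hc]
    by_cases h1 : p = q
    · subst h1
      by_cases h2 : p ∈ P
      · simp [h2]
      · simp [h2]
    · by_cases h2 : p ∈ P
      · simp [h1, h2]
      · simp [h1, h2]

theorem selOK_sound {w m b s : ℕ} {P : List ℕ} (hw : 0 < w) (hb : b < 2 ^ (w - 1))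
    (h : selOK w m b s P = true) : (∀ p ∈ P, p < m) ∧
      ∀ p < m, subB b (fld w p s) = true ↔ p ∈ P := by
  unfold selOK at h
  rw [andB_iff, allL_iff, nbeq_iff] at h
  obtain ⟨h1, h2⟩ := h
  refine ⟨fun p hp => nblt_iff.1 (h1 p hp), fun p hp => ?_⟩
  have hw1 : 2 ^ (w - 1) < 2 ^ w := Nat.pow_lt_pow_right (by norm_num) (by omega)
  have hpos : 0 < 2 ^ (w - 1) := Nat.two_pow_pos _
  have h3 := congrArg (fld w p) h2
  change fld w p (nmark w (ones w m) b s ^^^ (ones w m * 2 ^ (w - 1))) =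
    fld w p (putsC w (2 ^ (w - 1)) P) at h3
  rw [fld_xor, fld_nmark hw hb hp, fld_putsC hw1, ones_eq hw, repN_mul, fld_repN hw1,
    if_pos hp] at h3
  by_cases h4 : subB b (fld w p s) = true
  · rw [if_pos h4] at h3
    by_cases h5 : p ∈ P
    · exact ⟨fun _ => h5, fun _ => h4⟩
    · rw [if_neg h5] at h3
      simp at h3
  · rw [if_neg h4, Nat.xor_self] at h3
    by_cases h5 : p ∈ P
    · rw [if_pos h5] at h3
      omega
    · exact ⟨fun h => absurd h h4, fun h => absurd h h5⟩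

/-- the selected entries of a list are those containing `b` -/
theorem sel_mem {w m b : ℕ} {l : List ℕ} {P : List ℕ} (hw : 0 < w) (hb : b < 2 ^ (w - 1))
    (hb0 : b ≠ 0) (hl : ∀ x ∈ l, x < 2 ^ w) (h0 : ∀ x ∈ l, x ≠ 0)
    (hm : packA w 0 l < 2 ^ (w * m)) (h : selOK w m b (packA w 0 l) P = true) (x : ℕ) :
    (∃ p ∈ P, fld w p (packA w 0 l) = x) ↔ x ∈ l ∧ subB b x = true := by
  obtain ⟨h1, h2⟩ := selOK_sound hw hb h
  have hf := fld_packA (acc := 0) hl
  have hz : ∀ q, fld w q 0 = 0 := by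
    intro q
    change ((0 >>> (w * q)) % 2 ^ w) = _
    simp
  have hlen : l.length ≤ m := by
    by_contra hc
    have hml : m < l.length := by omega
    have h1 := hf m
    rw [dif_pos hml] at h1
    have h2 : fld w m (packA w 0 l) = 0 := by
      change ((packA w 0 l) >>> (w * m)) % 2 ^ w = 0
      rw [Nat.shiftRight_eq_div_pow, Nat.div_eq_of_lt hm, Nat.zero_mod]
    rw [h2] at h1
    exact h0 _ (List.getElem_mem hml) h1.symm
  constructor
  · rintro ⟨p, hp, rfl⟩
    have h3 := (h2 p (h1 p hp)).2 hp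
    refine ⟨?_, h3⟩
    rw [hf] at h3 ⊢
    by_cases h4 : p < l.length
    · rw [dif_pos h4]; exact List.getElem_mem h4
    · rw [dif_neg h4, hz] at h3
      unfold subB at h3
      rw [nbeq_iff] at h3
      exact absurd (h3.symm.trans (Nat.and_zero b)) hb0
  · rintro ⟨hx, hs⟩
    obtain ⟨p, hp, rfl⟩ := List.getElem_of_mem hx
    have h4 : fld w p (packA w 0 l) = l[p] := by rw [hf, dif_pos hp]
    exact ⟨p, (h2 p (by omega)).1 (by rw [h4]; exact hs), h4⟩

/-! ### Certificates for links -/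

/-- the link of `v` with its boundary coned off is a sphere -/
def LinkGood (M : Fam n) (m v : ℕ) : Prop :=
  ∀ h : v < n, IsPLSphere (m - 1) (coneOff ⟨v, h⟩ (link M ⟨v, h⟩))

theorem lkS_sound {w d mF mB : ℕ} (hw : n < w) {fT : BT ℕ} {rT : BT RD}
    (U : UpSpec n (d + 2) fT rT)
    (hmF : packA w 0 (btKeys fT) < 2 ^ (w * mF)) (hmB : packA w 0 (bdK rT) < 2 ^ (w * mB))
    {q : LC} (h : lkS n w (d + 2) (packA w 0 (btKeys fT)) mF (packA w 0 (bdK rT)) mB q = true) :
    LinkGood (famT fT : Fam n) (d + 1) q.1 := by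
  intro hv
  unfold lkS at h
  rw [andB_iff, andB_iff, andB_iff, nblt_iff] at h
  obtain ⟨h1, h2, h3, h4⟩ := h
  have hw0 : 0 < w := by omega
  have h5 := runS_sound (n := n) hw h4
  have hnw : 2 ^ n ≤ 2 ^ w := Nat.pow_le_pow_right (by norm_num) hw.le
  have hvw : Nat.pow 2 q.1 < 2 ^ (w - 1) := Nat.pow_lt_pow_right (by norm_num) (by omega)
  have hv0 : Nat.pow 2 q.1 ≠ 0 := (Nat.two_pow_pos q.1).ne'
  have hFl : ∀ x ∈ btKeys fT, x < 2 ^ n ∧ x ≠ 0 := by
    intro x hx
    obtain ⟨y, hy⟩ := mem_keys.1 hx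
    obtain ⟨g1, g2, _⟩ := bst_get (β := Bool) U.bf hy
    exact ⟨g2, by omega⟩
  have hBl : ∀ x ∈ bdK rT, x < 2 ^ n ∧ x ≠ 0 := by
    intro x hx
    obtain ⟨y, hy, _⟩ := mem_btFil.1 hx
    obtain ⟨g1, g2, _⟩ := bst_get (β := Bool) U.br hy
    exact ⟨g2, by omega⟩
  have sF := sel_mem hw0 hvw hv0 (fun x hx => lt_of_lt_of_le (hFl x hx).1 hnw)
    (fun x hx => (hFl x hx).2) hmF h1
  have sB := sel_mem hw0 hvw hv0 (fun x hx => lt_of_lt_of_le (hBl x hx).1 hnw)
    (fun x hx => (hBl x hx).2) hmB h2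
  have hsub : ∀ x, subB (Nat.pow 2 q.1) x = true ↔ x.testBit q.1 = true := by
    intro x
    rw [subB_iff]
    constructor
    · intro h
      apply h
      change (2 ^ q.1).testBit q.1 = true
      rw [Nat.testBit_two_pow_self]
    · intro h i hi
      have hi' : (2 ^ q.1).testBit i = true := hi
      rw [Nat.testBit_two_pow] at hi'
      have : q.1 = i := by simpa using hi'
      rw [← this]; exact h
  set l1 := mapL (fun p => Nat.xor (fld w p (packA w 0 (btKeys fT))) (Nat.pow 2 q.1)) q.2.2.1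
    with hl1
  set l2 := mapL (fun p => fld w p (packA w 0 (bdK rT))) q.2.2.2.1 with hl2
  have hP : lkP w (packA w 0 (btKeys fT)) (packA w 0 (bdK rT)) q = packA w 0 (l1 ++ l2) :=
    packA_append w 0 l1 l2
  have m1 : ∀ x, x ∈ l1 ↔ ∃ F ∈ btKeys fT, F.testBit q.1 = true ∧
      x = Nat.xor F (Nat.pow 2 q.1) := by
    intro x
    rw [hl1, mapL_eq, List.mem_map]
    constructor
    · rintro ⟨p, hp, rfl⟩
      obtain ⟨g1, g2⟩ := (sF _).1 ⟨p, hp, rfl⟩
      exact ⟨_, g1, (hsub _).1 g2, rfl⟩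
    · rintro ⟨F, g1, g2, rfl⟩
      obtain ⟨p, hp, hpF⟩ := (sF F).2 ⟨g1, (hsub _).2 g2⟩
      exact ⟨p, hp, by rw [hpF]⟩
  have m2 : ∀ x, x ∈ l2 ↔ x ∈ bdK rT ∧ x.testBit q.1 = true := by
    intro x
    rw [hl2, mapL_eq, List.mem_map, sB x, hsub]
  have hmem : ∀ x ∈ l1 ++ l2, x < 2 ^ w ∧ x ≠ 0 := by
    intro x hx
    rcases List.mem_append.1 hx with hx | hx
    · obtain ⟨F, hF, hb, rfl⟩ := (m1 x).1 hx
      have hF2 := (hFl F hF).1
      refine ⟨lt_of_lt_of_le (xor_lt hF2 hv) hnw, ?_⟩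
      intro h0
      have h4 := fs_xor_erase (n := n) (v := ⟨q.1, hv⟩) hb
      change (fs (Nat.xor F (Nat.pow 2 q.1)) : Finset (Fin n)) = _ at h4
      rw [h0, fs_zero] at h4
      have h5 := congrArg Finset.card h4
      obtain ⟨y, hy⟩ := mem_keys.1 hF
      rw [Finset.card_erase_of_mem (mem_fs.2 hb),
        U.card _ (mem_famT.2 ⟨F, y, hy, rfl⟩)] at h5
      simp at h5
    · obtain ⟨g1, _⟩ := (m2 x).1 hx
      exact ⟨lt_of_lt_of_le (hBl x g1).1 hnw, (hBl x g1).2⟩
  rw [hP] at h3 h5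
  rw [famF_pack (fun x hx => (hmem x hx).1) (fun x hx => (hmem x hx).2) h3] at h5
  have h6 : (toFam (l1 ++ l2) : Fam n) =
      coneOff ⟨q.1, hv⟩ (link (famT fT : Fam n) ⟨q.1, hv⟩) := by
    rw [coneOff_link]
    ext s
    rw [mem_toFam, Finset.mem_union, link, Finset.mem_image, Finset.mem_filter, up_card U]
    constructor
    · rintro ⟨x, hx, rfl⟩
      rcases List.mem_append.1 hx with hx | hx
      · obtain ⟨F, hF, hb, rfl⟩ := (m1 x).1 hx
        obtain ⟨y, hy⟩ := mem_keys.1 hF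
        left
        refine ⟨fs F, Finset.mem_filter.2 ⟨mem_famT.2 ⟨F, y, hy, rfl⟩, mem_fs.2 hb⟩, ?_⟩
        exact (fs_xor_erase (n := n) (v := ⟨q.1, hv⟩) hb).symm
      · obtain ⟨g1, g2⟩ := (m2 x).1 hx
        obtain ⟨y, hy, hyy⟩ := mem_btFil.1 g1
        right
        exact ⟨⟨x, y, hy, nbeq_iff.1 hyy, rfl⟩, mem_fs.2 g2⟩
    · rintro (⟨G, hG, rfl⟩ | ⟨⟨r, p, hp, hpp, rfl⟩, hvr⟩)
      · rw [Finset.mem_filter] at hG
        obtain ⟨F, y, hF, rfl⟩ := mem_famT.1 hG.1
        have hb := mem_fs.1 hG.2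
        refine ⟨Nat.xor F (Nat.pow 2 q.1), List.mem_append.2 (Or.inl ((m1 _).2
          ⟨F, mem_keys.2 ⟨y, hF⟩, hb, rfl⟩)), fs_xor_erase (n := n) (v := ⟨q.1, hv⟩) hb⟩
      · refine ⟨r, List.mem_append.2 (Or.inr ((m2 _).2 ⟨mem_btFil.2 ⟨p, hp, nbeq_iff.2 hpp⟩,
          mem_fs.1 hvr⟩)), rfl⟩
  rw [← h6]
  exact h5

theorem links_sound {w d mF mB : ℕ} (hw : n < w) {fT : BT ℕ} {rT : BT RD}
    (U : UpSpec n (d + 2) fT rT) {l : List LC}
    (h : lksOK n w (d + 2) fT mF rT mB l = true) :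
    ∀ v ∈ l.map Prod.fst, LinkGood (famT fT : Fam n) (d + 1) v := by
  unfold lksOK at h
  rw [andB_iff, andB_iff, nblt_iff, nblt_iff, allL_iff] at h
  intro v hv
  obtain ⟨q, hq, rfl⟩ := List.mem_map.1 hv
  exact lkS_sound hw U h.1 h.2.1 (h.2.2 q hq)

theorem manifold_of {m : ℕ} {fT : BT ℕ} {rT : BT RD}
    (U : UpSpec n (m + 1) fT rT) {V : List ℕ}
    (hV : ∀ v ∈ V, LinkGood (famT fT : Fam n) m v) (h : inMask (msk V) fT = true) :
    IsManifold m (famT fT : Fam n) := by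
  refine ⟨U.card, ?_⟩
  rintro v ⟨F, hF, hv⟩
  obtain ⟨k, y, hk, rfl⟩ := mem_famT.1 hF
  have h1 := btAll_inT h hk
  rw [subB_iff] at h1
  have h2 := h1 v (mem_fs.1 hv)
  exact hV v ((testBit_msk V v).1 h2) v.2

end Pool.Agent.TH640B
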