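import Mathlib
import Pool.Agent.TH640B.Base
import Pool.Agent.TH640B.Bits
import Pool.Agent.TH640B.Simd
import Pool.Agent.TH640B.Trees
import Pool.Agent.TH640B.Links
import Pool.Agent.TH640B.Coll

/-!
# Collapses of packed complexes

Helper file.
-/

open Finset

namespace Pool.Agent.TH640B

variable {n : ℕ}

/-- If the link of `σ` is a cone with apex `v`, then the open star of `σ` can be collapsed. -/
theorem collapse_cone {σ : Finset (Fin n)} {v : Fin n} (hv : v ∉ σ) :
    ∀ (c : ℕ) (S : Fam n), (S.filter fun r => σ ⊆ r).card = c →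
      (∀ τ, σ ⊆ τ → (τ ∈ S ↔ insert v τ ∈ S)) →
      Relation.ReflTransGen CollapseStep S (S.filter fun r => ¬ σ ⊆ r) := by
  intro c
  induction c using Nat.strong_induction_on with
  | _ c ih =>
    intro S hc h
    by_cases hne : ∃ r ∈ S, σ ⊆ r
    · have hT : (S.filter fun r => σ ⊆ r ∧ v ∉ r).Nonempty := by
        obtain ⟨r, hr, hsr⟩ := hne
        by_cases hvr : v ∈ r
        · have h1 : σ ⊆ r.erase v := fun x hx =>
            Finset.mem_erase.2 ⟨fun e => hv (e ▸ hx), hsr hx⟩
          refine ⟨r.erase v, Finset.mem_filter.2 ⟨(h _ h1).2 ?_, h1, Finset.notMem_erase v r⟩⟩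
          rw [Finset.insert_erase hvr]; exact hr
        · exact ⟨r, Finset.mem_filter.2 ⟨hr, hsr, hvr⟩⟩
      obtain ⟨t, ht, hmax⟩ := Finset.exists_max_image _ Finset.card hT
      rw [Finset.mem_filter] at ht
      obtain ⟨htS, hst, hvt⟩ := ht
      have htv : insert v t ∈ S := (h t hst).1 htS
      have htne : t ≠ insert v t := fun e => hvt (by rw [e]; exact Finset.mem_insert_self _ _)
      have hstep : CollapseStep S ((S.erase t).erase (insert v t)) := by
        refine ⟨t, v, hvt, htS, htv, ?_, rfl⟩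
        intro r hr htr
        by_cases hvr : v ∈ r
        · right
          have h1 : t ⊆ r.erase v := fun x hx =>
            Finset.mem_erase.2 ⟨fun e => hvt (e ▸ hx), htr hx⟩
          have h2 : r.erase v ∈ S := (h _ (hst.trans h1)).2
            (by rw [Finset.insert_erase hvr]; exact hr)
          have h3 := hmax (r.erase v)
            (Finset.mem_filter.2 ⟨h2, hst.trans h1, Finset.notMem_erase v r⟩)
          have h4 := Finset.eq_of_subset_of_card_le h1 h3
          rw [h4, Finset.insert_erase hvr]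
        · left
          have h3 := hmax r (Finset.mem_filter.2 ⟨hr, hst.trans htr, hvr⟩)
          exact (Finset.eq_of_subset_of_card_le htr h3).symm
      have hmem : ∀ r, r ∈ (S.erase t).erase (insert v t) ↔ r ∈ S ∧ r ≠ t ∧ r ≠ insert v t := by
        intro r
        rw [Finset.mem_erase, Finset.mem_erase]
        tauto
      have hlt : (((S.erase t).erase (insert v t)).filter fun r => σ ⊆ r).card < c := by
        rw [← hc]
        apply Finset.card_lt_card
        rw [Finset.ssubset_iff_of_subset]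
        · refine ⟨t, Finset.mem_filter.2 ⟨htS, hst⟩, ?_⟩
          rw [Finset.mem_filter, hmem]
          rintro ⟨⟨_, h1, _⟩, _⟩
          exact h1 rfl
        · intro r hr
          rw [Finset.mem_filter, hmem] at hr
          exact Finset.mem_filter.2 ⟨hr.1.1, hr.2⟩
      have hrec := ih _ hlt ((S.erase t).erase (insert v t)) rfl (by
        intro τ hτ
        by_cases hvτ : v ∈ τ
        · rw [Finset.insert_eq_of_mem hvτ]
        · rw [hmem, hmem, h τ hτ]
          constructor
          · rintro ⟨h1, h2, _⟩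
            refine ⟨h1, ?_, ?_⟩
            · intro e
              exact hvt (by rw [← e]; exact Finset.mem_insert_self _ _)
            · intro e
              apply h2
              rw [← Finset.erase_insert hvτ, e, Finset.erase_insert hvt]
          · rintro ⟨h1, _, h2⟩
            refine ⟨h1, ?_, ?_⟩
            · intro e
              exact h2 (by rw [e])
            · intro e
              exact hvτ (by rw [e]; exact Finset.mem_insert_self _ _))
      have hfil : (((S.erase t).erase (insert v t)).filter fun r => ¬ σ ⊆ r) =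
          S.filter fun r => ¬ σ ⊆ r := by
        ext r
        rw [Finset.mem_filter, Finset.mem_filter, hmem]
        constructor
        · rintro ⟨⟨h1, _, _⟩, h2⟩
          exact ⟨h1, h2⟩
        · rintro ⟨h1, h2⟩
          refine ⟨⟨h1, ?_, ?_⟩, h2⟩
          · intro e
            exact h2 (by rw [e]; exact hst)
          · intro e
            exact h2 (by rw [e]; exact hst.trans (Finset.subset_insert _ _))
      rw [hfil] at hrec
      exact Relation.ReflTransGen.head hstep hrec
    · have : (S.filter fun r => ¬ σ ⊆ r) = S := by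
        ext r
        rw [Finset.mem_filter]
        constructor
        · exact fun h1 => h1.1
        · exact fun h1 => ⟨h1, fun h2 => hne ⟨r, h1, h2⟩⟩
      rw [this]

/-! ### Collapses of a packed list of generators -/

theorem okC_sound {w m p : ℕ} {N C : List (ℕ × ℕ)} {s : ℕ} (hw : n < w)
    (h : okC n w m (ones w m) p N C s = true) :
    Relation.ReflTransGen CollapseStep (faces (famF w m s : Fam n))
      (faces (famF w m (nextC w p N s))) := by
  unfold okC at h
  simp only [andB_iff, allL_iff, notB_iff, nbeq_iff, nblt_iff] at h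
  obtain ⟨hp, hFn, hsF, hne, hs0, h1, hN, hC⟩ := h
  have hw0 : 0 < w := by omega
  have hnw : 2 ^ n ≤ 2 ^ (w - 1) := Nat.pow_le_pow_right (by norm_num) (by omega)
  have hw1 : 2 ^ (w - 1) < 2 ^ w := Nat.pow_lt_pow_right (by norm_num) (by omega)
  have hpos : 0 < 2 ^ (w - 1) := Nat.two_pow_pos _
  set σ := Nat.lor (mskA N) (mskA C) with hσ
  set F := fld w p s with hF
  have hFn' : F < 2 ^ n := hFn
  have hσF := (subB_iff).1 hsF
  have hσn : σ < 2 ^ n := lt_of_bits fun i hi => by
    by_contra hc
    have h2 := hσF i hi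
    have : F.testBit i = false :=
      Nat.testBit_lt_two_pow (lt_of_lt_of_le hFn' (Nat.pow_le_pow_right (by norm_num)
        (not_lt.1 hc)))
    rw [this] at h2
    simp at h2
  have hbit : ∀ i, σ.testBit i = true ↔ (∃ q ∈ N, q.1 = i) ∨ (∃ q ∈ C, q.1 = i) := by
    intro i
    rw [hσ]
    change ((mskA N) ||| (mskA C)).testBit i = true ↔ _
    rw [Nat.testBit_or, Bool.or_eq_true, testBit_mskA, testBit_mskA]
  have hlt : ∀ i, σ.testBit i = true → i < n := by
    intro i hi
    by_contra hc
    have : σ.testBit i = false :=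
      Nat.testBit_lt_two_pow (lt_of_lt_of_le hσn (Nat.pow_le_pow_right (by norm_num)
        (not_lt.1 hc)))
    rw [this] at hi
    simp at hi
  have hstar : ∀ q < m, subB σ (fld w q s) = true ↔ q = p := by
    intro q hq
    have h3 := congrArg (fld w q) h1
    change fld w q (nmark w (ones w m) σ s ^^^ (ones w m * 2 ^ (w - 1))) =
      fld w q (put w p (2 ^ (w - 1))) at h3
    rw [fld_xor, fld_nmark hw0 (lt_of_lt_of_le hσn hnw) hq, fld_put hw1, ones_eq hw0, repN_mul,
      fld_repN hw1, if_pos hq] at h3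
    by_cases h4 : subB σ (fld w q s) = true
    · rw [if_pos h4] at h3
      by_cases h5 : q = p
      · exact ⟨fun _ => h5, fun _ => h4⟩
      · rw [if_neg h5] at h3
        simp at h3
    · rw [if_neg h4, Nat.xor_self] at h3
      by_cases h5 : q = p
      · rw [if_pos h5] at h3
        omega
      · exact ⟨fun h => absurd h h4, fun h => absurd h h5⟩
  -- erasing a vertex of `σ` from `F`
  have hE : ∀ x (hx : σ.testBit x = true), Nat.xor F (Nat.pow 2 x) < 2 ^ n ∧
      (fs (Nat.xor F (Nat.pow 2 x)) : Finset (Fin n)) = (fs F).erase ⟨x, hlt x hx⟩ := by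
    intro x hx
    exact ⟨xor_lt hFn' (hlt x hx), fs_xor_erase (v := ⟨x, hlt x hx⟩) (hσF x hx)⟩
  have hNC : ∀ q, q ∈ N → σ.testBit q.1 = true := fun q hq => (hbit _).2 (Or.inl ⟨q, hq, rfl⟩)
  have hCC : ∀ q, q ∈ C → σ.testBit q.1 = true := fun q hq => (hbit _).2 (Or.inr ⟨q, hq, rfl⟩)
  -- the fields of the next state
  have hclr : ∀ q, fld w q (clr w s ((0, p) :: [])) = if q = p then 0 else fld w q s := by
    intro q
    rw [fld_clr]
    by_cases h2 : q = p
    · rw [if_pos ⟨(0, p), by simp, h2.symm⟩, if_pos h2]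
    · rw [if_neg, if_neg h2]
      rintro ⟨r, hr, hrq⟩
      rw [List.mem_singleton] at hr
      rw [hr] at hrq
      exact h2 hrq.symm
  have hnext : ∀ q, (∀ r ∈ N, r.2 ≠ q) →
      fld w q (nextC w p N s) = if q = p then 0 else fld w q s := by
    intro q hq
    change fld w q ((clr w s ((0, p) :: [])) |||
      (puts w (fun x => Nat.xor (fld w p s) (Nat.pow 2 x)) N)) = _
    rw [fld_lor, fld_puts_not N _ hq, hclr]
    · simp
    · intro r hr
      exact lt_of_lt_of_le (hE r.1 (hNC r hr)).1 (hnw.trans hw1.le)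
  set s' := nextC w p N s with hs'
  -- sets
  have hFne : F ≠ 0 := by
    intro h0
    apply hs0
    have : σ < 2 ^ 0 := lt_of_bits (n := 0) fun i hi => by
      have h2 := hσF i hi
      rw [h0] at h2
      simp at h2
    simpa using this
  have hfsne : (fs σ : Finset (Fin n)).Nonempty := fs_nonempty hs0 hσn
  have hsub : (fs σ : Finset (Fin n)) ⊆ fs F := (fs_subset hσn).2 hsF
  have hssub : ¬ (fs F : Finset (Fin n)) ⊆ fs σ := by
    intro h2
    apply hne
    exact fs_inj hσn hFn' (Finset.Subset.antisymm hsub h2)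
  have hFS : (fs F : Finset (Fin n)) ∈ (famF w m s : Fam n) :=
    mem_famF.2 ⟨p, hp, hFne, rfl⟩
  have hstarS : ∀ τ ∈ faces (famF w m s : Fam n), fs σ ⊆ τ → τ ⊆ fs F := by
    intro τ hτ hστ
    rw [faces, Finset.mem_filter] at hτ
    obtain ⟨_, _, G, hG, hτG⟩ := hτ
    obtain ⟨q, hq, _, rfl⟩ := mem_famF.1 hG
    have h2 := (fs_subset hσn).1 (hστ.trans hτG)
    rw [(hstar q hq).1 h2] at hτG
    exact hτG
  have hsS : faces (famF w m s' : Fam n) =
      (faces (famF w m s : Fam n)).filter fun r => ¬ fs σ ⊆ r := by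
    ext τ
    rw [Finset.mem_filter, faces, faces, Finset.mem_filter, Finset.mem_filter]
    constructor
    · rintro ⟨_, hτ0, G, hG, hτG⟩
      obtain ⟨q, hq, hq0, rfl⟩ := mem_famF.1 hG
      by_cases hqN : ∃ r ∈ N, r.2 = q
      · obtain ⟨r, hr, rfl⟩ := hqN
        have hx := hNC r hr
        obtain ⟨_, _, hr3⟩ := hN r hr
        have hG' : (fs (fld w r.2 s') : Finset (Fin n)) = (fs F).erase ⟨r.1, hlt _ hx⟩ := by
          rw [hr3]; exact (hE r.1 hx).2
        rw [hG'] at hτG
        refine ⟨⟨Finset.mem_univ _, hτ0, fs F, hFS, hτG.trans (Finset.erase_subset _ _)⟩, ?_⟩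
        intro hστ
        have h2 : (⟨r.1, hlt _ hx⟩ : Fin n) ∈ (fs σ : Finset (Fin n)) := mem_fs.2 hx
        exact Finset.notMem_erase _ _ (hτG (hστ h2))
      · push Not at hqN
        have h2 := hnext q hqN
        by_cases hqp : q = p
        · rw [if_pos hqp] at h2
          exact absurd h2 hq0
        · rw [if_neg hqp] at h2
          rw [h2] at hτG hq0
          refine ⟨⟨Finset.mem_univ _, hτ0, _, mem_famF.2 ⟨q, hq, hq0, rfl⟩, hτG⟩, ?_⟩
          intro hστ
          exact hqp ((hstar q hq).1 ((fs_subset hσn).1 (hστ.trans hτG)))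
    · rintro ⟨⟨_, hτ0, G, hG, hτG⟩, hστ⟩
      refine ⟨Finset.mem_univ _, hτ0, ?_⟩
      obtain ⟨q, hq, hq0, rfl⟩ := mem_famF.1 hG
      by_cases hqp : q = p
      · subst hqp
        obtain ⟨x, hx, hxτ⟩ := Finset.not_subset.1 hστ
        have hxb := mem_fs.1 hx
        have hτE : τ ⊆ (fs (Nat.xor F (Nat.pow 2 (x : ℕ))) : Finset (Fin n)) := by
          rw [(hE x hxb).2]
          intro y hy
          refine Finset.mem_erase.2 ⟨fun e => hxτ ?_, hτG hy⟩
          have e' : y = x := e
          rw [← e']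
          exact hy
        have hnz : ∀ y : ℕ, τ ⊆ (fs y : Finset (Fin n)) → y ≠ 0 := by
          intro y hy h0
          rw [h0, fs_zero] at hy
          obtain ⟨z, hz⟩ := hτ0
          exact absurd (hy hz) (Finset.notMem_empty z)
        rcases (hbit x).1 hxb with ⟨r, hr, hrx⟩ | ⟨r, hr, hrx⟩
        · obtain ⟨hr1, _, hr3⟩ := hN r hr
          have h5 : fld w r.2 s' = Nat.xor F (Nat.pow 2 (x : ℕ)) := by rw [hr3, hrx]
          refine ⟨fs (fld w r.2 s'), mem_famF.2 ⟨r.2, hr1, ?_, rfl⟩, ?_⟩
          · rw [h5]; exact hnz _ hτE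
          · rw [h5]; exact hτE
        · obtain ⟨hr1, hr3⟩ := hC r hr
          rw [hrx] at hr3
          have h5 := hτE.trans ((fs_subset (hE x hxb).1).2 hr3)
          exact ⟨fs (fld w r.2 s'), mem_famF.2 ⟨r.2, hr1, hnz _ h5, rfl⟩, h5⟩
      · have hqN : ∀ r ∈ N, r.2 ≠ q := by
          intro r hr hrq
          obtain ⟨_, hr2, _⟩ := hN r hr
          have h5 := hclr r.2
          rw [hrq, if_neg hqp] at h5
          rw [hrq] at hr2
          exact hq0 (h5.symm.trans hr2)
        have h2 := hnext q hqN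
        rw [if_neg hqp] at h2
        exact ⟨fs (fld w q s'), mem_famF.2 ⟨q, hq, by rw [h2]; exact hq0, rfl⟩,
          by rw [h2]; exact hτG⟩
  rw [hsS]
  obtain ⟨v, hvF, hvσ⟩ := Finset.not_subset.1 hssub
  refine collapse_cone hvσ _ _ rfl ?_
  intro τ hστ
  constructor
  · intro hτ
    have h2 := hstarS τ hτ hστ
    rw [faces, Finset.mem_filter]
    refine ⟨Finset.mem_univ _, Finset.insert_nonempty _ _, fs F, hFS, ?_⟩
    exact Finset.insert_subset hvF h2
  · intro hτ
    rw [faces, Finset.mem_filter] at hτ ⊢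
    obtain ⟨_, _, G, hG, hτG⟩ := hτ
    exact ⟨Finset.mem_univ _, hfsne.mono hστ, G, hG, (Finset.subset_insert _ _).trans hτG⟩

theorem finC_sound {w m : ℕ} {E : List (ℕ × ℕ)} {s : ℕ} (h : finC w m E s = true) :
    (famF w m s : Fam n) = toFam (mapL Prod.fst E) := by
  unfold finC at h
  simp only [andB_iff, allL_iff, notB_iff, nbeq_iff, nblt_iff] at h
  obtain ⟨h1, h2⟩ := h
  ext G
  rw [mem_famF, mem_toFam]
  constructor
  · rintro ⟨q, hq, hq0, rfl⟩
    have h3 : ∃ e ∈ E, e.2 = q := by
      by_contra hcon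
      have h5 := fld_clr (w := w) (s := s) (p := q) E
      rw [h2, if_neg hcon] at h5
      apply hq0
      rw [← h5]
      change ((0 >>> (w * q)) % 2 ^ w) = _
      simp
    obtain ⟨e, he, rfl⟩ := h3
    refine ⟨e.1, ?_, by rw [(h1 e he).2.2]⟩
    rw [mapL_eq]
    exact List.mem_map_of_mem he
  · rintro ⟨k, hk, rfl⟩
    rw [mapL_eq, List.mem_map] at hk
    obtain ⟨e, he, rfl⟩ := hk
    obtain ⟨g1, g2, g3⟩ := h1 e he
    exact ⟨e.2, g1, by rw [g3]; exact g2, by rw [g3]⟩

theorem runC_sound {w m : ℕ} (hw : n < w) {E : List (ℕ × ℕ)} {l : List CS} {s : ℕ}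
    (h : runC n w m (ones w m) E l s = true) :
    Relation.ReflTransGen CollapseStep (faces (famF w m s : Fam n))
      (faces (toFam (mapL Prod.fst E))) := by
  induction l generalizing s with
  | nil => rw [finC_sound (n := n) h]
  | cons q l ih =>
    have he : runC n w m (ones w m) E (q :: l) s =
      Bool.rec false (runC n w m (ones w m) E l (nextC w q.1 q.2.1 s))
        (okC n w m (ones w m) q.1 q.2.1 q.2.2 s) := rfl
    rw [he] at h
    cases hs : okC n w m (ones w m) q.1 q.2.1 q.2.2 s with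
    | false => rw [hs] at h; simp at h
    | true =>
      rw [hs] at h
      exact (okC_sound hw hs).trans (ih h)

theorem famF_keys {w m : ℕ} (hw : n < w) {fT : BT ℕ} (hb : bst fT 0 (2 ^ n) = true)
    (h : packA w 0 (btKeys fT) < 2 ^ (w * m)) :
    (famF w m (packA w 0 (btKeys fT)) : Fam n) = famT fT := by
  have hnw : 2 ^ n ≤ 2 ^ w := Nat.pow_le_pow_right (by norm_num) hw.le
  have hl : ∀ x ∈ btKeys fT, x < 2 ^ n ∧ x ≠ 0 := by
    intro x hx
    obtain ⟨y, hy⟩ := mem_keys.1 hx
    obtain ⟨g1, g2, _⟩ := bst_get (β := Bool) hb hy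
    exact ⟨g2, by omega⟩
  exact famF_pack (fun x hx => lt_of_lt_of_le (hl x hx).1 hnw) (fun x hx => (hl x hx).2) h

theorem collOK_sound {w m : ℕ} (hw : n < w) {fT : BT ℕ} (hb : bst fT 0 (2 ^ n) = true)
    {E : List (ℕ × ℕ)} {l : List CS} (h : collOK n w m fT E l = true) :
    Relation.ReflTransGen CollapseStep (faces (famT fT : Fam n))
      (faces (toFam (mapL Prod.fst E))) := by
  unfold collOK at h
  rw [andB_iff, nblt_iff] at h
  have h2 := runC_sound hw h.2
  rw [famF_keys hw hb h.1] at h2
  exact h2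

/-! ### The faces of a graph -/

theorem grOK_sound {E G : List ℕ} (hE : ∀ e ∈ E, e < 2 ^ n) (h : grOK E G = true) :
    faces (toFam E : Fam n) = toFam G ∧ ∀ g ∈ G, g < 2 ^ n := by
  unfold grOK at h
  rw [andB_iff, allL_iff, allL_iff] at h
  obtain ⟨h1, h2⟩ := h
  have hG : ∀ g ∈ G, g ≠ 0 ∧ ∃ e ∈ E, subB g e = true := by
    intro g hg
    have := h2 g hg
    rw [andB_iff, notB_iff, nbeq_iff, anyL_iff] at this
    exact this
  have hlt : ∀ g ∈ G, g < 2 ^ n := by
    intro g hg
    obtain ⟨_, e, he, hge⟩ := hG g hg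
    rw [subB_iff] at hge
    exact lt_of_bits fun i hi => by
      by_contra hc
      have h3 := hge i hi
      have : e.testBit i = false :=
        Nat.testBit_lt_two_pow (lt_of_lt_of_le (hE e he) (Nat.pow_le_pow_right (by norm_num)
          (not_lt.1 hc)))
      rw [this] at h3
      simp at h3
  refine ⟨?_, hlt⟩
  ext τ
  rw [faces, Finset.mem_filter, mem_toFam]
  constructor
  · rintro ⟨_, hτ0, F, hF, hτF⟩
    obtain ⟨e, he, rfl⟩ := mem_toFam.1 hF
    have h3 := h1 e he
    rw [andB_iff, andB_iff, anyL_iff] at h3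
    obtain ⟨g1, ⟨g, hg, hge⟩, g3⟩ := h3
    rw [nbeq_iff] at hge
    have hc : (fs e : Finset (Fin n)).card = 2 := (loopB_sound (n := n) (hE e he) g1).1
    by_cases h4 : τ = fs e
    · exact ⟨g, hg, by rw [← hge, h4]⟩
    · have h5 : τ.card < 2 := by
        rw [← hc]
        exact Finset.card_lt_card (lt_of_le_of_ne hτF h4)
      have h6 : τ.card = 1 := by
        have := Finset.card_pos.2 hτ0
        omega
      obtain ⟨v, rfl⟩ := Finset.card_eq_one.1 h6
      have hv : v ∈ (fs e : Finset (Fin n)) := hτF (Finset.mem_singleton_self v)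
      have h7 := bitAll_sound g3 (mem_fs.1 hv)
      rw [anyL_iff] at h7
      obtain ⟨g', hg', hgv⟩ := h7
      rw [nbeq_iff] at hgv
      refine ⟨g', hg', ?_⟩
      rw [← hgv]
      ext u
      rw [mem_fs, Finset.mem_singleton]
      change ((2 ^ (v : ℕ)).testBit u = true) ↔ _
      rw [Nat.testBit_two_pow, decide_eq_true_eq]
      constructor
      · intro h8; exact Fin.ext h8.symm
      · intro h8; rw [h8]
  · rintro ⟨g, hg, rfl⟩
    obtain ⟨g0, e, he, hge⟩ := hG g hg
    exact ⟨Finset.mem_univ _, fs_nonempty g0 (hlt g hg), fs e, mem_toFam.2 ⟨e, he, rfl⟩,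
      (fs_subset (hlt g hg)).2 hge⟩

/-- the full check for a handlebody: collapse to the graph with the cells `G` -/
theorem handlebody_of' {w m' m r root : ℕ} (hw : n < w) {fT : BT ℕ} {rT : BT RD}
    {E : List (ℕ × ℕ)} {l : List CS} {O' : List (ℕ × ℕ)} {G : List ℕ}
    (U : UpSpec n (m + 1) fT rT) (hM : IsManifold m (famT fT : Fam n))
    (hs : collOK n w m' fT E l = true) (hlt : ltOK n (mapL Prod.fst E) = true)
    (hG : grOK (mapL Prod.fst E) G = true) (hg : graphOK n r root O' G = true) :
    IsHandlebody m r (famT fT : Fam n) := by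
  have h1 := collOK_sound hw U.bf hs
  unfold ltOK at hlt
  rw [allL_iff] at hlt
  obtain ⟨h2, h3⟩ := grOK_sound (n := n) (fun e he => nblt_iff.1 (hlt e he)) hG
  rw [h2] at h1
  exact ⟨hM, U.ori, toFam G, h1, graphOK_sound h3 hg⟩

end Pool.Agent.TH640B
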