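import Mathlib
import Pool.Agent.TH640B.Base
import Pool.Agent.TH640B.Bits
import Pool.Agent.TH640B.Simd
import Pool.Agent.TH640B.Trees
import Pool.Agent.TH640B.Links
import Pool.Agent.TH640B.Coll
import Pool.Agent.TH640B.Steps
import Pool.Agent.TH640B.NotIso

/-!
# Intersections of packed complexes

Helper file.
-/

open Finset

namespace Pool.Agent.TH640B

variable {n : ℕ}

theorem fld_nzm {w m x p : ℕ} (hw : 0 < w) (hx : ∀ q, fld w q x < 2 ^ (w - 1)) (hp : p < m)
    (h : fld w p (nzm w (ones w m) x) = 0) : fld w p x = 0 := by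
  have hw1 : 2 ^ w = 2 * 2 ^ (w - 1) := by
    rw [← pow_succ']; congr 1; omega
  have hpos : 0 < 2 ^ (w - 1) := by positivity
  have hy : ∀ q, fld w q (repN w (2 ^ (w - 1) - 1) m) ≤ 2 ^ (w - 1) - 1 := by
    intro q
    rw [fld_repN (by omega)]
    split_ifs <;> omega
  change fld w p ((x + (ones w m * (2 ^ (w - 1) - 1))) &&& (ones w m * 2 ^ (w - 1))) = 0 at h
  rw [ones_eq hw, repN_mul, repN_mul, fld_land, fld_add w p _ _ (by
    intro q
    have h1 := hx q
    have h2 := hy q
    omega), fld_repN (by omega : 2 ^ (w - 1) < 2 ^ w), if_pos hp,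
    fld_repN (by omega : 2 ^ (w - 1) - 1 < 2 ^ w), if_pos hp] at h
  by_contra h0
  set y := fld w p x with hyd
  have hy1 : y < 2 ^ (w - 1) := hx p
  have h1 : 2 ^ (w - 1) ≤ y + (2 ^ (w - 1) - 1) := by omega
  have h2 : y + (2 ^ (w - 1) - 1) < 2 ^ (w - 1 + 1) := by rw [pow_succ]; omega
  have h3 := congrArg (fun z => z.testBit (w - 1)) h
  simp only [Nat.testBit_and, Nat.testBit_two_pow_self, Bool.and_true, Nat.zero_testBit] at h3
  rw [Nat.testBit_eq_decide_div_mod_eq] at h3
  have h4 : (y + (2 ^ (w - 1) - 1)) / 2 ^ (w - 1) = 1 := by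
    apply Nat.div_eq_of_lt_le
    · omega
    · rw [pow_succ] at h2; omega
  rw [h4] at h3
  simp at h3

theorem accI_sound {w m s sH F : ℕ} (hw : 0 < w) (hF : F < 2 ^ (w - 1)) {js : List ℕ} {q : ℕ}
    (hq : q < m) (h : fld w q (accI w (ones w m) s sH F js) = 0) :
    F &&& fld w q s = 0 ∨ ∃ j ∈ js, (F ^^^ (F &&& fld w j sH)) &&& fld w q s = 0 := by
  have hw1 : 2 ^ (w - 1) < 2 ^ w := Nat.pow_lt_pow_right (by norm_num) (by omega)
  have key : ∀ b, b < 2 ^ (w - 1) →
      fld w q (nzm w (ones w m) (Nat.land s (Nat.mul (ones w m) b))) = 0 →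
      b &&& fld w q s = 0 := by
    intro b hb h0
    have h1 : ∀ p, fld w p (Nat.land s (Nat.mul (ones w m) b)) =
        if p < m then b &&& fld w p s else 0 := by
      intro p
      change fld w p (s &&& (ones w m * b)) = _
      rw [ones_eq hw, repN_mul, fld_land, fld_repN (by omega)]
      split_ifs
      · exact Nat.and_comm _ _
      · simp
    have h2 := fld_nzm hw (by
      intro p
      rw [h1]
      split_ifs
      · exact lt_of_le_of_lt Nat.and_le_left hb
      · exact Nat.two_pow_pos _) hq h0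
    rw [h1, if_pos hq] at h2
    exact h2
  induction js with
  | nil => exact Or.inl (key F hF h)
  | cons j js ih =>
    have he : accI w (ones w m) s sH F (j :: js) = (accI w (ones w m) s sH F js) &&&
      (nzm w (ones w m) (Nat.land s (Nat.mul (ones w m)
        (Nat.xor F (Nat.land F (fld w j sH)))))) := rfl
    rw [he, fld_land] at h
    -- the marks are `0` or `2 ^ (w - 1)`
    have hval : ∀ x, fld w q (nzm w (ones w m) x) = 0 ∨
        fld w q (nzm w (ones w m) x) = 2 ^ (w - 1) := by
      intro x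
      change fld w q ((x + (ones w m * (2 ^ (w - 1) - 1))) &&& (ones w m * 2 ^ (w - 1))) = 0 ∨
        fld w q ((x + (ones w m * (2 ^ (w - 1) - 1))) &&& (ones w m * 2 ^ (w - 1))) = _
      rw [fld_land, ones_eq hw, repN_mul (b := 2 ^ (w - 1)), fld_repN hw1, if_pos hq,
        Nat.and_two_pow]
      cases (fld w q (x + repN w 1 m * (2 ^ (w - 1) - 1))).testBit (w - 1) <;> simp
    by_cases h1 : fld w q (accI w (ones w m) s sH F js) = 0
    · rcases ih h1 with h2 | ⟨i, hi, h2⟩
      · exact Or.inl h2
      · exact Or.inr ⟨i, List.mem_cons_of_mem _ hi, h2⟩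
    · right
      refine ⟨j, List.mem_cons_self, ?_⟩
      have hx : Nat.xor F (Nat.land F (fld w j sH)) < 2 ^ (w - 1) :=
        Nat.xor_lt_two_pow hF (lt_of_le_of_lt Nat.and_le_left hF)
      apply key _ hx
      have hacc : ∀ js, fld w q (accI w (ones w m) s sH F js) = 0 ∨
          fld w q (accI w (ones w m) s sH F js) = 2 ^ (w - 1) := by
        intro js
        induction js with
        | nil => exact hval _
        | cons i js ih' =>
          have he' : accI w (ones w m) s sH F (i :: js) = (accI w (ones w m) s sH F js) &&&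
            (nzm w (ones w m) (Nat.land s (Nat.mul (ones w m)
              (Nat.xor F (Nat.land F (fld w i sH)))))) := rfl
          rw [he', fld_land]
          rcases ih' with h3 | h3
          · left; rw [h3]; simp
          · rcases hval (Nat.land s (Nat.mul (ones w m)
              (Nat.xor F (Nat.land F (fld w i sH))))) with h4 | h4
            · left; rw [h4]; simp
            · right; rw [h3, h4]; simp
      rcases hacc js with h3 | h3
      · exact absurd h3 h1
      · rcases hval (Nat.land s (Nat.mul (ones w m)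
          (Nat.xor F (Nat.land F (fld w j sH))))) with h4 | h4
        · exact h4
        · rw [h3, h4] at h
          simp at h

theorem intL_sound {chk : ℕ → List ℕ → Bool} {l : List (List ℕ)} {ks : List ℕ}
    (h : intL chk l ks = true) : ∀ F ∈ ks, ∃ js, chk F js = true := by
  induction l generalizing ks with
  | nil =>
    cases ks with
    | nil => intro F hF; simp at hF
    | cons F ks => exact absurd h (by simp [intL])
  | cons js l ih =>
    cases ks with
    | nil => exact absurd h (by simp [intL])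
    | cons F ks =>
      have he : intL chk (js :: l) (F :: ks) =
        Bool.rec false (intL chk l ks) (chk F js) := rfl
      rw [he] at h
      cases hc : chk F js with
      | false => rw [hc] at h; simp at h
      | true =>
        rw [hc] at h
        intro G hG
        rcases List.mem_cons.1 hG with h1 | h1
        · rw [h1]; exact ⟨js, hc⟩
        · exact ih h G h1

theorem interS_sound {w mB : ℕ} (hw : n < w) {fA fB fH : BT ℕ} (hA : bst fA 0 (2 ^ n) = true)
    (hB : bst fB 0 (2 ^ n) = true) (hH : bst fH 0 (2 ^ n) = true) {l : List (List ℕ)}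
    (h : interS w mB fA fB fH l = true) :
    faces (famT fA : Fam n) ∩ faces (famT fB) ⊆ faces (famT fH) := by
  unfold interS at h
  rw [andB_iff, nblt_iff] at h
  obtain ⟨h1, h2⟩ := h
  have hw0 : 0 < w := by omega
  have hnw : 2 ^ n ≤ 2 ^ (w - 1) := Nat.pow_le_pow_right (by norm_num) (by omega)
  have hnw' : 2 ^ n ≤ 2 ^ w := Nat.pow_le_pow_right (by norm_num) hw.le
  intro τ hτ
  rw [Finset.mem_inter, mem_faces, mem_faces] at hτ
  obtain ⟨⟨hτ0, G, hG, hτG⟩, _, G', hG', hτG'⟩ := hτ
  obtain ⟨F, y, hF, rfl⟩ := mem_famT.1 hG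
  rw [← famF_keys hw hB h1] at hG'
  obtain ⟨q, hq, hq0, rfl⟩ := mem_famF.1 hG'
  obtain ⟨js, hjs⟩ := intL_sound h2 F (mem_keys.2 ⟨y, hF⟩)
  rw [nbeq_iff] at hjs
  have hFn : F < 2 ^ n := (bst_get (β := Bool) hA hF).2.1
  have h3 := accI_sound (m := mB) (s := packA w 0 (btKeys fB)) (sH := packA w 0 (btKeys fH))
    (F := F) hw0 (lt_of_lt_of_le hFn hnw) (js := js) hq (by
      rw [hjs]
      change ((0 >>> (w * q)) % 2 ^ w) = _
      simp)
  have hbF : ∀ v ∈ τ, F.testBit v = true := fun v hv => mem_fs.1 (hτG hv)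
  have hbG : ∀ v ∈ τ, (fld w q (packA w 0 (btKeys fB))).testBit v = true :=
    fun v hv => mem_fs.1 (hτG' hv)
  rcases h3 with h3 | ⟨j, _, h3⟩
  · exfalso
    obtain ⟨v, hv⟩ := hτ0
    have h4 := congrArg (fun z => z.testBit (v : ℕ)) h3
    simp only [Nat.testBit_and, Nat.zero_testBit] at h4
    rw [hbF v hv, hbG v hv] at h4
    simp at h4
  · have hsub : ∀ v ∈ τ, (fld w j (packA w 0 (btKeys fH))).testBit v = true := by
      intro v hv
      have h4 := congrArg (fun z => z.testBit (v : ℕ)) h3
      simp only [Nat.testBit_and, Nat.testBit_xor, Nat.zero_testBit] at h4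
      rw [hbF v hv, hbG v hv] at h4
      simpa using h4
    have hl : ∀ x ∈ btKeys fH, x < 2 ^ n := by
      intro x hx
      obtain ⟨y, hy⟩ := mem_keys.1 hx
      exact (bst_get (β := Bool) hH hy).2.1
    rw [fld_packA (fun x hx => lt_of_lt_of_le (hl x hx) hnw')] at hsub
    by_cases hj : j < (btKeys fH).length
    · rw [dif_pos hj] at hsub
      have hmem : (btKeys fH)[j] ∈ btKeys fH := List.getElem_mem hj
      rw [mem_faces]
      refine ⟨hτ0, fs ((btKeys fH)[j]), mem_toFam.2 ⟨_, hmem, rfl⟩, ?_⟩
      intro v hv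
      exact mem_fs.2 (hsub v hv)
    · rw [dif_neg hj] at hsub
      obtain ⟨v, hv⟩ := hτ0
      have h5 := hsub v hv
      have h6 : fld w (j - (btKeys fH).length) 0 = 0 := by
        change ((0 >>> (w * _)) % 2 ^ w) = _
        simp
      rw [h6] at h5
      simp at h5

/-- the intersection of two complexes is a common part of their boundaries -/
theorem faces_inter' {A B H : Fam n} (h : faces A ∩ faces B ⊆ faces H)
    (hb : H ⊆ boundary A ∩ boundary B) : faces A ∩ faces B = faces H := by
  apply Finset.Subset.antisymm h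
  intro s hs
  rw [Finset.mem_inter]
  exact ⟨faces_boundary _ (faces_mono (fun R hR => (Finset.mem_inter.1 (hb hR)).1) hs),
    faces_boundary _ (faces_mono (fun R hR => (Finset.mem_inter.1 (hb hR)).2) hs)⟩

end Pool.Agent.TH640B
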