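import Mathlib
import Pool.Agent.TH640B.Glue
import Pool.Agent.TH640B.Inter
import Pool.Agent.TH640B.Tri3

/-!
# Assembling the certificates

Helper file.
-/

open Finset

namespace Pool.Agent.TH640B

variable {n : ℕ}

theorem appL_eq {α : Type} (l l' : List α) : appL l l' = l ++ l' := by
  induction l with
  | nil => rfl
  | cons x l ih =>
    change x :: appL l l' = x :: (l ++ l')
    rw [ih]

theorem joinL_eq {α : Type} (l : List (List α)) : joinL l = l.flatten := by
  induction l with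
  | nil => rfl
  | cons x l ih =>
    change appL x (joinL l) = _
    rw [appL_eq, ih, List.flatten_cons]

theorem manifold_of' {w d mF mB : ℕ} (hw : n < w) {fT : BT ℕ} {rT : BT RD}
    (U : UpSpec n (d + 2) fT rT) {Ls : List (List LC)}
    (h : ∀ l ∈ Ls, lksOK n w (d + 2) fT mF rT mB l = true) (hv : vmOK Ls fT = true) :
    IsManifold (d + 1) (famT fT : Fam n) := by
  refine manifold_of (m := d + 1) U (V := mapL Prod.fst (joinL Ls)) ?_ hv
  intro v hvm
  rw [joinL_eq, mapL_eq, List.mem_map] at hvm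
  obtain ⟨q, hq, rfl⟩ := hvm
  rw [List.mem_flatten] at hq
  obtain ⟨l, hl, hql⟩ := hq
  exact links_sound (d := d) hw U (h l hl) q.1 (List.mem_map_of_mem hql)

theorem handle_of {w m' m r root : ℕ} (hw : n < w) {fT : BT ℕ} {rT : BT RD}
    {E : List (ℕ × ℕ)} {l : List CS} {O' : List (ℕ × ℕ)} {G : List ℕ}
    (U : UpSpec n (m + 1) fT rT) (hM : IsManifold m (famT fT : Fam n))
    (hs : collOK n w m' fT E l = true) (hlt : ltOK n (mapL Prod.fst E) = true)
    (hG : grOK (mapL Prod.fst E) G = true) (hg : graphOK n r root O' G = true) :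
    IsHandlebody m r (famT fT : Fam n) ∧
      Relation.ReflTransGen CollapseStep (faces (famT fT : Fam n)) (toFam G) := by
  refine ⟨handlebody_of' hw U hM hs hlt hG hg, ?_⟩
  have h1 := collOK_sound hw U.bf hs
  unfold ltOK at hlt
  rw [allL_iff] at hlt
  obtain ⟨h2, _⟩ := grOK_sound (n := n) (fun e he => nblt_iff.1 (hlt e he)) hG
  rw [h2] at h1
  exact h1

theorem fs_pow (a : Fin n) : (fs (Nat.pow 2 a) : Finset (Fin n)) = {a} := by
  ext u
  rw [mem_fs, Finset.mem_singleton]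
  change ((2 ^ (a : ℕ)).testBit u = true) ↔ _
  rw [Nat.testBit_two_pow, decide_eq_true_eq]
  exact ⟨fun h => Fin.ext h.symm, fun h => by rw [h]⟩

theorem triL_toFam (a b c : Fin n) : (toFam (triL a b c) : Fam n) =
    {{a}, {b}, {c}, {a, b}, {b, c}, {c, a}} := by
  have e : ∀ x y : Fin n, (fs (Nat.lor (Nat.pow 2 x) (Nat.pow 2 y)) : Finset (Fin n)) = {x, y} := by
    intro x y
    rw [fs_or, fs_pow, fs_pow]
    rfl
  unfold triL
  rw [toFam_cons, toFam_cons, toFam_cons, toFam_cons, toFam_cons, toFam_cons, e, e, e,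
    fs_pow, fs_pow, fs_pow]
  ext s
  simp only [Finset.mem_insert, Finset.mem_singleton]
  have h0 : s ∉ (toFam [] : Fam n) := by simp [toFam]
  tauto

theorem circ_of {K : Fam n} {tab : ℕ → ℕ → ℕ}
    (hco : IsCocycle K (fun u v => ((tab u v : ℕ) : ZMod 5)))
    {c' : Finset (Fin n) → Fin 3} {i : Fin 3} {P : Fam n} (hP : part K c' i = P)
    {a b c h : ℕ} (hcol : Relation.ReflTransGen CollapseStep (faces P) (toFam (triL a b c)))
    (ht : triOK n a b c = true) (hh : holOK tab a b c h = true) :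
    CircLike (covP K (fun u v => ((tab u v : ℕ) : ZMod 5)))
      (covT K (fun u v => ((tab u v : ℕ) : ZMod 5))) (sector K c' i) (h : ZMod 5) := by
  unfold triOK at ht
  simp only [andB_iff, nblt_iff, notB_iff, nbeq_iff] at ht
  obtain ⟨ha, hb, hc, hab, hbc, hca⟩ := ht
  subst hP
  have e1 := triL_toFam (n := n) ⟨a, ha⟩ ⟨b, hb⟩ ⟨c, hc⟩
  have h1 := circLike_tri (a := (⟨a, ha⟩ : Fin n)) (b := ⟨b, hb⟩) (c := ⟨c, hc⟩) hco hcol
    (fun e => hab (Fin.mk.inj_iff.1 e)) (fun e => hbc (Fin.mk.inj_iff.1 e))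
    (fun e => hca (Fin.mk.inj_iff.1 e)) e1
  have h2 : (((tab a b : ℕ) : ZMod 5) + ((tab b c : ℕ) : ZMod 5) + ((tab c a : ℕ) : ZMod 5)) =
      (h : ZMod 5) := by
    unfold holOK at hh
    rw [nbeq_iff] at hh
    have h3 : (tab a b + tab b c + tab c a) % 5 = h := hh
    rw [← Nat.cast_add, ← Nat.cast_add, ZMod.natCast_eq_natCast_iff', ← h3]
    simp
  rw [← h2]
  exact h1

theorem nearOK_sound {tT fS : BT ℕ} {col1 col2 : ℕ → ℕ} {V : ℕ}
    (hb : bst tT 0 (2 ^ n) = true) (h1 : inMask V fS = true)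
    (h2 : nearOK col1 col2 V tT = true) : ∀ F ∈ (famT tT : Fam n),
      (∃ v ∈ F, {v} ∈ faces (famT fS : Fam n)) → colF tT col1 F = colF tT col2 F := by
  rintro F hF ⟨v, hv, hvS⟩
  obtain ⟨k, w, hk, rfl⟩ := mem_famT.1 hF
  rw [mem_faces] at hvS
  obtain ⟨_, G, hG, hvG⟩ := hvS
  obtain ⟨g, y, hg, rfl⟩ := mem_famT.1 hG
  have h3 := btAll_inT h1 hg
  rw [subB_iff] at h3
  have h4 := h3 v (mem_fs.1 (hvG (Finset.mem_singleton_self v)))
  have h5 := btAll_inT h2 hk
  rw [orB_iff, nbeq_iff, nbeq_iff] at h5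
  have hcol : ∀ col : ℕ → ℕ, colF tT col (fs k : Finset (Fin n)) = fin3 (col w) := by
    intro col
    unfold colF
    rw [mk_fs (bst_get (β := Bool) hb hk).2.1, (bst_get (β := ℕ) hb hk).2.2]
  rcases h5 with h5 | h5
  · exfalso
    have h6 : (k &&& V).testBit v = false := by
      have h7 : k &&& V = 0 := h5
      rw [h7]; simp
    rw [Nat.testBit_and, mem_fs.1 hv, h4] at h6
    simp at h6
  · rw [hcol, hcol, h5]

/-- Two colourings that agree on all facets that meet the core agree near the core. -/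
theorem near_core {K S : Fam n} {c₁ c₂ : Finset (Fin n) → Fin 3}
    (hcore : core K c₁ = carrier K S)
    (h : ∀ F ∈ K, (∃ v ∈ F, {v} ∈ faces S) → c₁ F = c₂ F) :
    ∃ U : Set (Body K), IsOpen U ∧ core K c₁ ⊆ U ∧
      ∀ i, sector K c₁ i ∩ U = sector K c₂ i ∩ U := by
  have hface : ∀ s ∈ faces S, ∀ v ∈ s, {v} ∈ faces S := by
    intro s hs v hv
    rw [mem_faces] at hs ⊢
    obtain ⟨_, F, hF, hsF⟩ := hs
    exact ⟨Finset.singleton_nonempty v, F, hF, by
      rw [Finset.singleton_subset_iff]; exact hsF hv⟩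
  have hsupp : ∀ (x : Fin n → ℝ) (v : Fin n), v ∈ supp x ↔ x v ≠ 0 := by
    intro x v
    simp [supp]
  refine ⟨⋃ v ∈ {v : Fin n | {v} ∈ faces S}, {x : Body K | x.1 v ≠ 0}, ?_, ?_, ?_⟩
  · refine isOpen_biUnion fun v _ => ?_
    have hc : Continuous fun x : Body K => x.1 v := (continuous_apply v).comp continuous_subtype_val
    exact isOpen_ne_fun hc continuous_const
  · intro x hx
    rw [hcore, mem_carrier] at hx
    have h1 := mem_faces.1 hx
    obtain ⟨v, hv⟩ := h1.1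
    simp only [Set.mem_iUnion, Set.mem_ofPred_eq, exists_prop]
    exact ⟨v, hface _ hx v hv, (hsupp _ _).1 hv⟩
  · intro i
    ext x
    simp only [Set.mem_inter_iff, Set.mem_iUnion, Set.mem_ofPred_eq, exists_prop, mem_sector,
      mem_faces, part, Finset.mem_filter]
    constructor
    · rintro ⟨⟨h1, F, ⟨hF, hc⟩, h2⟩, v, hv, hxv⟩
      refine ⟨⟨h1, F, ⟨hF, ?_⟩, h2⟩, v, hv, hxv⟩
      rw [← hc]
      exact (h F hF ⟨v, h2 ((hsupp _ _).2 hxv), mem_faces.2 hv⟩).symm
    · rintro ⟨⟨h1, F, ⟨hF, hc⟩, h2⟩, v, hv, hxv⟩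
      refine ⟨⟨h1, F, ⟨hF, ?_⟩, h2⟩, v, hv, hxv⟩
      rw [← hc]
      exact h F hF ⟨v, h2 ((hsupp _ _).2 hxv), mem_faces.2 hv⟩

/-- A trisection from its parts. -/
theorem trisection_of {K : Fam n} {c : Finset (Fin n) → Fin 3} {g k : ℕ}
    {P0 P1 P2 H01 H02 H12 S : Fam n} (h0 : part K c 0 = P0) (h1 : part K c 1 = P1)
    (h2 : part K c 2 = P2) (k0 : IsHandlebody 4 k P0) (k1 : IsHandlebody 4 k P1)
    (k2 : IsHandlebody 4 k P2) (g01 : IsHandlebody 3 g H01) (g02 : IsHandlebody 3 g H02)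
    (g12 : IsHandlebody 3 g H12) (gS : IsSurface g S)
    (w01 : faces P0 ∩ faces P1 ⊆ faces H01) (b01 : H01 ⊆ boundary P0 ∩ boundary P1)
    (w02 : faces P0 ∩ faces P2 ⊆ faces H02) (b02 : H02 ⊆ boundary P0 ∩ boundary P2)
    (w12 : faces P1 ∩ faces P2 ⊆ faces H12) (b12 : H12 ⊆ boundary P1 ∩ boundary P2)
    (wS : faces H01 ∩ faces H02 ⊆ faces S) (bS : S ⊆ boundary H01 ∩ boundary H02) :
    IsTrisection K c g k ∧ core K c = carrier K S := by
  have e01 := faces_inter' w01 b01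
  have e02 := faces_inter' w02 b02
  have e12 := faces_inter' w12 b12
  have eS := faces_inter' wS bS
  have hcore : core K c = carrier K S := by
    apply core_eq_carrier
    rw [h0, h1, h2, ← eS, ← e01, ← e02]
    ext s
    simp only [Finset.mem_inter]
    tauto
  have v01 := wall_of (K := K) (H := H01) (c := c) (i := 0) (j := 1) (by rw [h0, h1]; exact e01)
    (by rw [h0, h1]; exact b01)
  have v02 := wall_of (K := K) (H := H02) (c := c) (i := 0) (j := 2) (by rw [h0, h2]; exact e02)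
    (by rw [h0, h2]; exact b02)
  have v12 := wall_of (K := K) (H := H12) (c := c) (i := 1) (j := 2) (by rw [h1, h2]; exact e12)
    (by rw [h1, h2]; exact b12)
  refine ⟨⟨cover_sector K c, ?_, ?_, ⟨S, gS, hcore⟩⟩, hcore⟩
  · intro i
    fin_cases i
    · exact h0 ▸ k0
    · exact h1 ▸ k1
    · exact h2 ▸ k2
  · intro i j hij
    fin_cases i <;> fin_cases j
    · exact absurd rfl hij
    · exact ⟨H01, g01, v01⟩
    · exact ⟨H02, g02, v02⟩
    · exact ⟨H01, g01, by rw [Set.inter_comm]; exact v01.1, by rw [Set.inter_comm]; exact v01.2⟩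
    · exact absurd rfl hij
    · exact ⟨H12, g12, v12⟩
    · exact ⟨H02, g02, by rw [Set.inter_comm]; exact v02.1, by rw [Set.inter_comm]; exact v02.2⟩
    · exact ⟨H12, g12, by rw [Set.inter_comm]; exact v12.1, by rw [Set.inter_comm]; exact v12.2⟩
    · exact absurd rfl hij

end Pool.Agent.TH640B
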