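import Pool.Agent.TH640B.Chk

/-!
# Decoding of certificates

The certificates are natural numbers; the functions below turn them into trees and lists.  Nothing
has to be proved about these functions.  This file uses the core library only.
-/

namespace Pool.Agent.TH640B

/-- balanced tree from `s` records of `b` bits, whose first `kb` bits are the key -/
noncomputable def mkT {α : Type} (b kb : Nat) (pay : Nat → α) (f : Nat) : Nat → Nat → BT α :=
  Nat.rec (fun _ _ => BT.lf) (fun _ ih s D => Bool.rec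
    (BT.nd (ih (Nat.div s 2) (Nat.mod D (Nat.pow 2 (Nat.mul b (Nat.div s 2)))))
      (Nat.mod (Nat.shiftRight D (Nat.mul b (Nat.div s 2))) (Nat.pow 2 kb))
      (pay (Nat.mod (Nat.shiftRight D (Nat.add kb (Nat.mul b (Nat.div s 2))))
        (Nat.pow 2 (Nat.sub b kb))))
      (ih (Nat.sub (Nat.sub s (Nat.div s 2)) 1)
        (Nat.shiftRight D (Nat.mul b (Nat.succ (Nat.div s 2))))))
    BT.lf (Nat.beq s 0)) f

/-- tree of facets -/
noncomputable def mkF (kb s D : Nat) : BT Nat := mkT (Nat.add kb 4) kb (fun y => y) 13 s D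

/-- tree of ridges -/
noncomputable def mkR (kb s D : Nat) : BT RD := mkT (Nat.add kb 23) kb
  (fun y => (Nat.mod y 128, Nat.mod (Nat.shiftRight y 7) 128, Nat.mod (Nat.shiftRight y 14) 2,
    Nat.mod (Nat.shiftRight y 15) 16, Nat.shiftRight y 19)) 13 s D

/-- tree of faces -/
noncomputable def mkG (kb s D : Nat) : BT (Nat × Nat) := mkT (Nat.add kb 17) kb
  (fun y => (Nat.mod y 1024, Nat.shiftRight y 10)) 13 s D

/-- `k` numbers of 11 bits -/
noncomputable def rdN (k : Nat) : Nat → List Nat :=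
  Nat.rec (fun _ => []) (fun _ ih y => Nat.mod y 2048 :: ih (Nat.shiftRight y 11)) k

/-- `k` pairs of 7 and 11 bits -/
noncomputable def rdP (k : Nat) : Nat → List (Nat × Nat) :=
  Nat.rec (fun _ => []) (fun _ ih y =>
    (Nat.mod y 128, Nat.mod (Nat.shiftRight y 7) 2048) :: ih (Nat.shiftRight y 18)) k

/-- a bistellar move -/
noncomputable def mvD (c y : Nat) : List (Nat × Nat) × List (Nat × Nat) :=
  (rdP (Nat.mod y 8) (Nat.shiftRight y 3),
    rdP (Nat.sub c (Nat.mod y 8)) (Nat.shiftRight y (Nat.add 3 (Nat.mul 18 (Nat.mod y 8)))))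

/-- a list of bistellar moves -/
noncomputable def mvL (c k : Nat) : Nat → List (List (Nat × Nat) × List (Nat × Nat)) :=
  Nat.rec (fun _ => []) (fun _ ih y =>
    mvD c (Nat.mod y (Nat.pow 2 (Nat.add 3 (Nat.mul 18 c)))) ::
      ih (Nat.shiftRight y (Nat.add 3 (Nat.mul 18 c)))) k

/-- a certificate for a link -/
noncomputable def lkD (c z : Nat) : LC :=
  (Nat.mod z 128, Nat.mod (Nat.shiftRight z 7) 512,
    rdN (Nat.mod (Nat.shiftRight z 16) 512) (Nat.shiftRight z 44),
    rdN (Nat.mod (Nat.shiftRight z 25) 512) (Nat.shiftRight z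
      (Nat.add 44 (Nat.mul 11 (Nat.mod (Nat.shiftRight z 16) 512)))),
    rdP c (Nat.shiftRight z (Nat.add 44 (Nat.mul 11 (Nat.add
      (Nat.mod (Nat.shiftRight z 16) 512) (Nat.mod (Nat.shiftRight z 25) 512))))),
    mvL c (Nat.mod (Nat.shiftRight z 34) 1024) (Nat.shiftRight z (Nat.add (Nat.mul 18 c)
      (Nat.add 44 (Nat.mul 11 (Nat.add
        (Nat.mod (Nat.shiftRight z 16) 512) (Nat.mod (Nat.shiftRight z 25) 512)))))))

/-- a list of certificates for links -/
noncomputable def lkL (c : Nat) (l : List Nat) : List LC := mapL (lkD c) l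

/-- a collapse -/
noncomputable def csD (y : Nat) : CS :=
  (Nat.mod y 2048, rdP (Nat.mod (Nat.shiftRight y 11) 8) (Nat.shiftRight y 17),
    rdP (Nat.mod (Nat.shiftRight y 14) 8) (Nat.shiftRight y
      (Nat.add 17 (Nat.mul 18 (Nat.mod (Nat.shiftRight y 11) 8)))))

/-- a list of collapses -/
noncomputable def csL (k : Nat) : Nat → List CS :=
  Nat.rec (fun _ => []) (fun _ ih y =>
    csD (Nat.mod y (Nat.pow 2 107)) :: ih (Nat.shiftRight y 107)) k

/-- a list of lists of numbers -/
noncomputable def jsL (k : Nat) : Nat → List (List Nat) :=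
  Nat.rec (fun _ => []) (fun _ ih y =>
    rdN (Nat.mod y 32) (Nat.shiftRight y 5) ::
      ih (Nat.shiftRight y (Nat.add 5 (Nat.mul 11 (Nat.mod y 32))))) k

end Pool.Agent.TH640B
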